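import Pool.Agent.Helper99.HG.ZSP

set_option autoImplicit false

namespace Pool.Agent.Helper74.HG.ZSCx

open MvPolynomial Pool.Agent.Helper74.HG

theorem jet_smul {σ : Type} (E : Type) [Field E] (v : E) (hv : v ≠ 0) (q : MvPolynomial σ E)
    (m : ℕ) : JetK E (C v * q) m = JetK E q m := by
  ext x
  simp only [JetK, Set.mem_ofPred_eq, map_mul, aeval_C]
  have h1 : ∀ a : Tr E m, algebraMap E (Tr E m) v * a = 0 ↔ a = 0 := by
    intro a
    constructor
    · intro h
      have h2 : algebraMap E (Tr E m) v⁻¹ * (algebraMap E (Tr E m) v * a) = 0 := by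
        rw [h, mul_zero]
      rwa [← mul_assoc, ← map_mul, inv_mul_cancel₀ hv, map_one, one_mul] at h2
    · intro h
      rw [h, mul_zero]
  rw [mul_left_comm, h1, Ne, h1]

theorem form_smul {σ : Type} [Fintype σ] (K : Type) [Field K] [Finite K] (u : K) (hu : u ≠ 0)
    (p : MvPolynomial σ K) (L : List Str) (h : Form K p L) : Form K (C u * p) L := by
  obtain ⟨M, h1, h2, h3⟩ := h
  refine ⟨M, h1, h2, fun E _ _ _ m => ?_⟩
  rw [← h3 E m]
  have : cntK E (map (algebraMap K E) (C u * p)) m = cntK E (map (algebraMap K E) p) m := by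
    unfold cntK
    rw [map_mul, map_C, jet_smul E _ ((map_ne_zero _).2 hu)]
  rw [this]

theorem aux {σ : Type} [Fintype σ] {A B : Subring ℂ} (hle : A ≤ B) (g : MvPolynomial σ A)
    (c d : B) (hcd : c * d = 1) (L : List Str)
    (hF : ∀ (K : Type) [Field K] [Finite K] (ψ : A →+* K), Form K (map ψ g) L)
    (K : Type) [Field K] [Finite K] (ψ : B →+* K) :
    Form K (map ψ (C c * map (Subring.inclusion hle) g)) L := by
  rw [map_mul, map_C, map_map]
  apply form_smul
  · intro h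
    have := congrArg ψ hcd
    rw [map_mul, h, zero_mul, map_one] at this
    exact zero_ne_one this
  · exact hF K _

theorem ex (s : Finset ℂ) (c d : ℂ) : ∃ s' : Finset ℂ, Rg s ≤ Rg s' ∧ c ∈ Rg s' ∧ d ∈ Rg s' := by
  classical
  refine ⟨insert c (insert d s), Subring.closure_mono ?_, Subring.subset_closure ?_,
    Subring.subset_closure ?_⟩
  · intro x hx
    rw [Finset.mem_coe, Finset.mem_insert, Finset.mem_insert]
    exact Or.inr (Or.inr hx)
  · rw [Finset.mem_coe, Finset.mem_insert]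
    exact Or.inl rfl
  · rw [Finset.mem_coe, Finset.mem_insert, Finset.mem_insert]
    exact Or.inr (Or.inl rfl)

theorem aux2 {σ : Type} {A B : Subring ℂ} (hle : A ≤ B) (g : MvPolynomial σ A)
    (c : ℂ) (hc : c ∈ B) (f : MvPolynomial σ ℂ) (hg : map A.subtype g = f) :
    map B.subtype (C ⟨c, hc⟩ * map (Subring.inclusion hle) g) = C c * f := by
  rw [map_mul, map_C, map_map, Pool.Agent.Helper99.HG.ZSP.incl_comp, hg, Subring.subtype_apply]

theorem pack {σ : Type} [Fintype σ] {A B : Subring ℂ} (hle : A ≤ B) (g : MvPolynomial σ A)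
    (c : ℂ) (hc0 : c ≠ 0) (hc : c ∈ B) (hc' : c⁻¹ ∈ B) (f : MvPolynomial σ ℂ)
    (hg : map A.subtype g = f) (L : List Str)
    (hF : ∀ (K : Type) [Field K] [Finite K] (ψ : A →+* K), Form K (map ψ g) L) :
    ∃ g' : MvPolynomial σ B, map B.subtype g' = C c * f ∧
      ∀ (K : Type) [Field K] [Finite K] (ψ : B →+* K), Form K (map ψ g') L :=
  ⟨_, aux2 hle g c hc f hg, fun K _ _ ψ => aux hle g ⟨c, hc⟩ ⟨c⁻¹, hc'⟩
    (Subtype.ext (mul_inv_cancel₀ hc0)) L hF K ψ⟩

/-- **ZSC** -/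
theorem t : ZSC := by
  intro σ _ c hc f Z hZ
  obtain ⟨s, g, L, hg, hL, hF, hZL⟩ := hZ
  obtain ⟨s', hle, h1, h2⟩ := ex s c c⁻¹
  obtain ⟨g', h3, h4⟩ := pack hle g c hc h1 h2 f hg L hF
  exact ⟨s', g', L, h3, hL, h4, hZL⟩

/-- **BSC** -/
theorem t2 : BSC := by
  rintro σ c hc f b ⟨P, hP, h, hh, h1⟩
  refine ⟨P, hP, C c * h, ?_, fun N => ?_⟩
  · rw [map_mul, constantCoeff_C]
    exact mul_ne_zero hc hh
  · rw [mul_pow, mul_pow, ← C_pow, ← C_pow, C_mul', LinearMap.map_smul, h1 N, ← C_mul', pow_succ,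
      C_mul]
    ring

end Pool.Agent.Helper74.HG.ZSCx
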