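import Pool.Agent.Helper74.HG.FinC
import Pool.Agent.Helper2.HG.TRA
import Pool.Agent.Helper61.HG.STE
import Pool.Agent.Helper84.HG.WD
import Pool.Agent.Helper59.HG.LI
import Pool.Agent.Helper97.HG.POLE
import Pool.Agent.Helper58.HG.BST
import Pool.Agent.Helper58.HG.ZPI
import Pool.Agent.Helper75.HG.ROOT
import Pool.Agent.Helper80.HG.WL
import Pool.Agent.Helper80.HG.SE2
import Pool.Agent.Helper66.HG.LIK
import Pool.Agent.Helper55.HG.CNK
import Pool.Agent.Helper43.HG.ZIS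
import Pool.Agent.Helper71.HG.ZPK
import Pool.Agent.Helper7.HG.ZPR
import Pool.Agent.Helper74.HG.ZSCx
import Pool.Agent.Helper99.HG.ZSP
import Pool.Agent.Helper46.HG.BIS
import Pool.Agent.Helper41.HG.BPI
import Pool.Agent.Helper73.HG.BID
import Pool.Agent.Helper1.HG.BSP
import Pool.Agent.Helper83.HG.Nullst
import Pool.Agent.Helper40.HG.FIN
import Pool.Agent.Helper15.HG.NRM
import Pool.Agent.Helper32.HG.UNF
import Pool.Agent.Helper91.HG.DEG
import Pool.Agent.Helper73.HG.MAT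

/-!
# Project HG (MP_aa7fc1_ag): all facts
-/

namespace Pool.Agent.Helper74.HG

theorem a_tra : TRA := Pool.Agent.Helper2.HG.TRA.t
theorem a_iso : ISO := Pool.Agent.Helper2.HG.TRA.t0
theorem a_ste : STE := Pool.Agent.Helper61.HG.STE.t
theorem a_wd : WD := Pool.Agent.Helper84.HG.WD.t a_tra a_ste a_iso
theorem a_li : LI := Pool.Agent.Helper59.HG.LI.t
theorem a_pole : POLE := Pool.Agent.Helper97.HG.POLE.t
theorem a_bst : BST := Pool.Agent.Helper58.HG.BST.t
theorem a_root : ROOT := Pool.Agent.Helper75.HG.ROOT.t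
theorem a_wl : WL := Pool.Agent.Helper80.HG.WL.t
theorem a_lik : LIK := Pool.Agent.Helper66.HG.LIK.t
theorem a_cnk : CNK := Pool.Agent.Helper55.HG.CNK.t a_lik a_wl
theorem a_se2 : SE2 := Pool.Agent.Helper80.HG.SE2.t a_cnk
theorem a_zis : ZIS := Pool.Agent.Helper43.HG.ZIS.t
theorem a_zpk : ZPK := Pool.Agent.Helper71.HG.ZPK.t a_lik
theorem a_zpr : ZPR := Pool.Agent.Helper7.HG.ZPR.t a_zpk
theorem a_zpi : ZPI := Pool.Agent.Helper58.HG.ZPI.t a_zpr a_zis
theorem a_zsc : ZSC := ZSCx.t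
theorem a_bsc : BSC := ZSCx.t2
theorem a_zsp : ZSP := Pool.Agent.Helper99.HG.ZSP.t
theorem a_bis : BIS := Pool.Agent.Helper46.HG.BIS.t
theorem a_bpi : BPI := Pool.Agent.Helper41.HG.BPI.t
theorem a_bid : BID := Pool.Agent.Helper73.HG.BID.t
theorem a_bsp : BSP := Pool.Agent.Helper1.HG.BSP.t
theorem a_nul : NUL := Pool.Agent.Helper83.HG.Nullst.t
theorem a_fin : FIN := Pool.Agent.Helper40.HG.FIN.t
theorem a_nrm : NRM := Pool.Agent.Helper15.HG.NRM.t
theorem a_unf : UNF := Pool.Agent.Helper32.HG.UNF.t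

theorem a_deg : DEG := Pool.Agent.Helper91.HG.DEG.t a_tra a_ste a_iso

theorem a_mat : MAT := Pool.Agent.Helper73.HG.MAT.t a_tra a_ste a_iso

/-- all the facts -/
theorem factsC (hc : CONV) : FactsC where
  tra := a_tra
  iso := a_iso
  wd := a_wd
  li := a_li
  deg := a_deg
  mat := a_mat
  pole := a_pole
  bst := a_bst
  root := a_root
  conv := hc
  se2 := a_se2
  zis := a_zis
  zpi := a_zpi
  zsc := a_zsc
  zsp := a_zsp
  bis := a_bis
  bpi := a_bpi
  bsc := a_bsc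
  bid := a_bid
  bsp := a_bsp
  nul := a_nul
  fin := a_fin
  nrm := a_nrm
  unf := a_unf

end Pool.Agent.Helper74.HG
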