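import Pool.Agent.Helper74.HG.Goals

/-!
# Project HG: bounded degree
-/

namespace Pool.Agent.Helper74.HG

open MvPolynomial

open Classical in
/-- Every vertex is in at most three edges. -/
def Sub3 {σ : Type} (H : Finset (Finset σ)) : Prop :=
  ∀ i, (H.filter (fun e => i ∈ e)).card ≤ 3

/-- **DEG** (bounded degree), takes `TRA`, `STE`, `ISO`.  Induction on the excess
`∑_i (deg_i - 3)` (truncated subtraction), `deg_i` the number of edges which contain `i`.  Excess
zero: `Red f f`.  Otherwise let `deg_x ≥ 4`; choose two edges which contain `x` and let `A` be the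
set of these two, `B` the set of the other edges which contain `x` (`|B| = deg_x - 2 ≥ 2`).
`hyp H = f₀ + X_x b`, `b = ∑_{e ∈ B} ∏_{i ∈ e \ x} X_i` (no constant term, because `|e| ≥ 2`),
`f₀` the polynomial of the other edges.  Step with `a = X_x`, `c = 1`: `f₀ + X_x l - w b + w l`; step
for `- w b` (`a = w`, `c = -1`, new variables `w', l'`): `w l' + w' b + w' l'`.  The result is the
polynomial of the hypergraph with the edges of `f₀`, the edges `{w'} ∪ (e \ x)`, `e ∈ B`, and
`{x,l}, {w,l}, {w,l'}, {w',l'}` (all new edges contain a new variable; they are pairwise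
different).  Degrees: `x`: `3`; `l, w, l'`: `2`; `w'`: `deg_x - 1`; the other vertices keep their
degrees; so the excess goes down by one.  (See the proof of `WD`,
`Pool/Agent/Helper84/HG/WD.lean`, for the bookkeeping.) -/
def DEG : Prop := ∀ (σ : Type) [Fintype σ] (H : Finset (Finset σ)), Cub H →
  ∃ (τ : Type) (_ : Fintype τ) (H' : Finset (Finset τ)), Cub H' ∧ Sub3 H' ∧
    Red (hyp H) (hyp H')

/-- The edges with three vertices are pairwise disjoint. -/
def Mat3 {σ : Type} (H : Finset (Finset σ)) : Prop :=
  ∀ e ∈ H, ∀ e' ∈ H, e.card = 3 → e'.card = 3 → e ≠ e' → Disjoint e e'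

/-- **MAT** (disjoint triples), takes `TRA`, `STE`, `ISO`.  Induction on
`∑_x (t_x - 1)` (truncated), `t_x` the number of edges with three vertices which contain `x`.  If it is
zero, `Mat3 H` holds.  Otherwise let `x` be in two different edges `e₁, e₂` with three vertices,
and apply the two steps of `DEG` with `B = {e₂}`: `hyp H = f₀ + X_x b`, `b = ∏_{i ∈ e₂ \ x} X_i`;
`X_x b ~ X_x l - w b + w l`, `- w b ~ w l' + w' b + w' l'`.  The new hypergraph has the edges
`e ≠ e₂` of `H`, `{w'} ∪ (e₂ \ x)`, `{x,l}, {w,l}, {w,l'}, {w',l'}`.  The degree of `x` does not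
change (`e₂` is replaced by `{x,l}`), the degrees of the other old vertices do not change, the new
vertices have degree `2`; `t_x` goes down by one, the other `t` do not change, `t_{w'} = 1`,
`t_w = t_l = t_{l'} = 0`. -/
def MAT : Prop := ∀ (σ : Type) [Fintype σ] (H : Finset (Finset σ)), Cub H → Sub3 H →
  ∃ (τ : Type) (_ : Fintype τ) (H' : Finset (Finset τ)), Cub H' ∧ Sub3 H' ∧ Mat3 H' ∧
    Red (hyp H) (hyp H')

end Pool.Agent.Helper74.HG
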