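import Pool.Agent.Helper74.HG.GoalsC
import Pool.Agent.Helper74.HG.GoalsD

/-!
# Project HG, part 4 (for MP_aa7fc1_ag): bipartite hypergraphs

A hypergraph is bipartite (`Bip`), if there is a set of vertices which meets every edge in exactly
one vertex; its polynomial is then `∑ l_j g_j` with quadrics `g_j` in the other variables.  The
product `l f` of `f` with a new variable is stably equivalent to such a polynomial.
-/

namespace Pool.Agent.Helper74.HG

open MvPolynomial

/-- Every edge contains exactly one vertex `i` with `c i`. -/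
def Gr {σ : Type} (c : σ → Bool) (H : Finset (Finset σ)) : Prop :=
  ∀ e ∈ H, (e.filter (fun i => c i = true)).card = 1

/-- There is a set of vertices which meets every edge in exactly one vertex. -/
def Bip {σ : Type} (H : Finset (Finset σ)) : Prop := ∃ c : σ → Bool, Gr c H

/-- `l f`, `l = X none`. -/
noncomputable def lf {σ : Type} {R : Type} [CommRing R] (f : MvPolynomial σ R) :
    MvPolynomial (Option σ) R :=
  X none * rename some f

/-- **LIB** (words of `l f`).  As `LI` (`Pool/Agent/Helper59/HG/LI.lean`, or helper30's `LIG`): `f` is a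
sum of signed nonempty words `(ε, u)`, and `l f` is the sum of the words `(ε, none :: u.map some)`. -/
def LIB : Prop := ∀ {σ : Type} (f : MvPolynomial σ ℤ), constantCoeff f = 0 →
  ∃ L : List (ℤ × List (Option σ)),
    (∀ p ∈ L, (p.1 = 1 ∨ p.1 = -1) ∧ 2 ≤ p.2.length ∧ p.2.countP Option.isNone = 1) ∧
    lf f = (L.map wp).sum

/-- **WDB** takes `TRA`, `STE`, `ISO`; as `WD` (`Pool/Agent/Helper84/HG/WD.lean`), with a grading `c`:
all edges and words have exactly one letter with `c = true`.  In a step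
`c₀ a b + w l ~ a l - c₀ w b + w l` the new variables get the grades `c' w = g`, `c' l = !g`, where `g` is
the grade of `a` (`c i` for `a = X_i`; for `a = X_i X_j` the value `c i || c j`, not both are
graded); `c' = c` on the old variables.  Then `a l`, `w b`, `w l` have grade one again. -/
def WDB : Prop := ∀ (σ : Type) [Fintype σ] (c : σ → Bool) (H : Finset (Finset σ))
  (L : List (ℤ × List σ)), Cub H → Gr c H →
  (∀ p ∈ L, (p.1 = 1 ∨ p.1 = -1) ∧ 2 ≤ p.2.length ∧ p.2.countP c = 1) →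
  ∃ (τ : Type) (_ : Fintype τ) (c' : τ → Bool) (H' : Finset (Finset τ)), Cub H' ∧ Gr c' H' ∧
    Red (hyp H + (L.map wp).sum) (hyp H')

/-- **DEGB** takes `TRA`, `STE`, `ISO`; as `DEG` (`Pool/Agent/Helper91/HG/DEG.lean`), with a grading:
in both steps (`a = X_x`, then `a = w`) the grades are `c' w = c x`, `c' l = !c x`, and then
`c' w' = c x`, `c' l' = !c x`. -/
def DEGB : Prop := ∀ (σ : Type) [Fintype σ] (c : σ → Bool) (H : Finset (Finset σ)), Cub H → Gr c H →
  ∃ (τ : Type) (_ : Fintype τ) (c' : τ → Bool) (H' : Finset (Finset τ)), Cub H' ∧ Gr c' H' ∧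
    Sub3 H' ∧ Red (hyp H) (hyp H')

/-- **MATB** takes `TRA`, `STE`, `ISO`; as `MAT` (`Pool/Agent/Helper73/HG/MAT.lean`), with a grading
(grades as in `DEGB`). -/
def MATB : Prop := ∀ (σ : Type) [Fintype σ] (c : σ → Bool) (H : Finset (Finset σ)), Cub H → Gr c H →
  Sub3 H → ∃ (τ : Type) (_ : Fintype τ) (c' : τ → Bool) (H' : Finset (Finset τ)), Cub H' ∧
    Gr c' H' ∧ Sub3 H' ∧ Mat3 H' ∧ Red (hyp H) (hyp H')

/-- **ZLF** takes `ZPR`, `ZIS` (`Pool/Agent/Helper7/HG/ZPR.lean`, `Pool/Agent/Helper43/HG/ZIS.lean`).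
`IsZ (X () : MvPolynomial Unit ℂ) (RatFunc.X + 1)⁻¹`: data `[(1, [(1,1)])]`, weight `1`; for `m ≥ 1`
there are `q - 1` elements `x` of `(t)` in `Tr K m` with `t x = 0`, `x ≠ 0` (`x = c t^m`), and none for
`m = 0`; `fac q (1,1)` has the coefficients `(q-1) q^(-m)`.  Then the product rule `ZPR` and the
renaming `Unit ⊕ σ ≃ Option σ` (`ZIS`). -/
def ZLF : Prop := ∀ {σ : Type} [Fintype σ] (f : MvPolynomial σ ℂ) (Z : RatFunc ℂ), IsZ f Z →
  IsZ (lf f) ((RatFunc.X + 1)⁻¹ * Z)

/-- **BLF**.  Let `P(N) f^(N+1) = b(N) h f^N`.  For `P ∈ DS σ` there is `P' ∈ DS (Option σ)` with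
`P'(N) (l^j ι g) = l^j ι (P(N) g)` (`ι = rename some`; induction on `Algebra.adjoin`); and
`∂_l (l f)^(N+1) = (N+1) l^N f^(N+1)`, so `P' ∂_l (l f)^(N+1) = (N+1) b(N) h (l f)^N`. -/
def BLF : Prop := ∀ {σ : Type} [Fintype σ] (f : MvPolynomial σ ℂ) (b : Polynomial ℂ), IsB f b →
  IsB (lf f) ((Polynomial.X + 1) * b)

/-- **BLC** (back from `l f` to `f`).  Say that `Q : ℂ → End ℂ[Option σ]` is expandable if there are
finitely many `Q_i ∈ DS σ`, `i ∈ ℤ`, with `Q(N) (l^(N+1) ι g) = ∑_i l^(N+1+i) ι (Q_i(N) g)` for all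
natural numbers `N` and all `g`, the sum over the `i` with `N + 1 + i ≥ 0`.  Then `1` is expandable,
and the set of the `P` such that `P Q` is expandable for all expandable `Q` contains the generators
(`x_j`, `∂_j`, `s`: `Q_i ↦ x_j Q_i`, .., `l`: `Q_i` moves to `i + 1`; `∂_l`: `(s + 1 + i) Q_i` moves to
`i - 1`, it vanishes for `N + 1 + i = 0`) and is closed under sums, products, scalars; so every
`P ∈ DS (Option σ)` is expandable.  Compare the coefficients of `l^N` in
`P(N) (l^(N+1) f^(N+1)) = b(N) h l^N f^N`: `P_(-1)(N) f^(N+1) = b(N) h₀ f^N`, `h₀ = h` at `l = 0`,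
`h₀(0) = h(0)`. -/
def BLC : Prop := ∀ {σ : Type} [Fintype σ] (f : MvPolynomial σ ℂ) (b : Polynomial ℂ),
  IsB (lf f) b → IsB f b

/-- **POL**.  (The rational functions `p / q` with `q(s₀) ≠ 0` form a ring.) -/
def POL : Prop := ∀ (Z : RatFunc ℂ) (s₀ : ℂ),
  (Z.denom.IsRoot s₀ → ((RatFunc.X + 1)⁻¹ * Z).denom.IsRoot s₀) ∧
  (s₀ ≠ -1 → ((RatFunc.X + 1)⁻¹ * Z).denom.IsRoot s₀ → Z.denom.IsRoot s₀)

end Pool.Agent.Helper74.HG
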