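import Pool.Agent.Helper74.HG.FinC
import Pool.Agent.Helper74.HG.GoalsB

/-!
# Project HG, part 4: assembly (bipartite hypergraphs)
-/

namespace Pool.Agent.Helper74.HG

open MvPolynomial Pool.Agent.Helper50.HG.DINV

variable {σ τ : Type}

theorem toC_lf (f : MvPolynomial σ ℤ) : toC (lf f) = lf (toC f) := by
  simp [toC, lf, map_mul, map_rename]

theorem lf_ne {R : Type} [CommRing R] [IsDomain R] {f : MvPolynomial σ R} (h : f ≠ 0) :
    lf f ≠ 0 := by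
  intro h0
  rcases mul_eq_zero.1 h0 with h1 | h1
  · exact X_ne_zero _ h1
  · apply h
    apply rename_injective some (Option.some_injective σ)
    rw [h1, map_zero]

theorem lf_cc {R : Type} [CommRing R] (f : MvPolynomial σ R) : constantCoeff (lf f) = 0 := by
  simp [lf]

theorem c_lf [Fintype σ] (hz : ZLF) (hb : BLF) (hp : POL) (hr : ROOT) {f : MvPolynomial σ ℂ}
    (h0 : f ≠ 0) (hf : constantCoeff f = 0) (h : Q1C (lf f)) : Q1C f := by
  intro Z hZ s hs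
  by_cases hi : ∀ k : ℤ, s ≠ k
  · obtain ⟨k, hk⟩ := h _ (hz f Z hZ) s ((hp Z s).1 hs)
    refine ⟨k, fun b hbf => ?_⟩
    have h1 := hb f _ ((isBk_iff f b).1 hbf)
    have h1' : IsBk ℂ (lf f) ((Polynomial.X + 1) * b) := by
      rw [isBk_iff]
      simpa [Polynomial.map_mul] using h1
    have h2 := hk _ h1'
    rw [map_mul] at h2
    simp only [map_add, Polynomial.aeval_X, map_one] at h2
    rcases mul_eq_zero.1 h2 with h3 | h3
    · exfalso
      apply hi (-k - 1)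
      push_cast
      linear_combination h3
    · exact h3
  · push Not at hi
    obtain ⟨k, rfl⟩ := hi
    exact eigC_int hr h0 hf k

theorem c_lf' [Fintype σ] (hz : ZLF) (hb : BLC) (hp : POL) (hr : ROOT)
    (hu : ∀ {σ : Type} [Fintype σ] (f : MvPolynomial σ ℂ) (Z Z' : RatFunc ℂ), IsZ f Z → IsZ f Z' →
      Z = Z') {f : MvPolynomial σ ℂ} (h0 : f ≠ 0) (hE : ∃ Z, IsZ f Z) (h : Q1C f) :
    Q1C (lf f) := by
  intro Z' hZ' s hs
  by_cases hi : ∀ k : ℤ, s ≠ k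
  · obtain ⟨Z, hZ⟩ := hE
    rw [hu _ _ _ hZ' (hz f Z hZ)] at hs
    have hs1 : s ≠ -1 := fun h1 => hi (-1) (by rw [h1]; push_cast; rfl)
    obtain ⟨k, hk⟩ := h Z hZ s ((hp Z s).2 hs1 hs)
    exact ⟨k, fun b hbf => hk b ((isBk_iff f b).2 (hb f _ ((isBk_iff _ b).1 hbf)))⟩
  · push Not at hi
    obtain ⟨k, rfl⟩ := hi
    exact eigC_int hr (lf_ne h0) (lf_cc f) k

theorem bip_map (e : σ ≃ τ) {H : Finset (Finset σ)} (h : Bip H) :
    Bip (H.map ⟨Finset.map e.toEmbedding, Finset.map_injective _⟩) := by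
  obtain ⟨c, hc⟩ := h
  refine ⟨fun j => c (e.symm j), fun t ht => ?_⟩
  obtain ⟨t', ht', rfl⟩ := Finset.mem_map.1 ht
  rw [← hc t' ht']
  show (Finset.filter (fun j => c (e.symm j) = true) (t'.map e.toEmbedding)).card = _
  rw [Finset.filter_map, Finset.card_map]
  congr 1
  ext i
  simp only [Finset.mem_filter, Function.comp_apply, Equiv.coe_toEmbedding,
    Equiv.symm_apply_apply]

/-- all the facts -/
structure FactsB : Prop where
  base : FactsC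
  lib : LIB
  wdb : WDB
  degb : DEGB
  matb : MATB
  zlf : ZLF
  blf : BLF
  blc : BLC
  pol : POL

theorem chainB (htr : TRA) (his : ISO) (hwd : WDB) (hli : LIB) (hdg : DEGB) (hmt : MATB)
    [Fintype σ] {f : MvPolynomial σ ℤ} (hf : constantCoeff f = 0) :
    ∃ (N : ℕ) (H : Finset (Finset (Fin N))), Cub H ∧ Sub3 H ∧ Mat3 H ∧ Bip H ∧
      Red (lf f) (hyp H) := by
  classical
  obtain ⟨L, hL, h1⟩ := hli f hf
  obtain ⟨τ, hτ, c, H', hC, hG, hR⟩ := hwd (Option σ) Option.isNone ∅ L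
    (fun e he => absurd he (Finset.notMem_empty e)) (fun e he => absurd he (Finset.notMem_empty e))
    hL
  have h2 : hyp (∅ : Finset (Finset (Option σ))) + (L.map wp).sum = lf f := by
    rw [h1]; simp [hyp]
  rw [h2] at hR
  obtain ⟨τ₁, hτ₁, c₁, H₁, hC₁, hG₁, hS₁, hR₁⟩ := hdg τ c H' hC hG
  obtain ⟨τ', hτ', c', H'', hC', hG', hS, hM, hR'⟩ := hmt τ₁ c₁ H₁ hC₁ hG₁ hS₁
  let e := Fintype.equivFin τ'
  refine ⟨Fintype.card τ', H''.map ⟨Finset.map e.toEmbedding, Finset.map_injective _⟩, ?_,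
    sub3_map e hS, mat3_map e hM, bip_map e ⟨c', hG'⟩, ?_⟩
  · intro t ht
    obtain ⟨t', ht', rfl⟩ := Finset.mem_map.1 ht
    simpa using hC' t' ht'
  · rw [← hyp_rename e]
    exact htr _ _ _ (htr _ _ _ (htr _ _ _ hR hR₁) hR') (his _ (pres_rename e) _)

variable (F : FactsB)

include F

/-- integer polynomials -/
theorem mainB_int {σ : Type} [Fintype σ] {f : MvPolynomial σ ℤ} (h0 : f ≠ 0)
    (hf : constantCoeff f = 0) :
    ∃ (N : ℕ) (H : Finset (Finset (Fin N))), H.Nonempty ∧ Cub H ∧ Sub3 H ∧ Mat3 H ∧ Bip H ∧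
      Red (lf f) (hyp H) ∧ (Q1C (hypC H) → Q1C (toC f)) ∧
      ((∃ Z, IsZ (toC f) Z) → Q1C (toC f) → Q1C (hypC H)) := by
  obtain ⟨N, H, hC, hS, hM, hB, hR⟩ := chainB F.base.tra F.base.iso F.wdb F.lib F.degb F.matb hf
  refine ⟨N, H, ?_, hC, hS, hM, hB, hR, fun h => ?_, fun hE h => ?_⟩
  · rw [Finset.nonempty_iff_ne_empty]
    rintro rfl
    obtain ⟨k, φ, -, h2⟩ := hR
    apply (stabS_facts (lf_ne h0) (lf_cc f) k).1
    have h3 : φ (stabS (Fin k) (lf f)) = φ 0 := by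
      rw [h2, map_zero]; simp [hyp]
    exact φ.injective h3
  · rw [← toC_hyp] at h
    have h1 := c_red F.base.zis F.base.bis F.base.se2 F.base.pole F.base.bst F.base.root (lf_ne h0)
      (lf_cc f) hR h
    rw [toC_lf] at h1
    exact c_lf F.zlf F.blf F.pol F.base.root (toC_ne h0) (toC_cc hf) h1
  · rw [← toC_hyp]
    obtain ⟨Z, hZ⟩ := hE
    refine c_red' (fun f Z Z' => uniqC F.base.fin F.base.unf f Z Z') F.base.zis F.base.bis
      F.base.se2 F.base.pole F.base.conv F.base.root (lf_ne h0) (lf_cc f) hR ?_ ?_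
    · rw [toC_lf]
      exact ⟨_, F.zlf _ Z hZ⟩
    · rw [toC_lf]
      exact c_lf' F.zlf F.blc F.pol F.base.root (fun f Z Z' => uniqC F.base.fin F.base.unf f Z Z')
        (toC_ne h0) ⟨Z, hZ⟩ h

/-- all complex polynomials -/
theorem mainB_one {σ : Type} [Fintype σ] {f : MvPolynomial σ ℂ} (h0 : f ≠ 0)
    (hf : constantCoeff f = 0) :
    ∃ (N : ℕ) (H : Finset (Finset (Fin N))), H.Nonempty ∧ Cub H ∧ Sub3 H ∧ Mat3 H ∧ Bip H ∧
      (Q1C (hypC H) → Q1C f) := by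
  by_cases hE : ∃ Z, IsZ f Z
  · obtain ⟨Z, hZ⟩ := hE
    obtain ⟨f₀, a1, a2, a3⟩ := c_spec F.base.zsp F.base.bsp F.base.nul F.base.bid h0 hf hZ
    obtain ⟨τ, _, G, b1, b2, b3⟩ := c_norm F.base.zsp F.base.bsp F.base.nul F.base.nrm F.base.zis
      F.base.bis F.base.zpi F.base.bpi F.base.zsc F.base.bsc a1 a2
    obtain ⟨N, H, d1, d2, d3, d4, d5, -, d6, -⟩ := mainB_int F b1 b2
    refine ⟨N, H, d1, d2, d3, d4, d5, fun h => ?_⟩
    intro Z' hZ' s₀ hs₀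
    have hZZ : Z' = Z := uniqC F.base.fin F.base.unf f Z' Z hZ' hZ
    rw [hZZ] at hs₀
    exact a3 (b3 (d6 h)) s₀ hs₀
  · refine ⟨2, {Finset.univ}, Finset.singleton_nonempty _, ?_, ?_, ?_, ?_,
      fun _ Z hZ => absurd ⟨Z, hZ⟩ hE⟩
    · intro e he
      rw [Finset.mem_singleton.1 he]
      left
      simp
    · exact sub3_of_card (by rw [Finset.card_singleton]; norm_num)
    · intro a ha b hb _ _ hab
      exact absurd ((Finset.mem_singleton.1 ha).trans (Finset.mem_singleton.1 hb).symm) hab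
    · refine ⟨fun i => decide (i = 0), fun e he => ?_⟩
      rw [Finset.mem_singleton.1 he]
      decide

/-- The main theorem. -/
theorem mainB :
    ((∀ (n : ℕ) (f : MvPolynomial (Fin n) ℂ), f ≠ 0 → constantCoeff f = 0 → Q1C f) ↔
      ∀ (N : ℕ) (H : Finset (Finset (Fin N))), H.Nonempty → Cub H → Sub3 H → Mat3 H → Bip H →
        Q1C (hypC H)) ∧
    (∀ (n : ℕ) (f : MvPolynomial (Fin n) ℂ), f ≠ 0 → constantCoeff f = 0 →
      ∃ (N : ℕ) (H : Finset (Finset (Fin N))), H.Nonempty ∧ Cub H ∧ Sub3 H ∧ Mat3 H ∧ Bip H ∧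
        (Q1C (hypC H) → Q1C f)) ∧
    (∀ (n : ℕ) (f : MvPolynomial (Fin n) ℤ), f ≠ 0 → constantCoeff f = 0 →
      ∃ (N : ℕ) (H : Finset (Finset (Fin N))), H.Nonempty ∧ Cub H ∧ Sub3 H ∧ Mat3 H ∧ Bip H ∧
        Red (lf f) (hyp H) ∧ (Q1C (hypC H) → Q1C (toC f)) ∧
        ((∃ Z, IsZ (toC f) Z) → Q1C (toC f) → Q1C (hypC H))) ∧
    (∀ (n : ℕ) (f : MvPolynomial (Fin n) ℤ), f ≠ 0 → Sing f →
      ∃ (N : ℕ) (H : Finset (Finset (Fin N))), H.Nonempty ∧ Cub H ∧ Sub3 H ∧ Mat3 H ∧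
        Red f (hyp H) ∧ (Q1C (hypC H) → Q1C (toC f)) ∧
        ((∃ Z, IsZ (toC f) Z) → Q1C (toC f) → Q1C (hypC H))) ∧
    (∀ (n : ℕ) (f : MvPolynomial (Fin n) ℂ) (Z Z' : RatFunc ℂ), IsZ f Z → IsZ f Z' →
      Z = Z') := by
  refine ⟨⟨fun h N H hN hC _ _ _ => ?_, fun h n f h0 hf => ?_⟩,
    fun n f h0 hf => mainB_one F h0 hf, fun n f h0 hf => mainB_int F h0 hf,
    fun n f h0 hf => main_int F.base h0 hf, fun n f => uniqC F.base.fin F.base.unf f⟩
  · rw [← toC_hyp]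
    exact h N _ (toC_ne (hyp_ne hN)) (toC_cc (sing_cc (sing_hyp hC)))
  · obtain ⟨N, H, h1, h2, h3, h4, h5, h6⟩ := mainB_one F h0 hf
    exact h6 (h N H h1 h2 h3 h4 h5)

end Pool.Agent.Helper74.HG
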