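import Pool.Agent.Helper74.HG.Last
import Pool.Agent.Helper74.HG.FinB
import Pool.Agent.Helper91.HG.LIB
import Pool.Agent.Helper36.HG.WDB
import Pool.Agent.Helper34.HG.MATB
import Pool.Agent.Helper59.HG.ZLF
import Pool.Agent.Helper13.HG.BLF
import Pool.Agent.Helper46.HG.BLC
import Pool.Agent.Helper26.HG.POL

/-!
# Project HG, part 4: the facts for bipartite hypergraphs, apart from `DEGB`
-/

namespace Pool.Agent.Helper74.HG

theorem a_lib : LIB := Pool.Agent.Helper91.HG.LIB.t
theorem a_wdb : WDB := Pool.Agent.Helper36.HG.WDB.t a_tra a_ste a_iso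
theorem a_matb : MATB := Pool.Agent.Helper34.HG.MATB.t a_tra a_ste a_iso
theorem a_zlf : ZLF := Pool.Agent.Helper59.HG.ZLF.t a_zpr a_zis
theorem a_blf : BLF := Pool.Agent.Helper13.HG.BLF.t
theorem a_blc : BLC := Pool.Agent.Helper46.HG.BLC.t
theorem a_pol : POL := Pool.Agent.Helper26.HG.POL.t

/-- all the facts -/
theorem factsB' (hd : DEGB) : FactsB where
  base := facts
  lib := a_lib
  wdb := a_wdb
  degb := hd
  matb := a_matb
  zlf := a_zlf
  blf := a_blf
  blc := a_blc
  pol := a_pol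

end Pool.Agent.Helper74.HG
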