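import Pool.Agent.Helper74.HG.Last

/-!
# Project HG (MP_aa7fc1_ag): the definitions are not vacuous

* the zeta function of `0` is `0`, the zeta function of `w l` is `1 / (s+1)^2`, and
  `IsZ f Z` implies `IsZ (f + w l) (stabZ Z)`;
* `s + 1` is a Bernstein-Sato polynomial of a coordinate.
-/

set_option autoImplicit false

namespace Pool.Agent.Helper74.HG

open MvPolynomial

theorem isZ_zero (σ : Type) [Fintype σ] : IsZ (0 : MvPolynomial σ ℂ) 0 := by
  refine ⟨∅, 0, [], map_zero _, fun S hS => absurd hS (List.not_mem_nil), fun K _ _ ψ => ?_, ?_⟩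
  · refine ⟨[], rfl, fun T hT => absurd hT (List.not_mem_nil), fun E _ _ _ m => ?_⟩
    have h : cntK E (map (algebraMap K E) (map ψ (0 : MvPolynomial σ (Rg ∅)))) m = 0 := by
      unfold cntK
      rw [map_zero, map_zero]
      have : JetK E (0 : MvPolynomial σ E) m = ∅ := by
        ext x
        simp [JetK]
      rw [this, Set.ncard_empty]
    rw [h]
    simp
  · simp

theorem stabZ_zero : stabZ 0 = ((RatFunc.X + 1) ^ 2)⁻¹ := by
  simp [stabZ]

/-- the zeta function of `w l` is `1 / (s+1)^2` -/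
theorem isZ_wl : IsZ (stabC (0 : MvPolynomial Empty ℂ)) ((RatFunc.X + 1) ^ 2)⁻¹ := by
  rw [← stabZ_zero]
  exact a_se2 0 (map_zero _) 0 (isZ_zero Empty)

/-- `s + 1` is a Bernstein-Sato polynomial of a coordinate -/
theorem isBk_X {σ : Type} (i : σ) : IsBk ℂ (X i : MvPolynomial σ ℂ) (Polynomial.X + 1) := by
  refine ⟨fun _ : ℂ => ((pderiv i : Derivation ℂ (MvPolynomial σ ℂ) (MvPolynomial σ ℂ)) :
          MvPolynomial σ ℂ →ₗ[ℂ] MvPolynomial σ ℂ),
    Algebra.subset_adjoin (Or.inl (Or.inr ⟨i, rfl⟩)), 1, by simp, fun N => ?_⟩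
  show pderiv i ((X i : MvPolynomial σ ℂ) ^ (N + 1)) = _
  rw [Derivation.leibniz_pow, pderiv_X_self]
  simp only [Nat.add_sub_cancel, smul_eq_mul, mul_one, nsmul_eq_mul, Nat.cast_add, Nat.cast_one,
    Polynomial.eval_add, Polynomial.eval_X, Polynomial.eval_one, map_add, map_natCast, map_one]

end Pool.Agent.Helper74.HG
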