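import Mathlib

/-!
# Project HG (MP_aa7fc1_ag): the monodromy conjecture and hypergraph cubics

Definitions.  All objects are elementary:

* `cnt K f m` is the number of arcs of order `m` of the polynomial `f` over the finite field `K`,
  `IsTopZeta f Z` says that `Z` is the local topological zeta function of `f` at the origin
  (Denef-Loeser: the value at `q = 1` of the local zeta functions over the finite fields);
* `DS`, `IsB f b`: the polynomials `b` with a functional equation `P(s) f^(s+1) = h b(s) f^s`,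
  `h(0) ≠ 0`, so the multiples of the local Bernstein-Sato polynomial of `f` at the origin; its roots
  `α` give the eigenvalues `exp (2 π i α)` of the monodromy of `f` near the origin
  (Malgrange, Kashiwara);
* `Q1 f`: the conclusion of Q1 for `f`.
* `hyp H`: the hypergraph polynomial; `Red`: stable equivalence.
-/

namespace Pool.Agent.Helper74.HG

open MvPolynomial

/-! ### Arcs -/

/-- The ring `K[t] / (t^(m+1))`. -/
abbrev Tr (K : Type) [Field K] (m : ℕ) : Type :=
  Polynomial K ⧸ Ideal.span {(Polynomial.X : Polynomial K) ^ (m + 1)}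

/-- The class of `t`. -/
noncomputable def tt (K : Type) [Field K] (m : ℕ) : Tr K m :=
  Ideal.Quotient.mk _ Polynomial.X

/-- The arcs at the origin: all coordinates are divisible by `t`. -/
def Arc (K : Type) [Field K] (σ : Type) (m : ℕ) : Set (σ → Tr K m) :=
  {x | ∀ i, x i ∈ Ideal.span {tt K m}}

/-- The arcs modulo `t^(m+1)` at the origin on which `f` has order exactly `m`. -/
def Jet (K : Type) [Field K] {σ : Type} (f : MvPolynomial σ ℤ) (m : ℕ) : Set (σ → Tr K m) :=
  {x | x ∈ Arc K σ m ∧ tt K m * aeval x f = 0 ∧ aeval x f ≠ 0}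

/-- The number of arcs modulo `t^(m+1)` at the origin on which `f` has order exactly `m`. -/
noncomputable def cnt (K : Type) [Field K] {σ : Type} (f : MvPolynomial σ ℤ) (m : ℕ) : ℕ :=
  (Jet K f m).ncard

/-! ### The topological zeta function -/

/-- The power series `(q - 1) ∑_{j ≥ 1} q^(- ν j) T^(N j)`, `d = (N, ν)`. -/
noncomputable def fac (q : ℂ) (d : ℕ × ℕ) : PowerSeries ℂ :=
  PowerSeries.mk fun k => if k ≠ 0 ∧ d.1 ∣ k then (q - 1) * (q ^ (d.2 * (k / d.1)))⁻¹ else 0

/-- `c(e) = ∑ m_i a_i^e` for all `e ≥ 1`, with integers `m_i` and nonzero complex numbers `a_i`, and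
`v = ∑ m_i` is the value at `e = 0`. -/
def ExpVal (c : ℕ → ℂ) (v : ℤ) : Prop :=
  ∃ (r : ℕ) (m : Fin r → ℤ) (a : Fin r → ℂ), (∀ i, a i ≠ 0) ∧
    (∀ e, 1 ≤ e → c e = ∑ i, (m i : ℂ) * a i ^ e) ∧ v = ∑ i, m i

/-- A stratum of a resolution: `c p e` is its number of points over the field with `p^e` elements,
`chi` its Euler characteristic, `data` the numerical data `(N_i, ν_i)` of the components through
it. -/
structure Stratum where
  c : ℕ → ℕ → ℂ
  chi : ℤ
  data : List (ℕ × ℕ)

/-- `c ∏ (q - 1) q^(-ν) T^N / (1 - q^(-ν) T^N)`, `q = p^e`. -/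
noncomputable def Stratum.ser (S : Stratum) (p e : ℕ) : PowerSeries ℂ :=
  PowerSeries.C (S.c p e) * (S.data.map (fac ((p : ℂ) ^ e))).prod

/-- `χ ∏ 1 / (N s + ν)`. -/
noncomputable def Stratum.rat (S : Stratum) : RatFunc ℂ :=
  (S.chi : RatFunc ℂ) *
    (S.data.map fun d => ((d.1 : RatFunc ℂ) * RatFunc.X + (d.2 : RatFunc ℂ))⁻¹).prod

/-- `Z` is the local topological zeta function of `f` at the origin: there is a finite list of
strata with positive numerical data such that for all large primes `p` and all `q = p^e`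
`∑_m (cnt f m / q^(n m)) T^m = ∑_S c_S(q) ∏ (q - 1) q^(-ν) T^N / (1 - q^(-ν) T^N)`, the `c_S` are
exponential sums with value `chi S` at `e = 0`, and `Z = ∑_S chi S ∏ 1 / (N s + ν)`. -/
def IsTopZeta {σ : Type} [Fintype σ] (f : MvPolynomial σ ℤ) (Z : RatFunc ℂ) : Prop :=
  ∃ (L : List Stratum) (p₀ : ℕ), (∀ S ∈ L, ∀ d ∈ S.data, 0 < d.1 ∧ 0 < d.2) ∧
    (∀ (p : ℕ) [Fact p.Prime], p₀ ≤ p →
      (∀ S ∈ L, ExpVal (S.c p) S.chi) ∧
      ∀ e m : ℕ, 1 ≤ e →
        (cnt (GaloisField p e) f m : ℂ) / ((p : ℂ) ^ e) ^ (Fintype.card σ * m) =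
          PowerSeries.coeff m (L.map fun S => S.ser p e).sum) ∧
    Z = (L.map Stratum.rat).sum

/-! ### The Bernstein-Sato polynomial -/

/-- The ring `D[s]`, `D` the ring of differential operators with polynomial coefficients, as a ring
of functions of `s` with values in the operators on `ℂ[x]`. -/
noncomputable def DS (σ : Type) : Subalgebra ℂ (ℂ → Module.End ℂ (MvPolynomial σ ℂ)) :=
  Algebra.adjoin ℂ
    (Set.range (fun i : σ => fun _ : ℂ => LinearMap.mulLeft ℂ (X i : MvPolynomial σ ℂ)) ∪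
      Set.range (fun i : σ => fun _ : ℂ =>
        ((pderiv i : Derivation ℂ (MvPolynomial σ ℂ) (MvPolynomial σ ℂ)) :
          MvPolynomial σ ℂ →ₗ[ℂ] MvPolynomial σ ℂ)) ∪
      {fun s : ℂ => s • (1 : Module.End ℂ (MvPolynomial σ ℂ))})

/-- `b` is a multiple of the local Bernstein-Sato polynomial of `f` at the origin: there are
`P ∈ D[s]` and `h` with `h(0) ≠ 0` and `P(s) f^(s+1) = h b(s) f^s` (for all natural numbers `s`,
which is the same as the identity with a symbol `s`). -/
def IsB {σ : Type} (f : MvPolynomial σ ℂ) (b : Polynomial ℂ) : Prop :=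
  ∃ P ∈ DS σ, ∃ h : MvPolynomial σ ℂ, constantCoeff h ≠ 0 ∧
    ∀ N : ℕ, P (N : ℂ) (f ^ (N + 1)) = C (b.eval (N : ℂ)) * h * f ^ N

/-- The polynomial over `ℂ`. -/
noncomputable def toC {σ : Type} (f : MvPolynomial σ ℤ) : MvPolynomial σ ℂ :=
  map (Int.castRingHom ℂ) f

/-- `exp (2 π i s₀)` is an eigenvalue of the monodromy of `f` near the origin: `s₀ + k` is a root of
the local Bernstein-Sato polynomial for some integer `k`. -/
def Eig {σ : Type} (f : MvPolynomial σ ℤ) (s₀ : ℂ) : Prop :=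
  ∃ k : ℤ, ∀ b : Polynomial ℂ, IsB (toC f) b → b.eval (s₀ + k) = 0

/-- The conclusion of Q1 for `f`. -/
def Q1 {σ : Type} [Fintype σ] (f : MvPolynomial σ ℤ) : Prop :=
  ∀ Z : RatFunc ℂ, IsTopZeta f Z → ∀ s₀ : ℂ, Z.denom.IsRoot s₀ → Eig f s₀

/-! ### Hypergraph polynomials and stable equivalence -/

/-- The polynomial of a hypergraph: the sum over the edges of the product of their vertices. -/
noncomputable def hyp {σ : Type} (H : Finset (Finset σ)) : MvPolynomial σ ℤ :=
  ∑ e ∈ H, ∏ i ∈ e, X i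

/-- `f` has no constant and no linear term. -/
def Sing {σ : Type} (f : MvPolynomial σ ℤ) : Prop :=
  ∀ u ∈ f.support, 2 ≤ u.degree

/-- `f + ∑ w_j l_j`. -/
noncomputable def stabS {σ : Type} (ι : Type) [Fintype ι] (f : MvPolynomial σ ℤ) :
    MvPolynomial (σ ⊕ (ι ⊕ ι)) ℤ :=
  rename Sum.inl f + ∑ j : ι, X (Sum.inr (Sum.inl j)) * X (Sum.inr (Sum.inr j))

/-- An isomorphism of polynomial rings which preserves the origin. -/
def Pres {σ τ : Type} (φ : MvPolynomial σ ℤ ≃ₐ[ℤ] MvPolynomial τ ℤ) : Prop :=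
  ∀ i, constantCoeff (φ (X i)) = 0

/-- `f + ∑ w_j l_j` and `g` are related by an isomorphism which preserves the origin. -/
def Red {σ τ : Type} (f : MvPolynomial σ ℤ) (g : MvPolynomial τ ℤ) : Prop :=
  ∃ (k : ℕ) (φ : MvPolynomial (σ ⊕ (Fin k ⊕ Fin k)) ℤ ≃ₐ[ℤ] MvPolynomial τ ℤ), Pres φ ∧
    φ (stabS (Fin k) f) = g

/-- `f + w l`, one step (`w = X none`, `l = X (some none)`). -/
noncomputable def stab1 {σ : Type} (f : MvPolynomial σ ℤ) : MvPolynomial (Option (Option σ)) ℤ :=
  rename (fun i => some (some i)) f + X none * X (some none)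

/-- `Z(s) ↦ Z(s + 1)`. -/
noncomputable def shR : RatFunc ℂ →+* RatFunc ℂ :=
  RatFunc.mapRingHom (Polynomial.compRingHom (Polynomial.X + 1 : Polynomial ℂ)) (by
    intro p hp
    have h0 : p ≠ 0 := nonZeroDivisors.ne_zero hp
    refine Submonoid.mem_comap.2 (mem_nonZeroDivisors_of_ne_zero ?_)
    rw [Polynomial.coe_compRingHom_apply]
    intro h
    rw [show (Polynomial.X + 1 : Polynomial ℂ) = Polynomial.X + Polynomial.C 1 by simp] at h
    exact h0 (Polynomial.comp_X_add_C_eq_zero_iff.1 h))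

/-- The zeta function of `f + w l`: `1/(s+1)^2 + (1 - 1/(s+1)^2) Z(s+1)`. -/
noncomputable def stabZ (Z : RatFunc ℂ) : RatFunc ℂ :=
  ((RatFunc.X + 1) ^ 2)⁻¹ + (1 - ((RatFunc.X + 1) ^ 2)⁻¹) * shR Z

/-- A signed word: `ε X_{i_1} X_{i_2} ...`. -/
noncomputable def wp {σ : Type} (p : ℤ × List σ) : MvPolynomial σ ℤ :=
  C p.1 * (p.2.map X).prod

/-- All edges have two or three vertices. -/
def Cub {σ : Type} (H : Finset (Finset σ)) : Prop := ∀ e ∈ H, e.card = 2 ∨ e.card = 3

/-- The arcs modulo `t^(m+1)` at the origin on which `f` has order exactly `k`, `k ≤ m`. -/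
def JetO (K : Type) [Field K] {σ : Type} (f : MvPolynomial σ ℤ) (m k : ℕ) : Set (σ → Tr K m) :=
  {x | x ∈ Arc K σ m ∧ tt K m ^ (m - k + 1) * aeval x f = 0 ∧ tt K m ^ (m - k) * aeval x f ≠ 0}

end Pool.Agent.Helper74.HG
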