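import Pool.Agent.Helper74.HG.Defs

/-!
# Project HG, part 2: complex coefficients

* `IsZ f Z`: `Z` is the local topological zeta function of the complex polynomial `f` at the origin:
  there are a finitely generated ring `A = Rg s ⊂ ℂ` which contains the coefficients of `f`, and a
  list of strata `(χ, (N_i, ν_i)_i)`, such that for every homomorphism `ψ` of `A` to a finite field
  `K` the zeta functions of `ψ f` over all finite extensions of `K` are given by the list (`Form`).
* `IsBk k f b`: `b ∈ ℚ[s]` is a multiple of the local Bernstein-Sato polynomial at the origin.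
* `Q1C f`: the conclusion of Q1 for the complex polynomial `f`.
-/

namespace Pool.Agent.Helper74.HG

open MvPolynomial

/-- The arcs modulo `t^(m+1)` at the origin on which `f` has order exactly `m`. -/
def JetK (K : Type) [Field K] {σ : Type} (f : MvPolynomial σ K) (m : ℕ) : Set (σ → Tr K m) :=
  {x | x ∈ Arc K σ m ∧ tt K m * aeval x f = 0 ∧ aeval x f ≠ 0}

/-- The arcs modulo `t^(m+1)` at the origin on which `f` has order exactly `k`, `k ≤ m`. -/
def JetKO (K : Type) [Field K] {σ : Type} (f : MvPolynomial σ K) (m k : ℕ) : Set (σ → Tr K m) :=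
  {x | x ∈ Arc K σ m ∧ tt K m ^ (m - k + 1) * aeval x f = 0 ∧ tt K m ^ (m - k) * aeval x f ≠ 0}

/-- The number of arcs modulo `t^(m+1)` at the origin on which `f` has order exactly `m`. -/
noncomputable def cntK (K : Type) [Field K] {σ : Type} (f : MvPolynomial σ K) (m : ℕ) : ℕ :=
  (JetK K f m).ncard

/-- An Euler characteristic and numerical data `(N_i, ν_i)`. -/
abbrev Str : Type := ℤ × List (ℕ × ℕ)

/-- `χ ∏ 1 / (N_i s + ν_i)`. -/
noncomputable def ratS (S : Str) : RatFunc ℂ :=
  (S.1 : RatFunc ℂ) *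
    (S.2.map fun d => ((d.1 : RatFunc ℂ) * RatFunc.X + (d.2 : RatFunc ℂ))⁻¹).prod

/-- All numerical data are positive. -/
def PosD (L : List Str) : Prop := ∀ S ∈ L, ∀ d ∈ S.2, 0 < d.1 ∧ 0 < d.2

/-- The zeta functions of `f` over all finite extensions `E` of the finite field `K` are given by
the list `L`: there are exponential sums `c` with the values `χ` at `e = 0`, such that for `q = |E|`,
`e = [E : K]`: `∑_m (cnt f m / q^(n m)) T^m = ∑ c(e) ∏ (q - 1) q^(-ν) T^N / (1 - q^(-ν) T^N)`. -/
def Form (K : Type) [Field K] {σ : Type} [Fintype σ] (f : MvPolynomial σ K) (L : List Str) :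
    Prop :=
  ∃ M : List ((ℕ → ℂ) × Str), M.map Prod.snd = L ∧ (∀ T ∈ M, ExpVal T.1 T.2.1) ∧
    ∀ (E : Type) [Field E] [Finite E] [Algebra K E] (m : ℕ),
      (cntK E (map (algebraMap K E) f) m : ℂ) / (Nat.card E : ℂ) ^ (Fintype.card σ * m) =
        PowerSeries.coeff m (M.map fun T =>
          PowerSeries.C (T.1 (Module.finrank K E)) * (T.2.2.map (fac (Nat.card E))).prod).sum

/-- The subring of `ℂ` generated by a finite set. -/
abbrev Rg (s : Finset ℂ) : Subring ℂ := Subring.closure (s : Set ℂ)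

/-- `Z` is the local topological zeta function of `f` at the origin. -/
def IsZ {σ : Type} [Fintype σ] (f : MvPolynomial σ ℂ) (Z : RatFunc ℂ) : Prop :=
  ∃ (s : Finset ℂ) (g : MvPolynomial σ (Rg s)) (L : List Str), map (Rg s).subtype g = f ∧
    PosD L ∧ (∀ (K : Type) [Field K] [Finite K] (ψ : Rg s →+* K), Form K (map ψ g) L) ∧
    Z = (L.map ratS).sum

/-- The ring `D[s]` over the field `k`. -/
noncomputable def DSk (k : Type) [Field k] (σ : Type) :
    Subalgebra k (k → Module.End k (MvPolynomial σ k)) :=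
  Algebra.adjoin k
    (Set.range (fun i : σ => fun _ : k => LinearMap.mulLeft k (X i : MvPolynomial σ k)) ∪
      Set.range (fun i : σ => fun _ : k =>
        ((pderiv i : Derivation k (MvPolynomial σ k) (MvPolynomial σ k)) :
          MvPolynomial σ k →ₗ[k] MvPolynomial σ k)) ∪
      {fun s : k => s • (1 : Module.End k (MvPolynomial σ k))})

/-- `b ∈ ℚ[s]` is a multiple of the local Bernstein-Sato polynomial of `f` at the origin. -/
def IsBk (k : Type) [Field k] [CharZero k] {σ : Type} (f : MvPolynomial σ k)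
    (b : Polynomial ℚ) : Prop :=
  ∃ P ∈ DSk k σ, ∃ h : MvPolynomial σ k, constantCoeff h ≠ 0 ∧
    ∀ N : ℕ, P (N : k) (f ^ (N + 1)) = C (algebraMap ℚ k (b.eval (N : ℚ))) * h * f ^ N

/-- `exp (2 π i s₀)` is an eigenvalue of the monodromy of `f` near the origin. -/
def EigC {σ : Type} (f : MvPolynomial σ ℂ) (s₀ : ℂ) : Prop :=
  ∃ k : ℤ, ∀ b : Polynomial ℚ, IsBk ℂ f b → Polynomial.aeval (s₀ + k) b = 0

/-- The conclusion of Q1 for `f`. -/
def Q1C {σ : Type} [Fintype σ] (f : MvPolynomial σ ℂ) : Prop :=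
  ∀ Z : RatFunc ℂ, IsZ f Z → ∀ s₀ : ℂ, Z.denom.IsRoot s₀ → EigC f s₀

/-- The polynomial of a hypergraph. -/
noncomputable def hypC {σ : Type} (H : Finset (Finset σ)) : MvPolynomial σ ℂ :=
  ∑ e ∈ H, ∏ i ∈ e, X i

/-- An isomorphism of polynomial rings over `ℂ` which preserves the origin. -/
def PresC {σ τ : Type} (φ : MvPolynomial σ ℂ ≃ₐ[ℂ] MvPolynomial τ ℂ) : Prop :=
  ∀ i, constantCoeff (φ (X i)) = 0

/-- The field of algebraic numbers in `ℂ`. -/
abbrev Qc : Type := algebraicClosure ℚ ℂ

/-- The inclusion. -/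
noncomputable def inQ : Qc →+* ℂ := (algebraMap Qc ℂ)

/-- `DS` is `DSk` over `ℂ`. -/
theorem DS_eq (σ : Type) : DS σ = DSk ℂ σ := rfl

end Pool.Agent.Helper74.HG
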