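import Pool.Agent.Helper74.HG.DefsC
import Pool.Agent.Helper74.HG.GoalsD

/-!
# Project HG, part 3: the global and the `p`-adic versions

Definitions.

* `cntG K f m` is the number of arcs modulo `t^(m+1)` (at arbitrary points) on which `f` has order
  exactly `m`; `IsZG f Z`: `Z` is the global topological zeta function of the complex polynomial
  `f` (as `IsZ`, with `cntG` instead of `cntK`; the value at `q = 1` of `q^n ∫ |f|^s` over all arcs);
* `IsG f b`, `IsBG k f b`: `b` is a multiple of the global Bernstein-Sato polynomial,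
  `P(s) f^(s+1) = b(s) f^s` with `P` in the Weyl algebra with `s` adjoined;
* `SG f`, `WG f`: the conclusions of the strong and of the weak global monodromy conjecture;
* `SL f`: the conclusion of the strong local conjecture;
* `sol f p m`: the number of solutions of `f = 0` modulo `p^m`; `poin f p`: Igusa's Poincare series,
  `igu f p`: Igusa's zeta function; `QP f p`, `QM f p`: the conclusions of the `p`-adic conjectures;
* `Rk3 H`, `RedG f g`: hypergraphs and stable equivalence.
-/

namespace Pool.Agent.Helper74.HG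

open MvPolynomial

/-! ### The global topological zeta function -/

/-- The arcs modulo `t^(m+1)` on which `f` has order exactly `m`. -/
def JetG (K : Type) [Field K] {σ : Type} (f : MvPolynomial σ K) (m : ℕ) : Set (σ → Tr K m) :=
  {x | tt K m * aeval x f = 0 ∧ aeval x f ≠ 0}

/-- The arcs modulo `t^(m+1)` on which `f` has order exactly `k`, `k ≤ m`. -/
def JetGO (K : Type) [Field K] {σ : Type} (f : MvPolynomial σ K) (m k : ℕ) : Set (σ → Tr K m) :=
  {x | tt K m ^ (m - k + 1) * aeval x f = 0 ∧ tt K m ^ (m - k) * aeval x f ≠ 0}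

/-- The number of arcs modulo `t^(m+1)` on which `f` has order exactly `m`. -/
noncomputable def cntG (K : Type) [Field K] {σ : Type} (f : MvPolynomial σ K) (m : ℕ) : ℕ :=
  (JetG K f m).ncard

/-- The zeta functions of `f` over all finite extensions `E` of the finite field `K` are given by
the list `L`: there are exponential sums `c` with the values `χ` at `e = 0`, such that for `q = |E|`,
`e = [E : K]`: `∑_m (cntG f m / q^(n m)) T^m = ∑ c(e) ∏ (q - 1) q^(-ν) T^N / (1 - q^(-ν) T^N)`. -/
def FormG (K : Type) [Field K] {σ : Type} [Fintype σ] (f : MvPolynomial σ K) (L : List Str) :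
    Prop :=
  ∃ M : List ((ℕ → ℂ) × Str), M.map Prod.snd = L ∧ (∀ T ∈ M, ExpVal T.1 T.2.1) ∧
    ∀ (E : Type) [Field E] [Finite E] [Algebra K E] (m : ℕ),
      (cntG E (map (algebraMap K E) f) m : ℂ) / (Nat.card E : ℂ) ^ (Fintype.card σ * m) =
        PowerSeries.coeff m (M.map fun T =>
          PowerSeries.C (T.1 (Module.finrank K E)) * (T.2.2.map (fac (Nat.card E))).prod).sum

/-- `Z` is the global topological zeta function of `f`. -/
def IsZG {σ : Type} [Fintype σ] (f : MvPolynomial σ ℂ) (Z : RatFunc ℂ) : Prop :=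
  ∃ (s : Finset ℂ) (g : MvPolynomial σ (Rg s)) (L : List Str), map (Rg s).subtype g = f ∧
    PosD L ∧ (∀ (K : Type) [Field K] [Finite K] (ψ : Rg s →+* K), FormG K (map ψ g) L) ∧
    Z = (L.map ratS).sum

/-! ### The global Bernstein-Sato polynomial -/

/-- `b ∈ ℂ[s]` is a multiple of the global Bernstein-Sato polynomial of `f`: there is `P ∈ D[s]` with
`P(s) f^(s+1) = b(s) f^s` (for all natural numbers `s`, which is the same as the identity with a
symbol `s`). -/
def IsG {σ : Type} (f : MvPolynomial σ ℂ) (b : Polynomial ℂ) : Prop :=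
  ∃ P ∈ DS σ, ∀ N : ℕ, P (N : ℂ) (f ^ (N + 1)) = C (b.eval (N : ℂ)) * f ^ N

/-- `b ∈ ℚ[s]` is a multiple of the global Bernstein-Sato polynomial of `f`. -/
def IsBG (k : Type) [Field k] [CharZero k] {σ : Type} (f : MvPolynomial σ k)
    (b : Polynomial ℚ) : Prop :=
  ∃ P ∈ DSk k σ, ∀ N : ℕ, P (N : k) (f ^ (N + 1)) = C (algebraMap ℚ k (b.eval (N : ℚ))) * f ^ N

/-! ### The conclusions -/

/-- The conclusion of the strong global conjecture: every pole of the global topological zeta
function is a root of the global Bernstein-Sato polynomial. -/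
def SG {σ : Type} [Fintype σ] (f : MvPolynomial σ ℂ) : Prop :=
  ∀ Z : RatFunc ℂ, IsZG f Z → ∀ s₀ : ℂ, Z.denom.IsRoot s₀ →
    ∀ b : Polynomial ℚ, IsBG ℂ f b → Polynomial.aeval s₀ b = 0

/-- `exp (2 π i s₀)` is a monodromy eigenvalue of `f`: `s₀ + k` is a root of the global
Bernstein-Sato polynomial for some integer `k`. -/
def EigG {σ : Type} (f : MvPolynomial σ ℂ) (s₀ : ℂ) : Prop :=
  ∃ k : ℤ, ∀ b : Polynomial ℚ, IsBG ℂ f b → Polynomial.aeval (s₀ + k) b = 0

/-- The conclusion of the weak global conjecture. -/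
def WG {σ : Type} [Fintype σ] (f : MvPolynomial σ ℂ) : Prop :=
  ∀ Z : RatFunc ℂ, IsZG f Z → ∀ s₀ : ℂ, Z.denom.IsRoot s₀ → EigG f s₀

/-- The conclusion of the strong local conjecture: every pole of the local topological zeta
function at the origin is a root of the local Bernstein-Sato polynomial at the origin. -/
def SL {σ : Type} [Fintype σ] (f : MvPolynomial σ ℂ) : Prop :=
  ∀ Z : RatFunc ℂ, IsZ f Z → ∀ s₀ : ℂ, Z.denom.IsRoot s₀ →
    ∀ b : Polynomial ℚ, IsBk ℂ f b → Polynomial.aeval s₀ b = 0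

/-! ### The `p`-adic zeta functions -/

/-- The number of solutions of `f = 0` modulo `p^m`. -/
noncomputable def sol {σ : Type} (f : MvPolynomial σ ℤ) (p m : ℕ) : ℕ :=
  {x : σ → ZMod (p ^ m) | aeval x f = 0}.ncard

/-- Igusa's Poincare series `∑_m sol(m) (p^(-n) T)^m`. -/
noncomputable def poin {σ : Type} [Fintype σ] (f : MvPolynomial σ ℤ) (p : ℕ) : PowerSeries ℂ :=
  PowerSeries.mk fun m => (sol f p m : ℂ) / (p : ℂ) ^ (Fintype.card σ * m)

/-- Igusa's zeta function `∫ |f|^s = ∑_m μ(ord f = m) T^m`, `T = p^(-s)`: the measure of the set of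
the `x ∈ ℤ_p^n` with `ord f(x) ≥ m` is `sol(m) p^(-n m)`. -/
noncomputable def igu {σ : Type} [Fintype σ] (f : MvPolynomial σ ℤ) (p : ℕ) : PowerSeries ℂ :=
  PowerSeries.mk fun m => (sol f p m : ℂ) / (p : ℂ) ^ (Fintype.card σ * m) -
    (sol f p (m + 1) : ℂ) / (p : ℂ) ^ (Fintype.card σ * (m + 1))

/-- The power series `S` is the expansion of a rational function `A / B` in lowest terms, and `T₀` is
a pole of order at least `m` of it. -/
def PoleO (S : PowerSeries ℂ) (T₀ : ℂ) (m : ℕ) : Prop :=
  ∃ A B : Polynomial ℂ, IsCoprime A B ∧ B ≠ 0 ∧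
    (B : PowerSeries ℂ) * S = (A : PowerSeries ℂ) ∧
    (Polynomial.X - Polynomial.C T₀) ^ m ∣ B

/-- The real part of `s₀`, `p^(-s₀) = T₀`. -/
noncomputable def reS (p : ℕ) (T₀ : ℂ) : ℝ := -(Real.log ‖T₀‖ / Real.log p)

/-- The conclusion for the Poincare series: for every pole `T₀ = p^(-s₀)` the real part of `s₀` is a
root of the Bernstein-Sato polynomial. -/
def QP {σ : Type} [Fintype σ] (f : MvPolynomial σ ℤ) (p : ℕ) : Prop :=
  ∀ T₀ : ℂ, PoleO (poin f p) T₀ 1 →
    ∀ b : Polynomial ℂ, IsG (toC f) b → b.eval ((reS p T₀ : ℝ) : ℂ) = 0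

/-- The conclusion for Igusa's zeta function, with multiplicities: if `T₀ = p^(-s₀)` is a pole of
order at least `m`, then the real part of `s₀` is a root of multiplicity at least `m` of the
Bernstein-Sato polynomial. -/
def QM {σ : Type} [Fintype σ] (f : MvPolynomial σ ℤ) (p : ℕ) : Prop :=
  ∀ (T₀ : ℂ) (m : ℕ), 1 ≤ m → PoleO (igu f p) T₀ m →
    ∀ b : Polynomial ℂ, IsG (toC f) b →
      (Polynomial.X - Polynomial.C ((reS p T₀ : ℝ) : ℂ)) ^ m ∣ b

/-! ### Hypergraphs and stable equivalence -/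

/-- All edges have one, two or three vertices. -/
def Rk3 {σ : Type} (H : Finset (Finset σ)) : Prop := ∀ e ∈ H, 1 ≤ e.card ∧ e.card ≤ 3

/-- `f + ∑ w_j l_j` and `g` are related by an automorphism over `ℤ` (which need not preserve the
origin). -/
def RedG {σ τ : Type} (f : MvPolynomial σ ℤ) (g : MvPolynomial τ ℤ) : Prop :=
  ∃ (k : ℕ) (φ : MvPolynomial (σ ⊕ (Fin k ⊕ Fin k)) ℤ ≃ₐ[ℤ] MvPolynomial τ ℤ),
    φ (stabS (Fin k) f) = g

end Pool.Agent.Helper74.HG
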