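import Pool.Agent.Helper74.HG.Goals

/-!
# Project HG: assembly
-/

namespace Pool.Agent.Helper74.HG

open MvPolynomial

variable {σ τ : Type}

theorem cc_pres {φ : MvPolynomial σ ℤ ≃ₐ[ℤ] MvPolynomial τ ℤ} (h : Pres φ)
    (p : MvPolynomial σ ℤ) : constantCoeff (φ p) = constantCoeff p := by
  have h1 : (constantCoeff (R := ℤ) (σ := τ)).comp (φ : MvPolynomial σ ℤ →+* MvPolynomial τ ℤ) =
      constantCoeff := by
    refine MvPolynomial.ringHom_ext (fun r => ?_) (fun i => ?_)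
    · simp only [RingHom.comp_apply, RingHom.coe_coe]
      have : φ (C r) = C r := φ.commutes r
      rw [this]; simp
    · simp only [RingHom.comp_apply, RingHom.coe_coe]
      rw [h i]; simp
  exact congrArg (fun g : MvPolynomial σ ℤ →+* ℤ => g p) h1

theorem pres_symm {φ : MvPolynomial σ ℤ ≃ₐ[ℤ] MvPolynomial τ ℤ} (h : Pres φ) :
    Pres φ.symm := by
  intro j
  rw [← cc_pres h, AlgEquiv.apply_symm_apply]
  simp

theorem pres_rename (e : σ ≃ τ) : Pres (renameEquiv ℤ e) := by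
  intro i
  simp

theorem toC_stab1 (f : MvPolynomial σ ℤ) : toC (stab1 f) = stabC (toC f) := by
  simp only [toC, stab1, stabC, map_add, map_mul, map_X]
  rw [map_rename]

theorem toC_ne {f : MvPolynomial σ ℤ} (h : f ≠ 0) : toC f ≠ 0 := by
  intro h0
  apply h
  apply map_injective (Int.castRingHom ℂ) Int.cast_injective
  rw [map_zero]
  exact h0

theorem toC_cc {f : MvPolynomial σ ℤ} (h : constantCoeff f = 0) : constantCoeff (toC f) = 0 := by
  rw [toC, constantCoeff_map, h]; simp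

theorem stab1_cc {f : MvPolynomial σ ℤ} (h : constantCoeff f = 0) :
    constantCoeff (stab1 f) = 0 := by
  simp [stab1, constantCoeff_rename, h]

theorem stab1_ne {f : MvPolynomial σ ℤ} (h : f ≠ 0) : stab1 f ≠ 0 := by
  intro h0
  apply h
  have h1 : aeval (fun o : Option (Option σ) => Option.elim o (0 : MvPolynomial σ ℤ)
      (fun o' => Option.elim o' 0 X)) (stab1 f) = f := by
    simp only [stab1, map_add, map_mul, aeval_X, aeval_rename, Option.elim_none, zero_mul,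
      add_zero]
    have : ((fun o : Option (Option σ) => Option.elim o (0 : MvPolynomial σ ℤ)
      (fun o' => Option.elim o' 0 X)) ∘ fun i => some (some i)) = X := by
      funext i; rfl
    rw [this, aeval_X_left]
    rfl
  rw [← h1, h0, map_zero]

/-- from `f + w l` to `f`: eigenvalues -/
theorem eig_down [Fintype σ] (hb : BST) {f : MvPolynomial σ ℤ} {s : ℂ} (hs : ∀ k : ℤ, s ≠ k)
    (h : Eig (stab1 f) (s - 1)) : Eig f s := by
  obtain ⟨k, hk⟩ := h
  refine ⟨k, fun b hbf => ?_⟩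
  have h1 := hb (toC f) b hbf
  rw [← toC_stab1] at h1
  have h2 := hk _ h1
  rw [Polynomial.eval_mul, Polynomial.eval_comp] at h2
  simp only [Polynomial.eval_add, Polynomial.eval_X, Polynomial.eval_one] at h2
  have e1 : s - 1 + (k : ℂ) + 1 = s + k := by ring
  rw [e1] at h2
  rcases mul_eq_zero.1 h2 with h3 | h3
  · exfalso
    apply hs (-k)
    push_cast
    linear_combination h3
  · exact h3

/-- from `f` to `f + w l`: eigenvalues -/
theorem eig_up [Fintype σ] (hc : CONV) {f : MvPolynomial σ ℤ} {s : ℂ} (hs : ∀ k : ℤ, s ≠ k)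
    (h : Eig f s) : Eig (stab1 f) (s - 1) := by
  obtain ⟨k, hk⟩ := h
  refine ⟨k, fun b hbf => ?_⟩
  rw [toC_stab1] at hbf
  obtain ⟨M, hM⟩ := hc (toC f) b hbf
  have h2 := hk _ hM
  rw [Polynomial.eval_mul, Polynomial.eval_comp] at h2
  simp only [Polynomial.eval_sub, Polynomial.eval_X, Polynomial.eval_one] at h2
  rcases mul_eq_zero.1 h2 with h3 | h3
  · exfalso
    rw [Polynomial.eval_prod, Finset.prod_eq_zero_iff] at h3
    obtain ⟨i, -, hi⟩ := h3
    simp only [Polynomial.eval_add, Polynomial.eval_X, Polynomial.eval_C] at hi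
    apply hs (-k - i - 1)
    push_cast
    linear_combination hi
  · rw [show s - 1 + (k : ℂ) = s + k - 1 by ring]
    exact h3

/-- integers -/
theorem eig_int [Fintype σ] (hr : ROOT) {f : MvPolynomial σ ℤ} (h0 : f ≠ 0)
    (hf : constantCoeff f = 0) (k : ℤ) : Eig f (k : ℂ) := by
  refine ⟨-1 - k, fun b hb => ?_⟩
  have := hr (toC f) b (toC_ne h0) (toC_cc hf) hb
  rw [show (k : ℂ) + ((-1 - k : ℤ) : ℂ) = -1 by push_cast; ring]
  exact this

theorem q1_stab [Fintype σ] (hs : SER) (hp : POLE) (hb : BST) (hr : ROOT)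
    {f : MvPolynomial σ ℤ} (h0 : f ≠ 0) (hf : constantCoeff f = 0) (h : Q1 (stab1 f)) : Q1 f := by
  intro Z hZ s hsr
  by_cases hi : ∀ k : ℤ, s ≠ k
  · have h1 := hs f hf Z hZ
    have h2 := h _ h1 (s - 1) ((hp Z s hi).1 hsr)
    exact eig_down hb hi h2
  · push Not at hi
    obtain ⟨k, rfl⟩ := hi
    exact eig_int hr h0 hf k

theorem q1_stab' [Fintype σ] (hs : SER) (hp : POLE) (hc : CONV) (hr : ROOT) (hu : UNIQ)
    {f : MvPolynomial σ ℤ} (h0 : f ≠ 0) (hf : constantCoeff f = 0) (hE : ∃ Z, IsTopZeta f Z)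
    (h : Q1 f) : Q1 (stab1 f) := by
  intro Z' hZ' s hsr
  by_cases hi : ∀ k : ℤ, s ≠ k
  · obtain ⟨Z, hZ⟩ := hE
    have h1 := hs f hf Z hZ
    have h2 := hu _ _ _ hZ' h1
    rw [h2] at hsr
    have hi' : ∀ k : ℤ, s + 1 ≠ k := fun k hk => hi (k - 1) (by
      push_cast; linear_combination hk)
    have h3 := h Z hZ (s + 1) ((hp Z (s + 1) hi').2 (by
      rw [add_sub_cancel_right]; exact hsr))
    have h4 := eig_up hc hi' h3
    rwa [add_sub_cancel_right] at h4
  · push Not at hi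
    obtain ⟨k, rfl⟩ := hi
    exact eig_int hr (stab1_ne h0) (stab1_cc hf) k

theorem q1_iso [Fintype σ] [Fintype τ] (hz : ZINV) (hd : DINV)
    {φ : MvPolynomial σ ℤ ≃ₐ[ℤ] MvPolynomial τ ℤ} (hφ : Pres φ) {f : MvPolynomial σ ℤ}
    (h : Q1 (φ f)) : Q1 f := by
  intro Z hZ s hs
  obtain ⟨k, hk⟩ := h Z (hz φ hφ f Z hZ) s hs
  exact ⟨k, fun b hb => hk b (hd φ hφ f b hb)⟩

theorem q1_iso' [Fintype σ] [Fintype τ] (hz : ZINV) (hd : DINV)
    {φ : MvPolynomial σ ℤ ≃ₐ[ℤ] MvPolynomial τ ℤ} (hφ : Pres φ) {f : MvPolynomial σ ℤ}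
    (h : Q1 f) : Q1 (φ f) := by
  apply q1_iso hz hd (pres_symm hφ)
  rwa [AlgEquiv.symm_apply_apply]

/-- the variables of `stabS (Fin (k + 1)) f` -/
def eqv (σ : Type) (k : ℕ) :
    σ ⊕ (Fin (k + 1) ⊕ Fin (k + 1)) ≃ Option (Option (σ ⊕ (Fin k ⊕ Fin k))) where
  toFun := fun x => match x with
    | Sum.inl i => some (some (Sum.inl i))
    | Sum.inr (Sum.inl j) => Fin.lastCases (motive := fun _ => Option (Option (σ ⊕ (Fin k ⊕ Fin k))))
        none (fun j' => some (some (Sum.inr (Sum.inl j')))) j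
    | Sum.inr (Sum.inr j) => Fin.lastCases (motive := fun _ => Option (Option (σ ⊕ (Fin k ⊕ Fin k))))
        (some none) (fun j' => some (some (Sum.inr (Sum.inr j')))) j
  invFun := fun y => match y with
    | none => Sum.inr (Sum.inl (Fin.last k))
    | some none => Sum.inr (Sum.inr (Fin.last k))
    | some (some (Sum.inl i)) => Sum.inl i
    | some (some (Sum.inr (Sum.inl j))) => Sum.inr (Sum.inl j.castSucc)
    | some (some (Sum.inr (Sum.inr j))) => Sum.inr (Sum.inr j.castSucc)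
  left_inv := by
    rintro (i | j | j)
    · rfl
    · induction j using Fin.lastCases <;> simp
    · induction j using Fin.lastCases <;> simp
  right_inv := by
    rintro (_ | _ | i | j | j) <;> simp

theorem eqv_stab (f : MvPolynomial σ ℤ) (k : ℕ) :
    renameEquiv ℤ (eqv σ k) (stabS (Fin (k + 1)) f) = stab1 (stabS (Fin k) f) := by
  simp only [renameEquiv_apply, stabS, stab1, map_add, map_sum, map_mul, rename_X,
    rename_rename, Fin.sum_univ_castSucc]
  rw [← add_assoc]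
  congr 1
  · congr 1
    refine Finset.sum_congr rfl fun j _ => ?_
    simp [eqv]
  · simp [eqv]

/-- the variables of `stabS (Fin 0) f` -/
def eqv0 (σ : Type) : σ ⊕ (Fin 0 ⊕ Fin 0) ≃ σ where
  toFun := fun x => match x with
    | Sum.inl i => i
    | Sum.inr (Sum.inl j) => j.elim0
    | Sum.inr (Sum.inr j) => j.elim0
  invFun := Sum.inl
  left_inv := by
    rintro (i | j | j)
    · rfl
    · exact j.elim0
    · exact j.elim0
  right_inv := fun i => rfl

theorem eqv0_stab (f : MvPolynomial σ ℤ) :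
    renameEquiv ℤ (eqv0 σ) (stabS (Fin 0) f) = f := by
  simp only [renameEquiv_apply, stabS, Finset.univ_eq_empty,
    Finset.sum_empty, add_zero, rename_rename]
  have : (⇑(eqv0 σ) ∘ Sum.inl) = (id : σ → σ) := by funext i; rfl
  rw [this, rename_id]
  rfl

theorem stabS_facts {f : MvPolynomial σ ℤ} (h0 : f ≠ 0) (hf : constantCoeff f = 0) (k : ℕ) :
    stabS (Fin k) f ≠ 0 ∧ constantCoeff (stabS (Fin k) f) = 0 := by
  induction k with
  | zero =>
    constructor
    · intro h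
      apply h0
      rw [← eqv0_stab f, h, map_zero]
    · rw [← cc_pres (pres_rename (eqv0 σ)), eqv0_stab, hf]
  | succ k ih =>
    constructor
    · intro h
      apply stab1_ne ih.1
      rw [← eqv_stab, h, map_zero]
    · rw [← cc_pres (pres_rename (eqv σ k)), eqv_stab]
      exact stab1_cc ih.2

theorem q1_stabS [Fintype σ] (hz : ZINV) (hd : DINV) (hs : SER) (hp : POLE) (hb : BST)
    (hr : ROOT) {f : MvPolynomial σ ℤ} (h0 : f ≠ 0) (hf : constantCoeff f = 0) (k : ℕ)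
    (h : Q1 (stabS (Fin k) f)) : Q1 f := by
  induction k with
  | zero =>
    have h1 := q1_iso' hz hd (pres_rename (eqv0 σ)) h
    rwa [eqv0_stab] at h1
  | succ k ih =>
    apply ih
    have h1 := q1_iso' hz hd (pres_rename (eqv σ k)) h
    rw [eqv_stab] at h1
    exact q1_stab hs hp hb hr (stabS_facts h0 hf k).1 (stabS_facts h0 hf k).2 h1

theorem ex_stabS [Fintype σ] (hz : ZINV) (hs : SER) {f : MvPolynomial σ ℤ} (h0 : f ≠ 0)
    (hf : constantCoeff f = 0) (hE : ∃ Z, IsTopZeta f Z) (k : ℕ) :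
    ∃ Z, IsTopZeta (stabS (Fin k) f) Z := by
  induction k with
  | zero =>
    obtain ⟨Z, hZ⟩ := hE
    refine ⟨Z, ?_⟩
    have := hz (renameEquiv ℤ (eqv0 σ)).symm (pres_symm (pres_rename (eqv0 σ))) f Z hZ
    rwa [show (renameEquiv ℤ (eqv0 σ)).symm f = stabS (Fin 0) f from by
      rw [AlgEquiv.symm_apply_eq, eqv0_stab]] at this
  | succ k ih =>
    obtain ⟨Z, hZ⟩ := ih
    have h1 := hs _ (stabS_facts h0 hf k).2 Z hZ
    refine ⟨stabZ Z, ?_⟩
    have := hz (renameEquiv ℤ (eqv σ k)).symm (pres_symm (pres_rename (eqv σ k))) _ _ h1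
    rwa [show (renameEquiv ℤ (eqv σ k)).symm (stab1 (stabS (Fin k) f)) =
      stabS (Fin (k + 1)) f from by
      rw [AlgEquiv.symm_apply_eq, eqv_stab]] at this

theorem q1_stabS' [Fintype σ] (hz : ZINV) (hd : DINV) (hs : SER) (hp : POLE) (hc : CONV)
    (hr : ROOT) (hu : UNIQ) {f : MvPolynomial σ ℤ} (h0 : f ≠ 0) (hf : constantCoeff f = 0)
    (hE : ∃ Z, IsTopZeta f Z) (k : ℕ) (h : Q1 f) : Q1 (stabS (Fin k) f) := by
  induction k with
  | zero =>
    apply q1_iso hz hd (pres_rename (eqv0 σ))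
    rwa [eqv0_stab]
  | succ k ih =>
    apply q1_iso hz hd (pres_rename (eqv σ k))
    rw [eqv_stab]
    exact q1_stab' hs hp hc hr hu (stabS_facts h0 hf k).1 (stabS_facts h0 hf k).2
      (ex_stabS hz hs h0 hf hE k) ih

theorem q1_red [Fintype σ] [Fintype τ] (hz : ZINV) (hd : DINV) (hs : SER) (hp : POLE) (hb : BST)
    (hr : ROOT) {f : MvPolynomial σ ℤ} {g : MvPolynomial τ ℤ} (h0 : f ≠ 0)
    (hf : constantCoeff f = 0) (h : Red f g) (hg : Q1 g) : Q1 f := by
  obtain ⟨k, φ, hφ, rfl⟩ := h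
  exact q1_stabS hz hd hs hp hb hr h0 hf k (q1_iso hz hd hφ hg)

theorem q1_red' [Fintype σ] [Fintype τ] (hz : ZINV) (hd : DINV) (hs : SER) (hp : POLE)
    (hc : CONV) (hr : ROOT) (hu : UNIQ) {f : MvPolynomial σ ℤ} {g : MvPolynomial τ ℤ} (h0 : f ≠ 0)
    (hf : constantCoeff f = 0) (h : Red f g) (hE : ∃ Z, IsTopZeta f Z) (hg : Q1 f) : Q1 g := by
  obtain ⟨k, φ, hφ, rfl⟩ := h
  exact q1_iso' hz hd hφ (q1_stabS' hz hd hs hp hc hr hu h0 hf hE k hg)

theorem sing_cc {f : MvPolynomial σ ℤ} (h : Sing f) : constantCoeff f = 0 := by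
  by_contra h0
  have := h 0 (by rw [mem_support_iff]; exact h0)
  simp at this

theorem hyp_rename [DecidableEq τ] (e : σ ≃ τ) (H : Finset (Finset σ)) :
    renameEquiv ℤ e (hyp H) = hyp (H.map ⟨Finset.map e.toEmbedding, Finset.map_injective _⟩) := by
  simp [hyp, Finset.sum_map, Finset.prod_map, map_sum, map_prod]

theorem chain (htr : TRA) (his : ISO) (hwd : WD) (hli : LI) [Fintype σ]
    {f : MvPolynomial σ ℤ} (hf : Sing f) :
    ∃ (N : ℕ) (H : Finset (Finset (Fin N))), Cub H ∧ Red f (hyp H) := by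
  classical
  obtain ⟨L, hL, h1⟩ := hli f hf
  obtain ⟨τ, hτ, H', hC, hR⟩ := hwd σ ∅ L (fun e he => absurd he (Finset.notMem_empty e)) hL
  have h2 : hyp (∅ : Finset (Finset σ)) + (L.map wp).sum = f := by
    rw [h1]; simp [hyp]
  rw [h2] at hR
  let e := Fintype.equivFin τ
  refine ⟨Fintype.card τ, H'.map ⟨Finset.map e.toEmbedding, Finset.map_injective _⟩, ?_, ?_⟩
  · intro t ht
    obtain ⟨t', ht', rfl⟩ := Finset.mem_map.1 ht
    simpa using hC t' ht'
  · rw [← hyp_rename e]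
    exact htr _ _ _ hR (his _ (pres_rename e) _)

theorem sing_hyp {N : ℕ} {H : Finset (Finset (Fin N))} (hC : Cub H) : Sing (hyp H) := by
  classical
  intro u hu
  rw [hyp] at hu
  obtain ⟨e, he, h1⟩ := Finset.mem_biUnion.1 (support_sum hu)
  have h2 : (∏ i ∈ e, X i : MvPolynomial (Fin N) ℤ) =
      monomial (∑ i ∈ e, Finsupp.single i 1) 1 := by
    rw [monomial_sum_one]
    rfl
  rw [h2] at h1
  have h3 := Finset.mem_singleton.1 (support_monomial_subset h1)
  rw [h3, map_sum]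
  simp only [Finsupp.degree_single, Finset.sum_const, smul_eq_mul, mul_one]
  rcases hC e he with h | h <;> omega

theorem hyp_ne {N : ℕ} {H : Finset (Finset (Fin N))} (h : H.Nonempty) : hyp H ≠ 0 := by
  intro h0
  have h1 : eval (fun _ => (1 : ℤ)) (hyp H) = H.card := by
    simp [hyp, map_sum, map_prod]
  rw [h0, map_zero] at h1
  have := h.card_pos
  omega

/-- The main theorem, from the facts of the packets. -/
theorem main (htr : TRA) (his : ISO) (hwd : WD) (hli : LI) (hz : ZINV) (hd : DINV) (hs : SER)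
    (hp : POLE) (hb : BST) (hr : ROOT) (hc : CONV) (hu : UNIQ) :
    (∀ (n : ℕ) (f : MvPolynomial (Fin n) ℤ), f ≠ 0 → Sing f →
      ∃ (N : ℕ) (H : Finset (Finset (Fin N))), H.Nonempty ∧ Cub H ∧ Red f (hyp H) ∧
        (Q1 (hyp H) → Q1 f) ∧ ((∃ Z, IsTopZeta f Z) → Q1 f → Q1 (hyp H))) ∧
    ((∀ (n : ℕ) (f : MvPolynomial (Fin n) ℤ), f ≠ 0 → Sing f → Q1 f) ↔
      ∀ (N : ℕ) (H : Finset (Finset (Fin N))), H.Nonempty → Cub H → Q1 (hyp H)) := by
  have h1 : ∀ (n : ℕ) (f : MvPolynomial (Fin n) ℤ), f ≠ 0 → Sing f →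
      ∃ (N : ℕ) (H : Finset (Finset (Fin N))), H.Nonempty ∧ Cub H ∧ Red f (hyp H) ∧
        (Q1 (hyp H) → Q1 f) ∧ ((∃ Z, IsTopZeta f Z) → Q1 f → Q1 (hyp H)) := by
    intro n f h0 hf
    obtain ⟨N, H, hC, hR⟩ := chain htr his hwd hli hf
    refine ⟨N, H, ?_, hC, hR, q1_red hz hd hs hp hb hr h0 (sing_cc hf) hR,
      fun hE => q1_red' hz hd hs hp hc hr hu h0 (sing_cc hf) hR hE⟩
    rw [Finset.nonempty_iff_ne_empty]
    rintro rfl
    obtain ⟨k, φ, -, h2⟩ := hR
    apply (stabS_facts h0 (sing_cc hf) k).1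
    have h3 : φ (stabS (Fin k) f) = φ 0 := by
      rw [h2, map_zero]; simp [hyp]
    exact φ.injective h3
  refine ⟨h1, fun h N H hN hC => h N (hyp H) (hyp_ne hN) (sing_hyp hC), fun h n f h0 hf => ?_⟩
  obtain ⟨N, H, hN, hC, -, h2, -⟩ := h1 n f h0 hf
  exact h2 (h N H hN hC)

end Pool.Agent.Helper74.HG
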