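import Pool.Agent.Helper74.HG.GoalsC
import Pool.Agent.Helper74.HG.GoalsD
import Pool.Agent.Helper74.HG.Fin
import Pool.Agent.Helper50.HG.DINV

/-!
# Project HG, part 2: assembly
-/

namespace Pool.Agent.Helper74.HG

open MvPolynomial Pool.Agent.Helper50.HG.DINV

variable {σ τ : Type}

/-! ### Generalities -/

theorem isBk_iff (f : MvPolynomial σ ℂ) (b : Polynomial ℚ) :
    IsBk ℂ f b ↔ IsB f (b.map (algebraMap ℚ ℂ)) := by
  have h : ∀ N : ℕ, (b.map (algebraMap ℚ ℂ)).eval (N : ℂ) = algebraMap ℚ ℂ (b.eval (N : ℚ)) :=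
    fun N => Polynomial.eval_natCast_map _ _ _
  constructor
  · rintro ⟨P, hP, q, hq, h1⟩
    exact ⟨P, hP, q, hq, fun N => by rw [h N]; exact h1 N⟩
  · rintro ⟨P, hP, q, hq, h1⟩
    exact ⟨P, hP, q, hq, fun N => by rw [← h N]; exact h1 N⟩

theorem aeval_map_eq (b : Polynomial ℚ) (z : ℂ) :
    (b.map (algebraMap ℚ ℂ)).eval z = Polynomial.aeval z b := by
  rw [Polynomial.eval_map_algebraMap]

theorem ccC {φ : MvPolynomial σ ℂ ≃ₐ[ℂ] MvPolynomial τ ℂ} (h : PresC φ)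
    (p : MvPolynomial σ ℂ) : constantCoeff (φ p) = constantCoeff p := by
  have h1 : (constantCoeff (R := ℂ) (σ := τ)).comp (φ : MvPolynomial σ ℂ →+* MvPolynomial τ ℂ) =
      constantCoeff := by
    refine MvPolynomial.ringHom_ext (fun r => ?_) (fun i => ?_)
    · simp only [RingHom.comp_apply, RingHom.coe_coe]
      have : φ (C r) = C r := φ.commutes r
      rw [this]; simp
    · simp only [RingHom.comp_apply, RingHom.coe_coe]
      rw [h i]; simp
  exact congrArg (fun g : MvPolynomial σ ℂ →+* ℂ => g p) h1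

theorem presC_symm {φ : MvPolynomial σ ℂ ≃ₐ[ℂ] MvPolynomial τ ℂ} (h : PresC φ) :
    PresC φ.symm := by
  intro j
  rw [← ccC h, AlgEquiv.apply_symm_apply]
  simp

theorem presC_be {φ : MvPolynomial σ ℤ ≃ₐ[ℤ] MvPolynomial τ ℤ} (h : Pres φ) : PresC (be φ) := by
  intro i
  have h1 : (X i : MvPolynomial σ ℂ) = toC (X i) := (toC_X i).symm
  rw [h1, be_toC, toC, constantCoeff_map, h i]
  simp

theorem toC_hyp (H : Finset (Finset σ)) : toC (hyp H) = hypC H := by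
  simp [toC, hyp, hypC, map_sum, map_prod]

/-! ### Eigenvalues -/

theorem eigC_down [Fintype σ] (hb : BST) {f : MvPolynomial σ ℂ} {s : ℂ} (hs : ∀ k : ℤ, s ≠ k)
    (h : EigC (stabC f) (s - 1)) : EigC f s := by
  obtain ⟨k, hk⟩ := h
  refine ⟨k, fun b hbf => ?_⟩
  have h1 := hb f _ ((isBk_iff f b).1 hbf)
  have h1' : IsBk ℂ (stabC f) ((Polynomial.X + 1) * b.comp (Polynomial.X + 1)) := by
    rw [isBk_iff]
    simpa [Polynomial.map_mul, Polynomial.map_comp] using h1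
  have h2 := hk _ h1'
  rw [map_mul, Polynomial.aeval_comp] at h2
  simp only [map_add, Polynomial.aeval_X, map_one] at h2
  have e1 : s - 1 + (k : ℂ) + 1 = s + k := by ring
  rw [e1] at h2
  rcases mul_eq_zero.1 h2 with h3 | h3
  · exfalso
    apply hs (-k)
    push_cast
    linear_combination h3
  · exact h3

theorem eigC_up [Fintype σ] (hc : CONV) {f : MvPolynomial σ ℂ} {s : ℂ} (hs : ∀ k : ℤ, s ≠ k)
    (h : EigC f s) : EigC (stabC f) (s - 1) := by
  obtain ⟨k, hk⟩ := h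
  refine ⟨k, fun b hbf => ?_⟩
  obtain ⟨M, hM⟩ := hc f _ ((isBk_iff _ b).1 hbf)
  have hM' : IsBk ℂ f ((∏ i ∈ Finset.range M, (Polynomial.X + Polynomial.C ((i : ℚ) + 1))) *
      b.comp (Polynomial.X - 1)) := by
    rw [isBk_iff]
    simpa [Polynomial.map_mul, Polynomial.map_comp, Polynomial.map_prod] using hM
  have h2 := hk _ hM'
  rw [map_mul, Polynomial.aeval_comp] at h2
  simp only [map_sub, Polynomial.aeval_X, map_one] at h2
  rcases mul_eq_zero.1 h2 with h3 | h3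
  · exfalso
    rw [map_prod, Finset.prod_eq_zero_iff] at h3
    obtain ⟨i, -, hi⟩ := h3
    simp only [map_add, Polynomial.aeval_X, map_natCast, map_one] at hi
    apply hs (-k - i - 1)
    push_cast
    linear_combination hi
  · rw [show s - 1 + (k : ℂ) = s + k - 1 by ring]
    exact h3

theorem eigC_int [Fintype σ] (hr : ROOT) {f : MvPolynomial σ ℂ} (h0 : f ≠ 0)
    (hf : constantCoeff f = 0) (k : ℤ) : EigC f (k : ℂ) := by
  refine ⟨-1 - k, fun b hb => ?_⟩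
  have := hr f _ h0 hf ((isBk_iff f b).1 hb)
  rw [aeval_map_eq] at this
  rw [show (k : ℂ) + ((-1 - k : ℤ) : ℂ) = -1 by push_cast; ring]
  exact this

/-! ### The rules for `Q1C` -/

theorem stabC_cc {f : MvPolynomial σ ℂ} (h : constantCoeff f = 0) :
    constantCoeff (stabC f) = 0 := by
  simp [stabC, constantCoeff_rename, h]

theorem stabC_ne {f : MvPolynomial σ ℂ} (h : f ≠ 0) : stabC f ≠ 0 := by
  intro h0
  apply h
  have h1 : aeval (fun o : Option (Option σ) => Option.elim o (0 : MvPolynomial σ ℂ)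
      (fun o' => Option.elim o' 0 X)) (stabC f) = f := by
    simp only [stabC, map_add, map_mul, aeval_X, aeval_rename, Option.elim_none, zero_mul,
      add_zero]
    have : ((fun o : Option (Option σ) => Option.elim o (0 : MvPolynomial σ ℂ)
      (fun o' => Option.elim o' 0 X)) ∘ fun i => some (some i)) = X := by
      funext i; rfl
    rw [this, aeval_X_left]
    rfl
  rw [← h1, h0, map_zero]

theorem c_stab [Fintype σ] (hs : SE2) (hp : POLE) (hb : BST) (hr : ROOT)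
    {f : MvPolynomial σ ℂ} (h0 : f ≠ 0) (hf : constantCoeff f = 0) (h : Q1C (stabC f)) :
    Q1C f := by
  intro Z hZ s hsr
  by_cases hi : ∀ k : ℤ, s ≠ k
  · exact eigC_down hb hi (h _ (hs f hf Z hZ) (s - 1) ((hp Z s hi).1 hsr))
  · push Not at hi
    obtain ⟨k, rfl⟩ := hi
    exact eigC_int hr h0 hf k

theorem c_stab' [Fintype σ] (hs : SE2) (hp : POLE) (hc : CONV) (hr : ROOT)
    (hu : ∀ {σ : Type} [Fintype σ] (f : MvPolynomial σ ℂ) (Z Z' : RatFunc ℂ), IsZ f Z → IsZ f Z' →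
      Z = Z')
    {f : MvPolynomial σ ℂ} (h0 : f ≠ 0) (hf : constantCoeff f = 0) (hE : ∃ Z, IsZ f Z)
    (h : Q1C f) : Q1C (stabC f) := by
  intro Z' hZ' s hsr
  by_cases hi : ∀ k : ℤ, s ≠ k
  · obtain ⟨Z, hZ⟩ := hE
    have h1 := hs f hf Z hZ
    have h2 := hu _ _ _ hZ' h1
    rw [h2] at hsr
    have hi' : ∀ k : ℤ, s + 1 ≠ k := fun k hk => hi (k - 1) (by
      push_cast; linear_combination hk)
    have h3 := h Z hZ (s + 1) ((hp Z (s + 1) hi').2 (by
      rw [add_sub_cancel_right]; exact hsr))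
    have h4 := eigC_up hc hi' h3
    rwa [add_sub_cancel_right] at h4
  · push Not at hi
    obtain ⟨k, rfl⟩ := hi
    exact eigC_int hr (stabC_ne h0) (stabC_cc hf) k

theorem c_iso [Fintype σ] [Fintype τ] (hz : ZIS) (hd : BIS)
    {φ : MvPolynomial σ ℂ ≃ₐ[ℂ] MvPolynomial τ ℂ} (hφ : PresC φ) {f : MvPolynomial σ ℂ}
    (h : Q1C (φ f)) : Q1C f := by
  intro Z hZ s hs
  obtain ⟨k, hk⟩ := h Z (hz φ hφ f Z hZ) s hs
  exact ⟨k, fun b hb => hk b (hd φ hφ f b hb)⟩

theorem c_scale [Fintype σ] (hz : ZSC) (hd : BSC) {c : ℂ} (hc : c ≠ 0) {f : MvPolynomial σ ℂ}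
    (h : Q1C (C c * f)) : Q1C f := by
  intro Z hZ s hs
  obtain ⟨k, hk⟩ := h Z (hz c hc f Z hZ) s hs
  exact ⟨k, fun b hb => hk b (hd c hc f b hb)⟩

theorem denom_pow {Z : RatFunc ℂ} {s : ℂ} {n : ℕ} (hn : n ≠ 0) (h : Z.denom.IsRoot s) :
    (Z ^ n).denom.IsRoot s := by
  have h1 : Z ^ n = algebraMap (Polynomial ℂ) (RatFunc ℂ) (Z.num ^ n) /
      algebraMap (Polynomial ℂ) (RatFunc ℂ) (Z.denom ^ n) := by
    rw [map_pow, map_pow, ← div_pow, RatFunc.num_div_denom]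
  have h2 : (Z ^ n).num * Z.denom ^ n = Z.num ^ n * (Z ^ n).denom := by
    have hd : (Z ^ n).denom ≠ 0 := RatFunc.denom_ne_zero _
    have hd' : Z.denom ^ n ≠ 0 := pow_ne_zero _ (RatFunc.denom_ne_zero _)
    have h3 := RatFunc.num_div_denom (Z ^ n)
    rw [h1, div_eq_div_iff ((map_ne_zero_iff _ (RatFunc.algebraMap_injective ℂ)).2 (by
      rw [← h1]; exact hd)) ((map_ne_zero_iff _ (RatFunc.algebraMap_injective ℂ)).2 hd'),
      ← map_mul, ← map_mul] at h3
    rw [← h1] at h3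
    exact RatFunc.algebraMap_injective ℂ h3
  have hco : IsCoprime (Z.denom ^ n) (Z.num ^ n) := (RatFunc.isCoprime_num_denom Z).symm.pow
  have h4 : Z.denom ^ n ∣ (Z ^ n).denom :=
    hco.dvd_of_dvd_mul_left (Dvd.intro_left _ h2)
  have h5 : Z.denom ∣ (Z ^ n).denom := (dvd_pow_self _ hn).trans h4
  exact h.dvd h5

/-- from the product to a factor -/
theorem c_prod [Fintype σ] (hz : ZPI) (hd : BPI) (ι : Type) [Fintype ι] [Nonempty ι]
    (f : ι → MvPolynomial σ ℂ) (f₀ : MvPolynomial σ ℂ)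
    (h1 : ∀ i Z, IsZ f₀ Z → IsZ (f i) Z) (h2 : ∀ i b, IsBk ℂ f₀ b → IsBk ℂ (f i) b)
    (h : Q1C (∏ i, rename (fun x => (i, x)) (f i))) : Q1C f₀ := by
  intro Z hZ s hs
  have h3 := hz ι f (fun _ => Z) (fun i => h1 i Z hZ)
  rw [Finset.prod_const, Finset.card_univ] at h3
  obtain ⟨k, hk⟩ := h _ h3 s (denom_pow Fintype.card_ne_zero hs)
  refine ⟨k, fun b hb => ?_⟩
  have h4 := hk _ (hd ι f (fun _ => b) (fun i => h2 i b hb))
  rw [Finset.prod_const, map_pow] at h4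
  exact (pow_eq_zero_iff (by rw [Finset.card_univ]; exact Fintype.card_ne_zero)).1 h4

/-! ### Specialisation -/

theorem exists_model (s : Finset ℂ) (f : MvPolynomial σ ℂ) (h : ∀ u, f.coeff u ∈ Rg s) :
    ∃ g : MvPolynomial σ (Rg s), map (Rg s).subtype g = f := by
  have : f ∈ Set.range (map (Rg s).subtype : MvPolynomial σ (Rg s) → MvPolynomial σ ℂ) := by
    rw [mem_range_map_iff_coeffs_subset] 
    intro c hc
    obtain ⟨u, hu, rfl⟩ := mem_coeffs_iff.1 hc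
    exact ⟨⟨_, h u⟩, rfl⟩
  exact this

theorem c_spec [Fintype σ] (hz : ZSP) (hb : BSP) (hn : NUL) (hi : BID) {f : MvPolynomial σ ℂ}
    (h0 : f ≠ 0) (hf : constantCoeff f = 0) {Z : RatFunc ℂ} (hZ : IsZ f Z) :
    ∃ f₀ : MvPolynomial σ Qc, f₀ ≠ 0 ∧ constantCoeff f₀ = 0 ∧
      (Q1C (map inQ f₀) → ∀ s₀ : ℂ, Z.denom.IsRoot s₀ → EigC f s₀) := by
  classical
  obtain ⟨s₁, hs₁⟩ := hz f Z hZ
  obtain ⟨b₀, hb₀, hdvd⟩ := hi f
  obtain ⟨s₂, hs₂⟩ := hb f b₀ hb₀
  obtain ⟨u₀, hu₀⟩ := MvPolynomial.ne_zero_iff.1 h0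
  let s : Finset ℂ := s₁ ∪ s₂ ∪ f.support.image f.coeff ∪ {(f.coeff u₀)⁻¹}
  have hsub : ∀ z ∈ s, z ∈ Rg s := fun z hz => Subring.subset_closure (Finset.mem_coe.2 hz)
  have hcoef : ∀ u, f.coeff u ∈ Rg s := by
    intro u
    by_cases hu : f.coeff u = 0
    · rw [hu]; exact Subring.zero_mem _
    · exact hsub _ (by
        simp only [s, Finset.mem_union, Finset.mem_image]
        exact Or.inl (Or.inr ⟨u, mem_support_iff.2 hu, rfl⟩))
  obtain ⟨g, hg⟩ := exists_model s f hcoef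
  obtain ⟨θ, hθ⟩ := hn s
  have hgc : ∀ u, ((g.coeff u : Rg s) : ℂ) = f.coeff u := by
    intro u
    rw [← hg, coeff_map]
    rfl
  have hne : map θ g ≠ 0 := by
    intro h1
    have h2 : θ (g.coeff u₀) = 0 := by
      rw [← coeff_map, h1, coeff_zero]
    have h3 : g.coeff u₀ * ⟨(f.coeff u₀)⁻¹, hsub _ (by simp [s])⟩ = 1 := by
      apply Subtype.ext
      show ((g.coeff u₀ : Rg s) : ℂ) * (f.coeff u₀)⁻¹ = 1
      rw [hgc, mul_inv_cancel₀ hu₀]
    have h4 := congrArg θ h3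
    rw [map_mul, h2, zero_mul, map_one] at h4
    exact zero_ne_one h4
  have hcc : constantCoeff (map θ g) = 0 := by
    rw [constantCoeff_map]
    have : constantCoeff g = 0 := by
      apply Subtype.ext
      have := hgc 0
      rw [← constantCoeff_eq, ← constantCoeff_eq, hf] at this
      exact this
    rw [this, map_zero]
  refine ⟨map θ g, hne, hcc, fun hQ s₀ hs₀ => ?_⟩
  rw [map_map] at hQ
  have hle1 : s₁ ⊆ s := fun z hz => by simp only [s, Finset.mem_union]; tauto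
  have hle2 : s₂ ⊆ s := fun z hz => by simp only [s, Finset.mem_union]; tauto
  obtain ⟨k, hk⟩ := hQ Z (hs₁ s hle1 (inQ.comp θ) g hg) s₀ hs₀
  have h5 := hk b₀ (hs₂ s hle2 (inQ.comp θ) g hg)
  refine ⟨k, fun b hb' => ?_⟩
  obtain ⟨c, rfl⟩ := hdvd b hb'
  rw [map_mul, h5, zero_mul]

/-- conjugation -/
theorem c_conj [Fintype σ] (hz : ZSP) (hb : BSP) (hn : NUL) (f₀ : MvPolynomial σ Qc)
    (ρ : Qc ≃ₐ[ℚ] Qc) :
    (∀ Z, IsZ (map inQ f₀) Z → IsZ (map inQ (map (ρ : Qc →+* Qc) f₀)) Z) ∧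
    (∀ b, IsBk ℂ (map inQ f₀) b → IsBk ℂ (map inQ (map (ρ : Qc →+* Qc) f₀)) b) := by
  classical
  have key : ∀ s₁ : Finset ℂ, ∃ (s : Finset ℂ) (_ : s₁ ⊆ s) (g : MvPolynomial σ (Rg s))
      (θ : Rg s →+* ℂ), map (Rg s).subtype g = map inQ f₀ ∧
        map θ g = map inQ (map (ρ : Qc →+* Qc) f₀) := by
    intro s₁
    let s : Finset ℂ := s₁ ∪ f₀.support.image fun u => inQ (f₀.coeff u)
    have hcoef : ∀ u, (map inQ f₀).coeff u ∈ Rg s := by
      intro u
      rw [coeff_map]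
      by_cases hu : f₀.coeff u = 0
      · rw [hu, map_zero]; exact Subring.zero_mem _
      · exact Subring.subset_closure (Finset.mem_coe.2 (by
          simp only [s, Finset.mem_union, Finset.mem_image]
          exact Or.inr ⟨u, mem_support_iff.2 hu, rfl⟩))
    obtain ⟨g, hg⟩ := exists_model s _ hcoef
    obtain ⟨θ, hθ⟩ := hn s
    refine ⟨s, Finset.subset_union_left, g, inQ.comp ((ρ : Qc →+* Qc).comp θ), hg, ?_⟩
    ext u
    rw [coeff_map, coeff_map, coeff_map]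
    have h1 : ((g.coeff u : Rg s) : ℂ) = inQ (f₀.coeff u) := by
      have := congrArg (MvPolynomial.coeff u) hg
      rw [coeff_map, coeff_map] at this
      exact this
    rw [RingHom.comp_apply, RingHom.comp_apply, hθ _ _ h1]
  constructor
  · intro Z hZ
    obtain ⟨s₁, hs₁⟩ := hz _ Z hZ
    obtain ⟨s, hs, g, θ, h1, h2⟩ := key s₁
    rw [← h2]
    exact hs₁ s hs θ g h1
  · intro b hb'
    obtain ⟨s₁, hs₁⟩ := hb _ b hb'
    obtain ⟨s, hs, g, θ, h1, h2⟩ := key s₁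
    rw [← h2]
    exact hs₁ s hs θ g h1

/-! ### From algebraic numbers to the integers -/

/-- the reduction to singular integer polynomials -/
theorem c_norm [Fintype σ] (hzs : ZSP) (hbs : BSP) (hn : NUL) (hnr : NRM) (hzi : ZIS) (hbi : BIS)
    (hzp : ZPI) (hbp : BPI) (hzc : ZSC) (hbc : BSC) {f₀ : MvPolynomial σ Qc} (h0 : f₀ ≠ 0)
    (hf : constantCoeff f₀ = 0) :
    ∃ (τ : Type) (_ : Fintype τ) (F : MvPolynomial τ ℤ), F ≠ 0 ∧ constantCoeff F = 0 ∧
      (Q1C (toC F) → Q1C (map inQ f₀)) := by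
  obtain ⟨ι, _, _, ρ, F, c, φ, hc, hφ, hF⟩ := hnr f₀
  have h1 : ∀ i, map inQ (map (ρ i : Qc →+* Qc) f₀) ≠ 0 ∧
      constantCoeff (map inQ (map (ρ i : Qc →+* Qc) f₀)) = 0 := by
    intro i
    constructor
    · intro h2
      apply h0
      apply map_injective (ρ i : Qc →+* Qc) (ρ i).injective
      apply map_injective inQ inQ.injective
      rw [h2, map_zero, map_zero]
    · rw [constantCoeff_map, constantCoeff_map, hf, map_zero, map_zero]
  have hFne : F ≠ 0 := by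
    rintro rfl
    rw [show toC (0 : MvPolynomial (ι × σ) ℤ) = 0 from map_zero _] at hF
    have h2 := mul_eq_zero.1 hF.symm
    rcases h2 with h2 | h2
    · exact hc (C_eq_zero.1 h2)
    · have h3 := φ.injective (h2.trans (map_zero φ).symm)
      obtain ⟨i, -, hi⟩ := Finset.prod_eq_zero_iff.1 h3
      apply (h1 i).1
      apply rename_injective (fun x : σ => (i, x)) (fun x y hxy => (Prod.ext_iff.1 hxy).2)
      rw [hi, map_zero]
  have hFcc : constantCoeff F = 0 := by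
    have h2 : constantCoeff (toC F) = 0 := by
      rw [hF, map_mul, ccC hφ, map_prod]
      obtain ⟨i⟩ := ‹Nonempty ι›
      rw [Finset.prod_eq_zero (Finset.mem_univ i), mul_zero]
      rw [constantCoeff_rename]
      exact (h1 i).2
    rw [toC, constantCoeff_map] at h2
    simpa using h2
  refine ⟨ι × σ, inferInstance, F, hFne, hFcc, fun h3 => ?_⟩
  rw [hF] at h3
  have h4 := c_iso hzi hbi hφ (c_scale hzc hbc hc h3)
  exact c_prod hzp hbp ι _ _ (fun i Z hZ => (c_conj hzs hbs hn f₀ (ρ i)).1 Z hZ)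
    (fun i b hb => (c_conj hzs hbs hn f₀ (ρ i)).2 b hb) h4

/-- doubling -/
theorem c_double [Fintype τ] (hzp : ZPI) (hbp : BPI) {F : MvPolynomial τ ℤ}
    (h0 : F ≠ 0) (hF : constantCoeff F = 0) :
    ∃ (υ : Type) (_ : Fintype υ) (G : MvPolynomial υ ℤ), G ≠ 0 ∧ Sing G ∧
      (Q1C (toC G) → Q1C (toC F)) := by
  classical
  let G : MvPolynomial (Fin 2 × τ) ℤ := ∏ i : Fin 2, rename (fun x => (i, x)) F
  have hG : toC G = ∏ i : Fin 2, rename (fun x => (i, x)) (toC F) := by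
    simp only [G, toC, map_prod, map_rename]
  have hinj : ∀ i : Fin 2, Function.Injective (fun x : τ => (i, x)) :=
    fun i x y hxy => (Prod.ext_iff.1 hxy).2
  have hGne : G ≠ 0 := by
    intro h1
    obtain ⟨i, -, hi⟩ := Finset.prod_eq_zero_iff.1 h1
    apply h0
    apply rename_injective _ (hinj i)
    rw [hi, map_zero]
  have hsupp : ∀ i : Fin 2, ∀ u ∈ (rename (fun x => (i, x)) F).support, 1 ≤ u.degree := by
    intro i u hu
    by_contra hlt
    have h1 : u.degree = 0 := by omega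
    have h2 : u = 0 := (Finsupp.degree_eq_zero_iff u).1 h1
    rw [h2, mem_support_iff] at hu
    apply hu
    have := constantCoeff_rename (fun x => (i, x)) F
    rw [hF] at this
    exact this
  have hGs : Sing G := by
    intro u hu
    simp only [G, Fin.prod_univ_two] at hu
    obtain ⟨a, ha, b, hb, rfl⟩ := Finset.mem_add.1 (support_mul _ _ hu)
    have h1 := hsupp 0 a ha
    have h2 := hsupp 1 b hb
    rw [map_add]
    omega
  refine ⟨Fin 2 × τ, inferInstance, G, hGne, hGs, fun h1 => ?_⟩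
  rw [hG] at h1
  exact c_prod hzp hbp (Fin 2) (fun _ => toC F) (toC F) (fun _ _ hZ => hZ) (fun _ _ hb => hb) h1

/-! ### From singular integer polynomials to hypergraphs -/

theorem c_zstab [Fintype σ] (hs : SE2) (hp : POLE) (hb : BST) (hr : ROOT)
    {f : MvPolynomial σ ℤ} (h0 : f ≠ 0) (hf : constantCoeff f = 0) (h : Q1C (toC (stab1 f))) :
    Q1C (toC f) := by
  rw [toC_stab1] at h
  exact c_stab hs hp hb hr (toC_ne h0) (toC_cc hf) h

theorem c_ziso [Fintype σ] [Fintype τ] (hz : ZIS) (hd : BIS)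
    {φ : MvPolynomial σ ℤ ≃ₐ[ℤ] MvPolynomial τ ℤ} (hφ : Pres φ) {f : MvPolynomial σ ℤ}
    (h : Q1C (toC (φ f))) : Q1C (toC f) := by
  rw [← be_toC] at h
  exact c_iso hz hd (presC_be hφ) h

theorem c_ziso' [Fintype σ] [Fintype τ] (hz : ZIS) (hd : BIS)
    {φ : MvPolynomial σ ℤ ≃ₐ[ℤ] MvPolynomial τ ℤ} (hφ : Pres φ) {f : MvPolynomial σ ℤ}
    (h : Q1C (toC f)) : Q1C (toC (φ f)) := by
  apply c_ziso hz hd (pres_symm hφ)
  rwa [AlgEquiv.symm_apply_apply]

theorem c_stabS [Fintype σ] (hz : ZIS) (hd : BIS) (hs : SE2) (hp : POLE) (hb : BST)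
    (hr : ROOT) {f : MvPolynomial σ ℤ} (h0 : f ≠ 0) (hf : constantCoeff f = 0) (k : ℕ)
    (h : Q1C (toC (stabS (Fin k) f))) : Q1C (toC f) := by
  induction k with
  | zero =>
    have h1 := c_ziso' hz hd (pres_rename (eqv0 σ)) h
    rwa [eqv0_stab] at h1
  | succ k ih =>
    apply ih
    have h1 := c_ziso' hz hd (pres_rename (eqv σ k)) h
    rw [eqv_stab] at h1
    exact c_zstab hs hp hb hr (stabS_facts h0 hf k).1 (stabS_facts h0 hf k).2 h1

theorem c_red [Fintype σ] [Fintype τ] (hz : ZIS) (hd : BIS) (hs : SE2) (hp : POLE) (hb : BST)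
    (hr : ROOT) {f : MvPolynomial σ ℤ} {g : MvPolynomial τ ℤ} (h0 : f ≠ 0)
    (hf : constantCoeff f = 0) (h : Red f g) (hg : Q1C (toC g)) : Q1C (toC f) := by
  obtain ⟨k, φ, hφ, rfl⟩ := h
  exact c_stabS hz hd hs hp hb hr h0 hf k (c_ziso hz hd hφ hg)

/-! ### The converse for one polynomial -/

section conv

variable (hu : ∀ {σ : Type} [Fintype σ] (f : MvPolynomial σ ℂ) (Z Z' : RatFunc ℂ), IsZ f Z →
  IsZ f Z' → Z = Z')

theorem c_ex [Fintype σ] (hz : ZIS) (hs : SE2) {f : MvPolynomial σ ℤ} (h0 : f ≠ 0)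
    (hf : constantCoeff f = 0) (hE : ∃ Z, IsZ (toC f) Z) (k : ℕ) :
    ∃ Z, IsZ (toC (stabS (Fin k) f)) Z := by
  induction k with
  | zero =>
    obtain ⟨Z, hZ⟩ := hE
    refine ⟨Z, ?_⟩
    have := hz (be (renameEquiv ℤ (eqv0 σ)).symm)
      (presC_be (pres_symm (pres_rename (eqv0 σ)))) _ Z hZ
    rwa [be_toC, show (renameEquiv ℤ (eqv0 σ)).symm f = stabS (Fin 0) f from by
      rw [AlgEquiv.symm_apply_eq, eqv0_stab]] at this
  | succ k ih =>
    obtain ⟨Z, hZ⟩ := ih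
    have h1 := hs _ (toC_cc (stabS_facts h0 hf k).2) Z hZ
    rw [← toC_stab1] at h1
    refine ⟨stabZ Z, ?_⟩
    have := hz (be (renameEquiv ℤ (eqv σ k)).symm)
      (presC_be (pres_symm (pres_rename (eqv σ k)))) _ _ h1
    rwa [be_toC, show (renameEquiv ℤ (eqv σ k)).symm (stab1 (stabS (Fin k) f)) =
      stabS (Fin (k + 1)) f from by
      rw [AlgEquiv.symm_apply_eq, eqv_stab]] at this

include hu

theorem c_stabS' [Fintype σ] (hz : ZIS) (hd : BIS) (hs : SE2) (hp : POLE) (hc : CONV)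
    (hr : ROOT) {f : MvPolynomial σ ℤ} (h0 : f ≠ 0) (hf : constantCoeff f = 0)
    (hE : ∃ Z, IsZ (toC f) Z) (k : ℕ) (h : Q1C (toC f)) : Q1C (toC (stabS (Fin k) f)) := by
  induction k with
  | zero =>
    apply c_ziso hz hd (pres_rename (eqv0 σ))
    rwa [eqv0_stab]
  | succ k ih =>
    apply c_ziso hz hd (pres_rename (eqv σ k))
    rw [eqv_stab, toC_stab1]
    exact c_stab' hs hp hc hr hu (toC_ne (stabS_facts h0 hf k).1)
      (toC_cc (stabS_facts h0 hf k).2) (c_ex hz hs h0 hf hE k) ih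

theorem c_red' [Fintype σ] [Fintype τ] (hz : ZIS) (hd : BIS) (hs : SE2) (hp : POLE)
    (hc : CONV) (hr : ROOT) {f : MvPolynomial σ ℤ} {g : MvPolynomial τ ℤ} (h0 : f ≠ 0)
    (hf : constantCoeff f = 0) (h : Red f g) (hE : ∃ Z, IsZ (toC f) Z) (hg : Q1C (toC f)) :
    Q1C (toC g) := by
  obtain ⟨k, φ, hφ, rfl⟩ := h
  exact c_ziso' hz hd hφ (c_stabS' hu hz hd hs hp hc hr h0 hf hE k hg)

end conv

/-! ### Uniqueness -/

theorem aux2 {σ : Type} (A B : Subring ℂ) (hle : A ≤ B) (g : MvPolynomial σ A) :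
    map B.subtype (map (Subring.inclusion hle) g) = map A.subtype g := by
  rw [map_map]
  rfl
theorem aux3 {σ : Type} (A A' B : Subring ℂ) (hle : A ≤ B) (hle' : A' ≤ B) (g : MvPolynomial σ A)
    (g' : MvPolynomial σ A') (h : map A.subtype g = map A'.subtype g') :
    map (Subring.inclusion hle) g = map (Subring.inclusion hle') g' := by
  apply map_injective B.subtype Subtype.val_injective
  rw [aux2, aux2, h]
theorem aux4 {σ : Type} (A B : Subring ℂ) (hle : A ≤ B) {K : Type} [Field K] (ψ : B →+* K) (g : MvPolynomial σ A) :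
    map (ψ.comp (Subring.inclusion hle)) g = map ψ (map (Subring.inclusion hle) g) := by
  rw [map_map]
theorem aux5 {σ : Type} [Fintype σ] {A A' B : Subring ℂ} (hle : A ≤ B) (hle' : A' ≤ B) (g : MvPolynomial σ A)
    (g' : MvPolynomial σ A') (h : map A.subtype g = map A'.subtype g') (L L' : List Str)
    (hF : ∀ (K : Type) [Field K] [Finite K] (ψ : A →+* K), Form K (map ψ g) L)
    (hF' : ∀ (K : Type) [Field K] [Finite K] (ψ : A' →+* K), Form K (map ψ g') L')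
    (K : Type) [Field K] [Finite K] (ψ : B →+* K) :
    ∃ f : MvPolynomial σ K, Form K f L ∧ Form K f L' := by
  refine ⟨map ψ (map (Subring.inclusion hle) g), ?_, ?_⟩
  · rw [← aux4]
    exact hF K _
  · rw [aux3 A A' B hle hle' g g' h, ← aux4]
    exact hF' K _
theorem uniqC (hf : FIN) (hu : UNF) {σ : Type} [Fintype σ] (f : MvPolynomial σ ℂ)
    (Z Z' : RatFunc ℂ) (h : IsZ f Z) (h' : IsZ f Z') : Z = Z' := by
  classical
  obtain ⟨s, g, L, hg, hL, hF, hZ⟩ := h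
  obtain ⟨s', g', L', hg', hL', hF', hZ'⟩ := h'
  obtain ⟨K, hK1, hK2, ⟨ψ⟩⟩ := hf (s ∪ s')
  have hle : Rg s ≤ Rg (s ∪ s') := Subring.closure_mono (by
    rw [Finset.coe_union]; exact Set.subset_union_left)
  have hle' : Rg s' ≤ Rg (s ∪ s') := Subring.closure_mono (by
    rw [Finset.coe_union]; exact Set.subset_union_right)
  obtain ⟨p, h1, h2⟩ := aux5 hle hle' g g' (hg.trans hg'.symm) L L' hF hF' K ψ
  rw [hZ, hZ']
  exact hu K p L L' hL hL' h1 h2

/-! ### The main theorem -/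

/-- all the facts -/
structure FactsC : Prop where
  tra : TRA
  iso : ISO
  wd : WD
  li : LI
  deg : DEG
  mat : MAT
  pole : POLE
  bst : BST
  root : ROOT
  conv : CONV
  se2 : SE2
  zis : ZIS
  zpi : ZPI
  zsc : ZSC
  zsp : ZSP
  bis : BIS
  bpi : BPI
  bsc : BSC
  bid : BID
  bsp : BSP
  nul : NUL
  fin : FIN
  nrm : NRM
  unf : UNF

theorem sub3_map {σ τ : Type} (e : σ ≃ τ) {H : Finset (Finset σ)} (h : Sub3 H) :
    Sub3 (H.map ⟨Finset.map e.toEmbedding, Finset.map_injective _⟩) := by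
  classical
  intro j
  refine le_trans (le_of_eq ?_) (h (e.symm j))
  rw [Finset.filter_map, Finset.card_map]
  congr 1
  ext t
  simp only [Finset.mem_filter, Function.comp_apply, Function.Embedding.coeFn_mk,
    Finset.mem_map_equiv]

theorem mat3_map {σ τ : Type} (e : σ ≃ τ) {H : Finset (Finset σ)} (h : Mat3 H) :
    Mat3 (H.map ⟨Finset.map e.toEmbedding, Finset.map_injective _⟩) := by
  classical
  intro a ha b hb h1 h2 hab
  obtain ⟨a', ha', rfl⟩ := Finset.mem_map.1 ha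
  obtain ⟨b', hb', rfl⟩ := Finset.mem_map.1 hb
  simp only [Function.Embedding.coeFn_mk, Finset.card_map] at h1 h2
  simp only [Function.Embedding.coeFn_mk] at hab ⊢
  rw [Finset.disjoint_map]
  exact h a' ha' b' hb' h1 h2 fun hc => hab (by rw [hc])

theorem sub3_of_card {σ : Type} {H : Finset (Finset σ)} (h : H.card ≤ 3) : Sub3 H := by
  classical
  intro i
  exact (Finset.card_le_card (Finset.filter_subset _ _)).trans h

theorem chain3 (htr : TRA) (his : ISO) (hwd : WD) (hli : LI) (hdg : DEG) (hmt : MAT)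
    {σ : Type} [Fintype σ] {f : MvPolynomial σ ℤ} (hf : Sing f) :
    ∃ (N : ℕ) (H : Finset (Finset (Fin N))), Cub H ∧ Sub3 H ∧ Mat3 H ∧ Red f (hyp H) := by
  classical
  obtain ⟨L, hL, h1⟩ := hli f hf
  obtain ⟨τ, hτ, H', hC, hR⟩ := hwd σ ∅ L (fun e he => absurd he (Finset.notMem_empty e)) hL
  have h2 : hyp (∅ : Finset (Finset σ)) + (L.map wp).sum = f := by
    rw [h1]; simp [hyp]
  rw [h2] at hR
  obtain ⟨τ₁, hτ₁, H₁, hC₁, hS₁, hR₁⟩ := hdg τ H' hC
  obtain ⟨τ', hτ', H'', hC', hS, hM, hR'⟩ := hmt τ₁ H₁ hC₁ hS₁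
  let e := Fintype.equivFin τ'
  refine ⟨Fintype.card τ', H''.map ⟨Finset.map e.toEmbedding, Finset.map_injective _⟩, ?_,
    sub3_map e hS, mat3_map e hM, ?_⟩
  · intro t ht
    obtain ⟨t', ht', rfl⟩ := Finset.mem_map.1 ht
    simpa using hC' t' ht'
  · rw [← hyp_rename e]
    exact htr _ _ _ (htr _ _ _ (htr _ _ _ hR hR₁) hR') (his _ (pres_rename e) _)

variable (F : FactsC)

include F

/-- singular integer polynomials -/
theorem main_int {σ : Type} [Fintype σ] {f : MvPolynomial σ ℤ} (h0 : f ≠ 0) (hf : Sing f) :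
    ∃ (N : ℕ) (H : Finset (Finset (Fin N))), H.Nonempty ∧ Cub H ∧ Sub3 H ∧ Mat3 H ∧
      Red f (hyp H) ∧ (Q1C (hypC H) → Q1C (toC f)) ∧
      ((∃ Z, IsZ (toC f) Z) → Q1C (toC f) → Q1C (hypC H)) := by
  obtain ⟨N, H, hC, hS, hM, hR⟩ := chain3 F.tra F.iso F.wd F.li F.deg F.mat hf
  refine ⟨N, H, ?_, hC, hS, hM, hR, fun h => ?_, fun hE h => ?_⟩
  · rw [Finset.nonempty_iff_ne_empty]
    rintro rfl
    obtain ⟨k, φ, -, h2⟩ := hR
    apply (stabS_facts h0 (sing_cc hf) k).1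
    have h3 : φ (stabS (Fin k) f) = φ 0 := by
      rw [h2, map_zero]; simp [hyp]
    exact φ.injective h3
  · rw [← toC_hyp] at h
    exact c_red F.zis F.bis F.se2 F.pole F.bst F.root h0 (sing_cc hf) hR h
  · rw [← toC_hyp]
    exact c_red' (fun f Z Z' => uniqC F.fin F.unf f Z Z') F.zis F.bis F.se2 F.pole F.conv F.root
      h0 (sing_cc hf) hR hE h

/-- all complex polynomials -/
theorem main_one {σ : Type} [Fintype σ] {f : MvPolynomial σ ℂ} (h0 : f ≠ 0)
    (hf : constantCoeff f = 0) :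
    ∃ (N : ℕ) (H : Finset (Finset (Fin N))), H.Nonempty ∧ Cub H ∧ Sub3 H ∧ Mat3 H ∧
      (Q1C (hypC H) → Q1C f) := by
  by_cases hE : ∃ Z, IsZ f Z
  · obtain ⟨Z, hZ⟩ := hE
    obtain ⟨f₀, a1, a2, a3⟩ := c_spec F.zsp F.bsp F.nul F.bid h0 hf hZ
    obtain ⟨τ, _, G, b1, b2, b3⟩ := c_norm F.zsp F.bsp F.nul F.nrm F.zis F.bis F.zpi F.bpi F.zsc
      F.bsc a1 a2
    obtain ⟨υ, _, G', c1, c2, c3⟩ := c_double F.zpi F.bpi b1 b2
    obtain ⟨N, H, d1, d2, d3, d4, -, d5, -⟩ := main_int F c1 c2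
    refine ⟨N, H, d1, d2, d3, d4, fun h => ?_⟩
    intro Z' hZ' s₀ hs₀
    have hZZ : Z' = Z := uniqC F.fin F.unf f Z' Z hZ' hZ
    rw [hZZ] at hs₀
    exact a3 (b3 (c3 (d5 h))) s₀ hs₀
  · refine ⟨2, {Finset.univ}, Finset.singleton_nonempty _, ?_, ?_, ?_,
      fun _ Z hZ => absurd ⟨Z, hZ⟩ hE⟩
    · intro e he
      rw [Finset.mem_singleton.1 he]
      left
      simp
    · exact sub3_of_card (by rw [Finset.card_singleton]; norm_num)
    · intro a ha b hb _ _ hab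
      exact absurd ((Finset.mem_singleton.1 ha).trans (Finset.mem_singleton.1 hb).symm) hab

/-- The main theorem. -/
theorem mainC :
    ((∀ (n : ℕ) (f : MvPolynomial (Fin n) ℂ), f ≠ 0 → constantCoeff f = 0 → Q1C f) ↔
      ∀ (N : ℕ) (H : Finset (Finset (Fin N))), H.Nonempty → Cub H → Sub3 H → Mat3 H →
        Q1C (hypC H)) ∧
    (∀ (n : ℕ) (f : MvPolynomial (Fin n) ℂ), f ≠ 0 → constantCoeff f = 0 →
      ∃ (N : ℕ) (H : Finset (Finset (Fin N))), H.Nonempty ∧ Cub H ∧ Sub3 H ∧ Mat3 H ∧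
        (Q1C (hypC H) → Q1C f)) ∧
    (∀ (n : ℕ) (f : MvPolynomial (Fin n) ℤ), f ≠ 0 → Sing f →
      ∃ (N : ℕ) (H : Finset (Finset (Fin N))), H.Nonempty ∧ Cub H ∧ Sub3 H ∧ Mat3 H ∧
        Red f (hyp H) ∧ (Q1C (hypC H) → Q1C (toC f)) ∧
        ((∃ Z, IsZ (toC f) Z) → Q1C (toC f) → Q1C (hypC H))) ∧
    (∀ (n : ℕ) (f : MvPolynomial (Fin n) ℂ) (Z Z' : RatFunc ℂ), IsZ f Z → IsZ f Z' →
      Z = Z') := by
  refine ⟨⟨fun h N H hN hC _ _ => ?_, fun h n f h0 hf => ?_⟩,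
    fun n f h0 hf => main_one F h0 hf,
    fun n f h0 hf => main_int F h0 hf, fun n f => uniqC F.fin F.unf f⟩
  · rw [← toC_hyp]
    exact h N _ (toC_ne (hyp_ne hN)) (toC_cc (sing_cc (sing_hyp hC)))
  · obtain ⟨N, H, h1, h2, h3, h4, h5⟩ := main_one F h0 hf
    exact h5 (h N H h1 h2 h3 h4)

end Pool.Agent.Helper74.HG
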