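import Pool.Agent.Helper74.HG.Defs

/-!
# Project HG: goals

`f : MvPolynomial σ ℤ`, `ι = rename (fun i => some (some i))`, `w = X none`, `l = X (some none)`,
`stab1 f = ι f + w l`.  `q` = number of elements of the finite field `K`, `n` = number of variables.

Every goal has its proof in words.  Results in `Pool/Agent/<Seat>/HG/<GOAL>.lean`, `theorem t : <GOAL>`
(all packets are independent, except that the packets CNT and SER and WD take the facts named there
as hypotheses).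
-/

namespace Pool.Agent.Helper74.HG

open MvPolynomial

/-! ### A. Algebra -/

/-- **ISO** (short). `k = 0`: `σ ⊕ (Fin 0 ⊕ Fin 0) ≃ σ`; compose the renaming with `φ`. -/
def ISO : Prop := ∀ {σ τ : Type} (φ : MvPolynomial σ ℤ ≃ₐ[ℤ] MvPolynomial τ ℤ), Pres φ →
  ∀ f : MvPolynomial σ ℤ, Red f (φ f)

/-- **TRA** (transitivity). Let `φ : ℤ[σ ⊕ (Fin k ⊕ Fin k)] ≃ ℤ[τ]` and
`ψ : ℤ[τ ⊕ (Fin k' ⊕ Fin k')] ≃ ℤ[υ]`.  Extend `φ` by the identity on the new variables:
`φ' : ℤ[(σ ⊕ (Fin k ⊕ Fin k)) ⊕ (Fin k' ⊕ Fin k')] ≃ ℤ[τ ⊕ (Fin k' ⊕ Fin k')]`,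
`inl i ↦ rename inl (φ (X i))`, `inr j ↦ X (inr j)` (inverse the same with `φ.symm`; the two
composites are the identity on the variables).  Then
`φ' (rename inl (stabS f) + ∑' w l) = rename inl (φ (stabS f)) + ∑' w l = stabS g`.  Precompose with
the renaming along `σ ⊕ (Fin (k+k') ⊕ Fin (k+k')) ≃ (σ ⊕ (Fin k ⊕ Fin k)) ⊕ (Fin k' ⊕ Fin k')`
(`finSumFinEquiv`) and compose with `ψ`.  For `Pres` of the composite use that `Pres ψ` gives
`constantCoeff (ψ p) = constantCoeff p` for all `p`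
(`constantCoeff ∘ ψ = constantCoeff` on the variables, `MvPolynomial.ringHom_ext`/`algHom_ext`). -/
def TRA : Prop := ∀ {σ τ υ : Type} (f : MvPolynomial σ ℤ) (g : MvPolynomial τ ℤ)
  (h : MvPolynomial υ ℤ), Red f g → Red g h → Red f h

/-- **STE** (the step `c a b + w l ~ a l - c w b + w l`). `k = 1`; the isomorphism
`ℤ[σ ⊕ (Fin 1 ⊕ Fin 1)] → ℤ[Option (Option σ)]` is `inl i ↦ X (some (some i))`,
`inr (inl 0) ↦ w + ι a`, `inr (inr 0) ↦ l - c ι b`; its inverse `some (some i) ↦ X (inl i)`,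
`none ↦ X (inr (inl 0)) - rename inl a`, `some none ↦ X (inr (inr 0)) + c rename inl b`.
`(w + a)(l - c b) + c a b = w l - c w b + a l`. -/
def STE : Prop := ∀ {σ : Type} (f₀ a b : MvPolynomial σ ℤ) (c : ℤ), constantCoeff a = 0 →
  constantCoeff b = 0 →
  Red (f₀ + C c * a * b)
    (rename (fun i => some (some i)) f₀ + rename (fun i => some (some i)) a * X (some none) -
      C c * X none * rename (fun i => some (some i)) b + X none * X (some none) :
      MvPolynomial (Option (Option σ)) ℤ)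

/-- **WD** (words to hypergraphs), takes `TRA`, `STE`, `ISO` as hypotheses.  Induction on the sum of
`3 ^ length` over the list.  Empty list: `Red f f` by `ISO`.  Let `(ε, u)` be the head of the list.

Length `≥ 4`: `u = i :: j :: v`, `a = X_i X_j`, `b = ∏ v`, `c = ε`: the step gives the new words
`(1, [i, j, l])`, `(-ε, w :: v)` and the edge `{w, l}` (new, so it is disjoint from the old
hypergraph); `27 + 3^(d-1) < 3^d` for `d ≥ 4`.

Length `2` or `3`: the word disappears and new edges are added.  All new edges contain a new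
variable, so they are not in the (renamed) old hypergraph, and they are pairwise different.
* `-X_i X_j`: one step (`a = X_i`, `b = X_j`, `c = -1`): `X_i l + w X_j + w l`.
* `X_i X_j`: one step: `X_i l - w X_j + w l`, and then the previous rule for `- w X_j` with new
  variables `w', l'`: `w l' + w' X_j + w' l'`.
* `X_i X_j X_k` (`i, j, k` may coincide): step with `a = X_i`, `b = X_j X_k`, `c = 1`:
  `X_i l - w X_j X_k + w l`; step for `- X_j (w X_k)` with `a = X_j`, `b = w X_k`, `c = -1`: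
  `X_j l' + w' w X_k + w' l'`.  Result: `{i,l}, {w,l}, {j,l'}, {w',w,k}, {w',l'}`.
* `-X_i X_j X_k`: step with `c = -1`: `X_i l + w X_j X_k + w l`; step for `X_j (w X_k)`, `c = 1`:
  `X_j l' - w' w X_k + w' l'`; step for `- w' (w X_k)`, `a = w'`, `b = w X_k`, `c = -1`:
  `w' l'' + w'' w X_k + w'' l''`.  Result:
  `{i,l}, {w,l}, {j,l'}, {w',l'}, {w',l''}, {w'',w,k}, {w'',l''}`.

(It may be convenient to prove first a lemma: if `E` is a finite set of edges of
`Option (Option σ)` all of which contain `none` or `some none`, then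
`hyp (H.map ..  ∪ E) = ι (hyp H) + hyp E`, and to treat the steps one after the other, with the
lists `(-ε, [w, j, k]) :: ..` as intermediate states; the words of length 3 are then:
`(ε, [i,j,k])` general → one step → edges and `(-ε, [w, j, k])`, next step with `a = X_j`,
`b = w X_k`.)  Keep `Fintype` and `DecidableEq` instances explicit or classical. -/
def WD : Prop := ∀ (σ : Type) [Fintype σ] (H : Finset (Finset σ)) (L : List (ℤ × List σ)),
  Cub H → (∀ p ∈ L, (p.1 = 1 ∨ p.1 = -1) ∧ 2 ≤ p.2.length) →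
  ∃ (τ : Type) (_ : Fintype τ) (H' : Finset (Finset τ)), Cub H' ∧
    Red (hyp H + (L.map wp).sum) (hyp H')

/-- **LI** (every singular polynomial is a sum of signed words).  `f = ∑_{u ∈ support} c_u x^u`;
`c_u = ± (1 + ... + 1)`; `x^u` is the word in which `i` occurs `u i` times
(`Finsupp.toMultiset u`, `Multiset.toList`), its length is `u.degree ≥ 2`. -/
def LI : Prop := ∀ {σ : Type} (f : MvPolynomial σ ℤ), Sing f →
  ∃ L : List (ℤ × List σ), (∀ p ∈ L, (p.1 = 1 ∨ p.1 = -1) ∧ 2 ≤ p.2.length) ∧ f = (L.map wp).sum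

/-! ### B. Arcs -/

/-- **LIFT** (and the number of arcs).  `Tr K m` has `q^(m+1)` elements, the ideal `(t)` has `q^m`.
The projection `Tr K m → Tr K k` maps `(t)` onto `(t)` with fibres of `q^(m-k)` elements (kernel
`(t^(k+1))`), so `Arc K σ m → Arc K σ k` is onto with fibres of `q^((m-k) n)` elements.  For
`y ∈ Tr K m` with image `y'` in `Tr K k`: `t^(m-k+1) y = 0` iff `t y' = 0`, and `t^(m-k) y = 0` iff
`y' = 0` (`y = class of p`: `X^(m+1) ∣ X^(m-k) p` iff `X^(k+1) ∣ p`).  `aeval` commutes with the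
projection. -/
def LIFT : Prop := ∀ (K : Type) [Field K] [Finite K] (σ : Type) [Fintype σ],
  (∀ m, (Arc K σ m).ncard = Nat.card K ^ (Fintype.card σ * m)) ∧
  ∀ (f : MvPolynomial σ ℤ) (m k : ℕ), k ≤ m →
    (JetO K f m k).ncard = Nat.card K ^ (Fintype.card σ * (m - k)) * cnt K f k

/-- **WL**.  `A = Tr K m`, `m ≥ 1`, `c ∈ (t)`; the number of pairs `(w, l) ∈ (t)²` with
`t (c + w l) = 0`, `c + w l ≠ 0`, if `c` has order `k` (`1 ≤ k < m`), order `m`, or `c = 0`.
Proof: for fixed `r ∈ {m, m+1}` count the pairs with `t^(m+1-r) (c + w l) = 0` (that is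
`c + w l ≡ 0 mod t^r`).  Let `w` have order `i`, `1 ≤ i ≤ m` (`(q-1) q^(m-i)` elements) or `w = 0`.
`l ↦ w l` maps `(t)` onto `(t^(i+1))` with fibres of `q^i` elements (`i ≤ m`).  So for `c` of order
`k < r`: solutions exist iff `i + 1 ≤ k`, and then there are `q^(m+1-r+i)` (the `l` is determined
modulo `t^(r-i)`), in total `(k-1)(q-1) q^(2m+1-r)`; for `c ≡ 0 mod t^r`: `q^(m+1-r+i)` for
`i ≤ r-1`, and all `q^m` for `w ∈ (t^r)` (`q^(m+1-r)` elements), in total
`((r-1)(q-1) + 1) q^(2m+1-r)`.  The number wanted is (number for `r = m`) - (number for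
`r = m+1`): `k < m`: `(k-1)(q-1)(q^(m+1) - q^m)`; `k = m`:
`((m-1)(q-1)+1) q^(m+1) - (m-1)(q-1) q^m`; `c = 0`:
`((m-1)(q-1)+1) q^(m+1) - (m(q-1)+1) q^m`.  (Any other proof is welcome.) -/
def WL : Prop := ∀ (K : Type) [Field K] [Finite K] (m : ℕ), 1 ≤ m → ∀ c ∈ Ideal.span {tt K m},
  (∀ k, 1 ≤ k → k < m → tt K m ^ (m - k + 1) * c = 0 → tt K m ^ (m - k) * c ≠ 0 →
    (({p : Tr K m × Tr K m | p.1 ∈ Ideal.span {tt K m} ∧ p.2 ∈ Ideal.span {tt K m} ∧
      tt K m * (c + p.1 * p.2) = 0 ∧ c + p.1 * p.2 ≠ 0}.ncard : ℤ) =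
      ((k : ℤ) - 1) * ((Nat.card K : ℤ) - 1) ^ 2 * (Nat.card K : ℤ) ^ m)) ∧
  (tt K m * c = 0 → c ≠ 0 →
    (({p : Tr K m × Tr K m | p.1 ∈ Ideal.span {tt K m} ∧ p.2 ∈ Ideal.span {tt K m} ∧
      tt K m * (c + p.1 * p.2) = 0 ∧ c + p.1 * p.2 ≠ 0}.ncard : ℤ) =
      (((m : ℤ) - 1) * ((Nat.card K : ℤ) - 1) ^ 2 + Nat.card K) * (Nat.card K : ℤ) ^ m)) ∧
  (c = 0 →
    (({p : Tr K m × Tr K m | p.1 ∈ Ideal.span {tt K m} ∧ p.2 ∈ Ideal.span {tt K m} ∧
      tt K m * (c + p.1 * p.2) = 0 ∧ c + p.1 * p.2 ≠ 0}.ncard : ℤ) =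
      ((m : ℤ) - 1) * ((Nat.card K : ℤ) - 1) ^ 2 * (Nat.card K : ℤ) ^ m))

/-- **CNT** takes `LIFT`, `WL`.  The arcs of `stab1 f` are the triples (arc `x` of `f`, `w`, `l`)
(`w`, `l` the values at `none`, `some none`), `stab1 f` has the value `f(x) + w l`.  Every value
`f(x)`, `x` an arc, lies in `(t)` (constant term `0`) and has an order `k ∈ {1, .., m}` or is zero.
By `LIFT` the number of `x` with order `k` is `q^(n(m-k)) cnt f k`, the number of all `x` is
`q^(nm)`.  By `WL` the sum over `x` is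
`∑_{k<m} q^(n(m-k)) cnt f k (k-1)(q-1)² q^m + cnt f m ((m-1)(q-1)² + q) q^m
+ (q^(nm) - ∑_{k≤m} q^(n(m-k)) cnt f k) (m-1)(q-1)² q^m`. (`cnt f 0 = 0`.) -/
def CNT : Prop := ∀ (K : Type) [Field K] [Finite K] (σ : Type) [Fintype σ]
  (f : MvPolynomial σ ℤ), constantCoeff f = 0 → ∀ m : ℕ, 1 ≤ m →
    (cnt K (stab1 f) m : ℤ) = (Nat.card K : ℤ) ^ m *
      (((m : ℤ) - 1) * ((Nat.card K : ℤ) - 1) ^ 2 * (Nat.card K : ℤ) ^ (Fintype.card σ * m) +
        (Nat.card K : ℤ) * cnt K f m -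
        ∑ k ∈ Finset.range m, ((m : ℤ) - k) * ((Nat.card K : ℤ) - 1) ^ 2 *
          (Nat.card K : ℤ) ^ (Fintype.card σ * (m - k)) * cnt K f k)

/-- **SER** takes `CNT`.  Write `a_m = cnt f m / q^(nm)`, `Q = 1/q`, `ζ = ∑ a_m T^m`,
`C = fac q (1,1) = ∑_{i≥1} (1-Q) Q^(i-1) T^i`.  By `CNT`
`a'_m = Q^m ((m-1)(q-1)² + q a_m - (q-1)² ∑_{k<m} (m-k) a_k)` for `stab1 f`, `m ≥ 1` (`a'_0 = 0`), and
so `ζ'(T) = C² + (q - (q-1) C - C²) ζ(Q T)`: the coefficients of `C²` are `(m-1)(q-1)² Q^m`, those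
of `(q-1) C` are `(q-1)² Q^m`, `ζ(QT)` has the coefficients `a_m Q^m`.  If
`ζ = ∑_S c_S ∏ fac q (N, ν)`, then `ζ(QT) = ∑_S c_S ∏ fac q (N, ν + N)`
(`rescale Q (fac q (N, ν)) = fac q (N, ν + N)`).  New list of strata: `(1, 1, [(1,1),(1,1)])` and for
every `S = (c, χ, d)` with `d' = {(N, ν + N)}`: `(q c, χ, d')`, `(-(q-1) c, 0, (1,1) :: d')`,
`(-c, -χ, (1,1) :: (1,1) :: d')`, `q = p^e`.  The new weights are exponential sums with these values
at `e = 0` (`c(e) = ∑ m_i a_i^e` gives `q c = ∑ m_i (p a_i)^e`, and `(q-1) c` has the value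
`χ - χ = 0`).  `Z' = 1/(s+1)² + (1 - 1/(s+1)²) Z(s+1) = stabZ Z`: `shR (N s + ν)⁻¹ =
(N s + N + ν)⁻¹`.  `GaloisField p e` has `p^e` elements (`GaloisField.card`, `e ≠ 0`).
`Fintype.card (Option (Option σ)) = n + 2`. -/
def SER : Prop := ∀ {σ : Type} [Fintype σ] (f : MvPolynomial σ ℤ), constantCoeff f = 0 →
  ∀ Z : RatFunc ℂ, IsTopZeta f Z → IsTopZeta (stab1 f) (stabZ Z)

/-- **POLE** (rational functions).  `shR` is an automorphism, `shR p = p.comp (X + 1)` for
polynomials, so `(shR Z).denom` is `Z.denom.comp (X + 1)` up to a unit, and `s₀` is a pole of `Z` iff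
`s₀ - 1` is a pole of `shR Z`.  `1 - 1/(s+1)² = s (s+2)/(s+1)²` has neither zero nor pole at
`s₀ - 1` (not an integer), and `1/(s+1)²` has no pole there.  (A convenient criterion: `s₁` is no root
of `Z.denom` iff `Z = p / q` with polynomials `p`, `q` and `q(s₁) ≠ 0`; such `Z` form a ring `O`;
`stabZ Z ∈ O` iff `shR Z ∈ O`, because `1/(X+1)²` and the inverse of `1 - 1/(X+1)²` are in `O`.) -/
def POLE : Prop := ∀ (Z : RatFunc ℂ) (s₀ : ℂ), (∀ k : ℤ, s₀ ≠ k) →
  (Z.denom.IsRoot s₀ ↔ (stabZ Z).denom.IsRoot (s₀ - 1))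

/-- **ZINV** (change of coordinates).  `x ↦ (j ↦ aeval x (φ.symm (X j)))` maps `Jet K f m` bijectively
onto `Jet K (φ f) m` (inverse `y ↦ (i ↦ aeval y (φ (X i)))`; `aeval y (φ p) = aeval x p`; values in
the ideal `(t)`, because `φ (X i)` and `φ.symm (X j)` have constant coefficient `0`:
`constantCoeff (φ p) = constantCoeff p` for all `p` follows from `Pres φ`), and `Arc` onto `Arc`;
so the numbers `cnt` agree.  For the equality of the numbers of variables count the arcs modulo `t^2`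
over the field with two elements: the bijection of `Arc (ZMod 2) σ 1` and `Arc (ZMod 2) τ 1`, which
have `2^|σ|`, `2^|τ|` elements (the ideal `(t)` of `Tr K 1` is a `K`-vector space of dimension one;
or use `MvPolynomial` facts on transcendence degree / rank, or the first part of `LIFT` as a
hypothesis). -/
def ZINV : Prop := ∀ {σ τ : Type} [Fintype σ] [Fintype τ]
  (φ : MvPolynomial σ ℤ ≃ₐ[ℤ] MvPolynomial τ ℤ), Pres φ → ∀ (f : MvPolynomial σ ℤ)
  (Z : RatFunc ℂ), IsTopZeta f Z → IsTopZeta (φ f) Z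

/-- **UNIQ** (the zeta function is unique).  Fix one prime `p ≥` both bounds.  (1) The value `v` in
`ExpVal` is determined by `c`: if `∑ m_i a_i^e = 0` for all `e ≥ 1`, `a_i ≠ 0`, then `∑ m_i = 0`
(collect equal `a_i`; the functions `e ↦ a^(e+1)` of different `a ≠ 0` are linearly independent:
`linearIndependent_monoidHom` or Vandermonde).  `ExpVal` is closed under sums and products, with
sums and products of the values (negation too), and `e ↦ [k] = 1 + q + .. + q^(k-1)` has the value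
`k`.
(2) `∑_S c_S ∏_{d ∈ S} fac q d = ∑_{S'} ..` for all `q = p^e`, `e ≥ 1` (power series, all
coefficients `m ≥ 0`).  Multiply by `D(T) = ∏ (1 - q^(-ν) T^N)` over all data in both lists:
`fac q (N,ν) (1 - q^(-ν) T^N) = (q-1) q^(-ν) T^N`, so one gets an identity of polynomials in `T`,
and one may put `T = q^(-s)`, `s ≥ 1` an integer, and divide by `D(q^(-s)) ≠ 0`:
`∑_S c_S(q) ∏ (q-1)/(q^(N s + ν) - 1) = ∑_{S'} ..`.  Multiply by the product of all
`[N s + ν]` (`(q-1)/(q^k - 1) = 1/[k]`): an identity of exponential sums for all `e ≥ 1`; by (1) the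
values agree: `∑_S χ_S ∏_{d ∈ S} 1/(N s + ν) = ∑_{S'} ..` for all integers `s ≥ 1`.  So the
rational functions `Z` and `Z'` agree at all `s ≥ 1`, hence are equal.  (Instead of multiplying by
`D`, one may evaluate the power series by summation: all coefficients are bounded by
`C q^{..}`; but the algebraic way is shorter.  It is convenient to prove the statement for one list
`L` with `∑_S ser = 0`, taking `L ++ (negative of L')`.) -/
def UNIQ : Prop := ∀ {σ : Type} [Fintype σ] (f : MvPolynomial σ ℤ) (Z Z' : RatFunc ℂ),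
  IsTopZeta f Z → IsTopZeta f Z' → Z = Z'

/-! ### C. Bernstein-Sato polynomials -/

/-- `f + w l` over `ℂ`. -/
noncomputable def stabC {σ : Type} (f : MvPolynomial σ ℂ) : MvPolynomial (Option (Option σ)) ℂ :=
  rename (fun i => some (some i)) f + X none * X (some none)

/-- **DINV** (change of coordinates).  Let `Φ : ℂ[σ] ≃ ℂ[τ]` be the base change of `φ`
(`X i ↦ toC (φ (X i))`, inverse `X j ↦ toC (φ.symm (X j))`; `Φ (toC p) = toC (φ p)`).  For
`P ∈ DS σ` the function `s ↦ Φ ∘ P(s) ∘ Φ⁻¹` is in `DS τ` (induction on `Algebra.adjoin`;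
multiplication by `X i` becomes multiplication by `Φ (X i)`, a polynomial in the multiplications;
`∂_i` becomes the derivation `Φ ∘ ∂_i ∘ Φ⁻¹ = ∑_j Φ(∂_i (Φ⁻¹ X_j)) ∂_j`; `s` becomes `s`).  So
`P(s) f^(s+1) = h b(s) f^s` becomes `P' (Φ f)^(s+1) = Φ(h) b(s) (Φ f)^s`, and
`constantCoeff (Φ h) = constantCoeff h`. -/
def DINV : Prop := ∀ {σ τ : Type} [Fintype σ] [Fintype τ]
  (φ : MvPolynomial σ ℤ ≃ₐ[ℤ] MvPolynomial τ ℤ), Pres φ → ∀ (f : MvPolynomial σ ℤ)
  (b : Polynomial ℂ), IsB (toC f) b → IsB (toC (φ f)) b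

/-- **BST** (functional equation for `F = f + w l`).  Let `E = ∂_w ∘ w` (`w^j ↦ (j+1) w^j`).
(1) For every `P ∈ DS σ` there is `P' ∈ DS (Option (Option σ))` such that for all natural numbers
`j ≤ N`, all `i`, and all `g`: `P'(N) (ι g w^j l^i) = ι (P(N - j) g) w^j l^i` (induction on
`Algebra.adjoin`: `x_i ↦ x_i`, `∂_i ↦ ∂_i`, `s ↦ s + 1 - E`, sums, products, scalars).
(2) Let `P(N) f^(N+1) = h b(N) f^N` and `F^N = ∑_j (N choose j) f^(N-j) (w l)^j`.  With `P'` and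
`b'` (the `P'` of `b(s)`) from (1): `P'(N) (f F^N) = ∑_j (N choose j) ι(P(N-j) f^(N-j+1)) (w l)^j
= h b'(N) F^N`.
(3) `(N+1) w F^N = ∂_l F^(N+1)`, so `(N+1) f F^N = (N+1)(F - w l) F^N = (N + 1 - l ∂_l) F^(N+1)`.
(4) `b'(s) = b(s + 1 - E) = b(s+1) + G E` with `G ∈ DS`, commuting variables `s`, `E` (induction on
`b`), `E F^N = ∂_w (w F^N)`, so `(N+1) b'(N) F^N = (N+1) b(N+1) F^N + G(N) ∂_w ∂_l F^(N+1)`.
(5) Together:
`(N+1) b(N+1) h F^N = P'(N) (N+1-l∂_l) F^(N+1) - h G(N) ∂_w ∂_l F^(N+1)`, an operator in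
`DS (Option (Option σ))` applied to `F^(N+1)`. -/
def BST : Prop := ∀ {σ : Type} [Fintype σ] (f : MvPolynomial σ ℂ) (b : Polynomial ℂ), IsB f b →
  IsB (stabC f) ((Polynomial.X + 1) * b.comp (Polynomial.X + 1))

/-- **ROOT** (`-1` is a root of the Bernstein-Sato polynomial).  Call a function `v : ℕ → ℂ[x]`
good if there are `m` and a polynomial `g` in `s` with coefficients in `ℂ[x]` such that
`v(M) f^m = g(M) f^M` for all `M : ℕ`.  Good functions are closed under sums (raise `m`),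
multiplication by `x_i`, by constants and by `M ↦ M - 1`, and under `∂_i`: from
`v f^m = g(M) f^M` one gets `∂_i v f^(m+1) = (f ∂_i g + M f_i g - m f_i g) f^M`.  So for `P ∈ DS σ`
the function `M ↦ P(M-1) (f^M)` is good (prove by induction on `Algebra.adjoin`: if `v` is good,
`M ↦ P(M-1) v(M)` is good): `P(M-1)(f^M) f^m = g(M) f^M` for all `M ≥ 0`.
For `M = N+1` the functional equation gives `h b(M-1) f^(M-1) f^m = g(M) f^M`, so
`h b(M-1) f^m = f g(M)` for all `M ≥ 1`; both sides are polynomials in `M` with coefficients in the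
domain `ℂ[x]` of characteristic zero, so this holds for `M = 0`: `h b(-1) f^m = f g(0)`.  For `M = 0`
the first equation gives `P(-1)(1) f^m = g(0)`; so `h b(-1) = f P(-1)(1)`, and at the origin
`h(0) b(-1) = 0`.  (`f = 0`: the equation for `N = 0` gives `h b(0) = 0` only; that case is excluded.)
-/
def ROOT : Prop := ∀ {σ : Type} [Fintype σ] (f : MvPolynomial σ ℂ) (b : Polynomial ℂ), f ≠ 0 →
  constantCoeff f = 0 → IsB f b → b.eval (-1) = 0

/-- **CONV** (from `F = f + w l` back to `f`).  `R = ℂ[σ]`, `R' = ℂ[Option (Option σ)]`.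
(0) Let `L f = ℤ →₀ R`, written as Laurent polynomials `∑ g_j τ^j`, with the operators:
multiplication by `r ∈ R`; `∂_i (g τ^j) = (∂_i g) τ^j - g f_i τ^(j+1)` (`f_i = ∂_i f`);
`S (g τ^j) = - f g τ^(j+1) + j g τ^j`.  `S` commutes with the `∂_i` and with `R`.
For `v` supported in `j ≥ 0` let `ev_N v = ∑_j (-1)^j N(N-1)..(N-j+1) g_j f^(N-j)` (`0` for `j > N`).
Then `ev_N (∂_i v) = ∂_i (ev_N v)`, `ev_N (S v) = N ev_N v`, `ev_N (r v) = r ev_N v`,
`ev_N 1 = f^N`, and `ev_N v = 0` for all `N` implies `v = 0` (`ev_N v = (-1)^N N! g_N` if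
`g_0 = .. = g_(N-1) = 0`).  So every `P ∈ DS` has an operator `P^` on `L f`, which preserves the
`v` supported in `j ≥ 0`, with `ev_N (P^ v) = P(N) ev_N v` (induction on `Algebra.adjoin`), and
`P(N) f^(N+1) = h b(N) f^N` for all `N` iff `P^ (f τ^0) = h b(S) τ^0`.  The same for `F` and `R'`.
(1) `π : L F → L f`, `ι(r) w^a l^b τ^j ↦ δ_(a,b) a! r τ^(j-a)`.  Then `π ∂_w = 0`, `π ∂_l = 0`,
`π ∂_i = ∂_i π`, `π r = r π` for `r ∈ R`, `π S = (S - 1) π`.
(2) `π_(cd) v = π (w^c l^d v)`.  For all `Q ∈ DS (Option (Option σ))` and `c, d` there are finitely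
many `P_(c'd') ∈ DS σ` with `π_(cd) (Q^ v) = ∑ P_(c'd')^ π_(c'd') v` for all `v`: induction on
`Algebra.adjoin`: `π_(cd) (w v) = π_(c+1,d) v`, `π_(cd) (∂_w v) = - c π_(c-1,d) v` (as
`w^c l^d ∂_w v = ∂_w (w^c l^d v) - c w^(c-1) l^d v` also in `L F`), same for `l`;
`x_i`, `∂_i` commute with `π_(cd)`, and `π_(cd) S v = (S - 1) π_(cd) v`.
(3) Let `Q(N) F^(N+1) = h' b(N) F^N`, `h'(0) ≠ 0`, so `Q^ (F τ^0) = h' b(S) τ^0`; apply `π`:
`π_(cd) (F τ^0) = δ_(cd) (c! f τ^(-c) + (c+1)! τ^(-c-1))` gives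
`∑_c P_c^ (c! f τ^(-c) + (c+1)! τ^(-c-1)) = b(S - 1) ∑_a a! h'_a τ^(-a)`, where `h'_a ∈ R` is the
coefficient of `(w l)^a` in `h'`; `h'_0(0) = h'(0) ≠ 0`.
(4) `(S + k) τ^(-k) = - f τ^(-k+1)`, so `(S+1)..(S+k) τ^(-k) = (-f)^k`, `k ≥ 0`.  Apply
`Π(S) = (S+1)..(S+C)` with `C` larger than all `c + 1` and `a` in (3): all terms except the one with
`a = 0` become `P^ (f τ^0)` with `P ∈ DS σ` (for `a ≥ 1`: `Π(S) τ^(-a) = (..)(S) (-f)^a` and
`(-f)^a = ± f^(a-1) f`; `Π(S) f τ^(-c) = ± (..)(S) f^c f`).  So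
`h'_0 b(S-1) Π(S) τ^0 = P^ (f τ^0)` for some `P ∈ DS σ`; by (0)
`P(N) f^(N+1) = h'_0 b(N-1) Π(N) f^N` for all `N`. -/
def CONV : Prop := ∀ {σ : Type} [Fintype σ] (f : MvPolynomial σ ℂ) (b : Polynomial ℂ),
  IsB (stabC f) b → ∃ M : ℕ, IsB f ((∏ i ∈ Finset.range M, (Polynomial.X + Polynomial.C ((i : ℂ) + 1))) *
    b.comp (Polynomial.X - 1))

end Pool.Agent.Helper74.HG
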