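import Pool.Agent.Helper74.HG.DefsC
import Pool.Agent.Helper74.HG.Goals

/-!
# Project HG, part 2: goals

Every goal has its proof in words.  Results in `Pool/Agent/<Seat>/HG/<GOAL>.lean`, `theorem t : <GOAL>`.
-/

namespace Pool.Agent.Helper74.HG

open MvPolynomial

/-! ### Arcs and zeta functions -/

/-- **LIK**: as `LIFT` (proved by helper55, `Pool/Agent/Helper55/HG/LIFT.lean`), for coefficients in
`K`. -/
def LIK : Prop := ∀ (K : Type) [Field K] [Finite K] (σ : Type) [Fintype σ],
  (∀ m, (Arc K σ m).ncard = Nat.card K ^ (Fintype.card σ * m)) ∧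
  ∀ (f : MvPolynomial σ K) (m k : ℕ), k ≤ m →
    (JetKO K f m k).ncard = Nat.card K ^ (Fintype.card σ * (m - k)) * cntK K f k

/-- `f + w l` over `K`. -/
noncomputable def stabK {K : Type} [Field K] {σ : Type} (f : MvPolynomial σ K) :
    MvPolynomial (Option (Option σ)) K :=
  rename (fun i => some (some i)) f + X none * X (some none)

/-- **CNK** takes `LIK`, `WL`: as `CNT` (proved by helper63, `Pool/Agent/Helper63/HG/CNT.lean`), for
coefficients in `K`. -/
def CNK : Prop := ∀ (K : Type) [Field K] [Finite K] (σ : Type) [Fintype σ]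
  (f : MvPolynomial σ K), constantCoeff f = 0 → ∀ m : ℕ, 1 ≤ m →
    (cntK K (stabK f) m : ℤ) = (Nat.card K : ℤ) ^ m *
      (((m : ℤ) - 1) * ((Nat.card K : ℤ) - 1) ^ 2 * (Nat.card K : ℤ) ^ (Fintype.card σ * m) +
        (Nat.card K : ℤ) * cntK K f m -
        ∑ k ∈ Finset.range m, ((m : ℤ) - k) * ((Nat.card K : ℤ) - 1) ^ 2 *
          (Nat.card K : ℤ) ^ (Fintype.card σ * (m - k)) * cntK K f k)

/-- **SE2** takes `CNK`: as `SER` (helper80), for complex coefficients.  Let `(s, g, L)` be the data for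
`f`; the data for `f + w l` are `s`, the same with `g`, and the list `L'`: the stratum
`(1, [(1,1),(1,1)])` and for every `(χ, d)` in `L`, `d' = {(N, ν + N)}`: `(χ, d')`, `(0, (1,1) :: d')`,
`(-χ, (1,1) :: (1,1) :: d')` with the weights `1`, `q c`, `-(q-1) c`, `-c`, where
`q = |K|^e = |E|`, `e = [E : K]` (`Module.card_eq_pow_finrank`). -/
def SE2 : Prop := ∀ {σ : Type} [Fintype σ] (f : MvPolynomial σ ℂ), constantCoeff f = 0 →
  ∀ Z : RatFunc ℂ, IsZ f Z → IsZ (stabC f) (stabZ Z)

/-- **ZIS** (isomorphisms), takes `LIK` (for the number of arcs).  Let `s' = s ∪` the coefficients of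
all `φ (X i)` and `φ.symm (X j)`, `A' = Rg s'`.  Over `A'` there are polynomials `p_i ∈ A'[τ]`,
`q_j ∈ A'[σ]` with images `φ (X i)`, `φ.symm (X j)`, constant coefficients `0`, and
`aeval p (q_j) = X j`, `aeval q (p_i) = X i` (check in `ℂ[..]`; `map` along the injective
`A' → ℂ` is injective).  For `ψ : A' → K` one gets mutually inverse substitutions over `K`, and
`x ↦ (j ↦ aeval x (ψ q_j))` is a bijection of `JetK K (ψ g) m` and `JetK K (ψ g') m`, where
`g' = aeval p g` has the image `φ f`, over all extensions `E` of `K` (`map (algebraMap K E)`).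
`Fintype.card σ = Fintype.card τ`: count the arcs for `m = 1` over some finite field
(`LIK`), using any ring iso with these properties over `ZMod 2`..; or from the theory of
transcendence degree / from `MvPolynomial` over the field `ℂ`: e.g. the Jacobian matrices
`∂φ(X_i)/∂X_j (0)`, `∂φ.symm(X_j)/∂X_i (0)` are inverse to each other, so `|σ| = |τ|`
(`Matrix` square: `Matrix.square_of_invertible`); the Jacobian route needs no finite field. -/
def ZIS : Prop := ∀ {σ τ : Type} [Fintype σ] [Fintype τ]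
  (φ : MvPolynomial σ ℂ ≃ₐ[ℂ] MvPolynomial τ ℂ), PresC φ → ∀ (f : MvPolynomial σ ℂ)
  (Z : RatFunc ℂ), IsZ f Z → IsZ (φ f) Z

/-- **ZPK** (product in separate variables, one finite field), takes `LIK`.
`aeval (x, y) (f ⊗ g) = f(x) g(y)` in `Tr K m`; it has order exactly `m` iff
`f(x)` has order exactly `k` and `g(y)` has order exactly `m - k` for some `k ≤ m` (orders in
`K[t]/(t^(m+1))`: write the elements as unit times `t^k`).  By `LIK`:
`cnt (f ⊗ g) m = ∑_{k ≤ m} q^(n (m-k)) cnt f k q^(n' k) cnt g (m-k)`, so the normalised series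
multiply. -/
def ZPK : Prop := ∀ (K : Type) [Field K] [Finite K] {σ τ : Type} [Fintype σ] [Fintype τ]
  (f : MvPolynomial σ K) (g : MvPolynomial τ K) (m : ℕ),
  (cntK K (rename Sum.inl f * rename Sum.inr g) m : ℂ) /
      (Nat.card K : ℂ) ^ (Fintype.card (σ ⊕ τ) * m) =
    ∑ p ∈ Finset.HasAntidiagonal.antidiagonal m,
      ((cntK K f p.1 : ℂ) / (Nat.card K : ℂ) ^ (Fintype.card σ * p.1)) *
      ((cntK K g p.2 : ℂ) / (Nat.card K : ℂ) ^ (Fintype.card τ * p.2))

/-- **ZPR** (product rule), takes `ZPK`.  Let `s'' = s ∪ s'` and restrict `ψ : Rg s'' → K` to `Rg s`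
and `Rg s'`; new list: all `(χ χ', d ++ d')` with the weights `c c'` (`ExpVal` is multiplicative:
`c(e) c'(e) = ∑_{i,j} m_i m'_j (a_i a'_j)^e`); `PowerSeries.coeff_mul`, and the sum over the product
list is the product of the sums; same for `ratS`. -/
def ZPR : Prop := ∀ {σ τ : Type} [Fintype σ] [Fintype τ] (f : MvPolynomial σ ℂ)
  (g : MvPolynomial τ ℂ) (Z Z' : RatFunc ℂ), IsZ f Z → IsZ g Z' →
    IsZ (rename Sum.inl f * rename Sum.inr g) (Z * Z')

/-- **ZPI** takes `ZPR`, `ZIS`: induction on the finite type `ι` (along `Fin n`, or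
`Finite.induction_empty_option`), `ι` empty: `f = 1`, `Z = 1` (`cnt 1 m = 0` for `m ≥ 1`, `1` for
`m = 0`; list `[(1, [])]`); `Option ι × σ ≃ (ι × σ) ⊕ σ`. -/
def ZPI : Prop := ∀ {σ : Type} [Fintype σ] (ι : Type) [Fintype ι] (f : ι → MvPolynomial σ ℂ)
  (Z : ι → RatFunc ℂ), (∀ i, IsZ (f i) (Z i)) →
    IsZ (∏ i, rename (fun x => (i, x)) (f i)) (∏ i, Z i)

/-- **ZSC** (constant factors). `s' = s ∪ {c, c⁻¹}`; `ψ c` is a unit, so the sets `JetK` for
`C (ψ c) * ψ g` and `ψ g` are equal. -/
def ZSC : Prop := ∀ {σ : Type} [Fintype σ] (c : ℂ), c ≠ 0 → ∀ (f : MvPolynomial σ ℂ)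
  (Z : RatFunc ℂ), IsZ f Z → IsZ (C c * f) Z

/-- **ZSP** (specialisation). Let `(s, g, L)` be the data for `f`, `s' ⊇ s`, `θ : Rg s' → ℂ`.  The
image of `Rg s'` under `θ` is `Rg (θ s')` (`s'' = s'.attach.image θ`, `Subring.closure` and
`RingHom.map_closure`).  The data for `map θ g'` are `s''`, the image of `g` and `L`: a
homomorphism `ψ : Rg s'' → K` gives `Rg s → Rg s' → Rg s'' → K`.  (`g'` is the image of `g` in
`Rg s'`, by injectivity of `map (Rg s').subtype`.) -/
def ZSP : Prop := ∀ {σ : Type} [Fintype σ] (f : MvPolynomial σ ℂ) (Z : RatFunc ℂ), IsZ f Z →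
  ∃ s : Finset ℂ, ∀ s' : Finset ℂ, s ⊆ s' → ∀ (θ : Rg s' →+* ℂ)
    (g' : MvPolynomial σ (Rg s')), map (Rg s').subtype g' = f → IsZ (map θ g') Z

/-! ### Bernstein-Sato polynomials -/

/-- **BIS** (isomorphisms): see the proof of `DINV` (helper50, `Pool/Agent/Helper50/HG/DINV.lean`),
for isomorphisms over `ℂ`. -/
def BIS : Prop := ∀ {σ τ : Type} [Fintype σ] [Fintype τ]
  (φ : MvPolynomial σ ℂ ≃ₐ[ℂ] MvPolynomial τ ℂ), PresC φ → ∀ (f : MvPolynomial σ ℂ)
  (b : Polynomial ℚ), IsBk ℂ f b → IsBk ℂ (φ f) b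

/-- **BPI** (products in separate variables).  For `i : ι` and `P ∈ DSk ℂ σ` there is
`P' ∈ DSk ℂ (ι × σ)` with `P'(s) (rename (i, ·) p * q) = rename (i, ·) (P(s) p) * q` for all `q` in
the variables `(j, x)`, `j ≠ i` (that is `∂_(i,x) q = 0` for all `x`); induction on
`Algebra.adjoin`, `x ↦ X (i, x)`, `∂_x ↦ ∂_(i,x)`, `s ↦ s`.  The product of the `P'_i` over `i ∈ ι`
(in any order, induction on the list/finset) maps `∏ f_i^(N+1)` to `∏ b_i(N) h_i f_i^N`. -/
def BPI : Prop := ∀ {σ : Type} [Fintype σ] (ι : Type) [Fintype ι] (f : ι → MvPolynomial σ ℂ)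
  (b : ι → Polynomial ℚ), (∀ i, IsBk ℂ (f i) (b i)) →
    IsBk ℂ (∏ i, rename (fun x => (i, x)) (f i)) (∏ i, b i)

/-- **BSC** (constant factors): the same `P`, and `c h` instead of `h`. -/
def BSC : Prop := ∀ {σ : Type} (c : ℂ), c ≠ 0 → ∀ (f : MvPolynomial σ ℂ) (b : Polynomial ℚ),
  IsBk ℂ f b → IsBk ℂ (C c * f) b

/-- **BID** (the ideal is principal): `{b | IsBk k f b}` is an ideal of `ℚ[s]`: for sums use
`h = h₁ h₂`, `P = h₂ P₁ + h₁ P₂` (multiplication by a polynomial and evaluation
`s ↦ r(s)`, `r ∈ ℚ[s]`, are in `DSk`); for multiples `r b` use `r(s) P`. `Submodule.IsPrincipal`. -/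
def BID : Prop := ∀ {σ : Type} (f : MvPolynomial σ ℂ), ∃ b₀ : Polynomial ℚ, IsBk ℂ f b₀ ∧
  ∀ b, IsBk ℂ f b → b₀ ∣ b

/-- **BSP** (specialisation).  Let `P(N) f^(N+1) = b(N) h f^N`.  `P` is the value of a noncommutative
polynomial in the generators `x_i`, `∂_i`, `s` with coefficients in a finite set `c` of complex
numbers (for example: for a subring `A ⊂ ℂ` let `Sp A ⊂ (ℂ → End ℂ[x])` be the set of the `P` such
that for every field `k` of characteristic zero and every `θ : A → k` there is `P_θ ∈ DSk k σ` with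
`P_θ (N) (map θ p) = map θ q` whenever `p q ∈ A[x]` and `P(N) (map subtype p) = map subtype q`, and
such that `P(N)` maps `A[x]` to itself for all natural numbers `N`; show by induction on
`Algebra.adjoin` that every `P ∈ DSk ℂ σ` is in `Sp (Rg s)` for all sufficiently large finite `s`:
the generators are in all `Sp A`, scalars `c` need `c ∈ s`, sums and products: union of the two
sets `s`).  Let `s` also contain the coefficients of `f` and `h` and `1 / h(0)`.  For
`θ : Rg s' → ℂ` apply `θ` to the equation: `P_θ(N) (θ f)^(N+1) = b(N) (θ h) (θ f)^N`; the rational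
number `b(N)`: for every `N` with the equation in `Rg s'[x]`, the factor `b(N)` occurs; to keep it in
the ring let `s` contain `1/D`, `D` a common denominator of the coefficients of `b` (`θ` is the
identity on rational numbers in `Rg s'`).  `(θ h)(0) ≠ 0`, because `h(0)` is a unit in `Rg s'`. -/
def BSP : Prop := ∀ {σ : Type} [Fintype σ] (f : MvPolynomial σ ℂ) (b : Polynomial ℚ),
  IsBk ℂ f b → ∃ s : Finset ℂ, ∀ s' : Finset ℂ, s ⊆ s' →
    ∀ (θ : Rg s' →+* ℂ) (g' : MvPolynomial σ (Rg s')), map (Rg s').subtype g' = f →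
      IsBk ℂ (map θ g') b

/-! ### Arithmetic -/

/-- **NUL** (Nullstellensatz).  Let `B` be the `Qc`-subalgebra of `ℂ` generated by `s`: a domain of
finite type over the algebraically closed field `Qc`.  It has a maximal ideal, the quotient is a
finite extension of `Qc` (`finite_of_finite_type_of_isJacobsonRing`), hence equal to `Qc`; so there
is a `Qc`-algebra homomorphism `B → Qc`; restrict it to `Rg s ⊂ B`. -/
def NUL : Prop := ∀ s : Finset ℂ, ∃ θ : Rg s →+* Qc, ∀ (x : Rg s) (y : Qc),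
  (x : ℂ) = inQ y → θ x = y

/-- **FIN** (finite residue fields).  `Rg s` is a nonzero commutative ring of finite type over `ℤ`; it
has a maximal ideal `m`, and the field `F = Rg s / m` is of finite type over `ℤ`.  If `F` has
characteristic `p`, it is of finite type over `ZMod p`, so finite
(`finite_of_finite_type_of_isJacobsonRing`).  If it has characteristic zero: `ℤ → F` factors through
`ℚ`; `F` is of finite type over `ℚ`, so finite over `ℚ`; then `ℚ` would be of finite type over `ℤ`
(Artin-Tate: `F` finite over `ℚ` and of finite type over `ℤ`; or directly: the generators of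
`F` are integral over `ℤ[1/D]`, so `F` is integral over `ℤ[1/D]`, so `ℤ[1/D]` is a field,
contradiction; or use `IsJacobsonRing ℤ`, if it is in Mathlib, with
`finite_of_finite_type_of_isJacobsonRing ℤ F`: then `F` is a finite `ℤ`-module, and `ℚ ⊂ F` is not
finitely generated over `ℤ`). -/
def FIN : Prop := ∀ s : Finset ℂ, ∃ (K : Type) (_ : Field K) (_ : Finite K), Nonempty (Rg s →+* K)

/-- **NRM** (norms).  Let `K ⊂ Qc` be a finite Galois extension of `ℚ` which contains the coefficients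
of `f₀` (normal closure of the field generated by them), `G = Gal(K/ℚ)`, and for `τ ∈ G` let `ρ_τ` be
an extension to `Qc` (`AlgEquiv.liftNormal`).  Let `(e_υ)` be a basis of `K/ℚ`, indexed by `G`
(`|G| = [K : ℚ]`).  The matrix `(τ(e_υ))_{τ,υ}` is invertible (`Algebra.discr_not_zero_of_basis`,
`Algebra.discr_eq_det_embeddingsMatrixReindex_pow_two`, or linear independence of the
automorphisms), so `X (τ, x) ↦ ∑_υ τ(e_υ) X (υ, x)` defines an automorphism `φ` of `ℂ[G × σ]`
(inverse: the inverse matrix) with `PresC φ`.  `F' = φ (∏_τ rename (τ, ·) (τ f₀)) =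
∏_τ (τ f₀)(∑_υ τ(e_υ) X (υ, ·))` has coefficients in `K`, and `υ'` in `G` permutes the factors, so
its coefficients are rational (`IsGalois.mem_bot_iff_fixed`); `F = D F'` with a common denominator
`D`. -/
def NRM : Prop := ∀ {σ : Type} [Fintype σ] (f₀ : MvPolynomial σ Qc),
  ∃ (ι : Type) (_ : Fintype ι) (_ : Nonempty ι) (ρ : ι → (Qc ≃ₐ[ℚ] Qc))
    (F : MvPolynomial (ι × σ) ℤ) (c : ℂ) (φ : MvPolynomial (ι × σ) ℂ ≃ₐ[ℂ] MvPolynomial (ι × σ) ℂ),
    c ≠ 0 ∧ PresC φ ∧ toC F = C c * φ (∏ i, rename (fun x => (i, x))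
      (map inQ (map (ρ i : Qc →+* Qc) f₀)))

/-- **UNF** (uniqueness, for one finite field): see the proof of `UNIQ` (helper87,
`Pool/Agent/Helper87/HG/UNIQ.lean`).  For every `e ≥ 1` the field `K` has an extension `E` with
`[E : K] = e` (in `Type`). -/
def UNF : Prop := ∀ (K : Type) [Field K] [Finite K] {σ : Type} [Fintype σ]
  (f : MvPolynomial σ K) (L L' : List Str), PosD L → PosD L' → Form K f L → Form K f L' →
    (L.map ratS).sum = (L'.map ratS).sum

end Pool.Agent.Helper74.HG
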