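import Pool.Agent.Helper74.HG.DefsG
import Pool.Agent.Helper74.HG.GoalsC

/-!
# Project HG, part 3: goals (global and `p`-adic versions)

Results in `Pool/Agent/<Seat>/HG/<GOAL>.lean`, namespace `Pool.Agent.<Seat>.HG.<GOAL>`,
`theorem t : <GOAL>`.  Most goals are variants of goals which are proved; the file with the old proof
is named, copy it and change it.
-/

namespace Pool.Agent.Helper74.HG

open MvPolynomial

/-! ### A. Algebra (over `ℤ`) -/

/-- **ISOG** as `ISO` (`Pool/Agent/Helper2/HG/TRA.lean`) without `Pres`. -/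
def ISOG : Prop := ∀ {σ τ : Type} (φ : MvPolynomial σ ℤ ≃ₐ[ℤ] MvPolynomial τ ℤ)
  (f : MvPolynomial σ ℤ), RedG f (φ f)

/-- **TRAG** as `TRA` (`Pool/Agent/Helper2/HG/TRA.lean`) without `Pres`. -/
def TRAG : Prop := ∀ {σ τ υ : Type} (f : MvPolynomial σ ℤ) (g : MvPolynomial τ ℤ)
  (h : MvPolynomial υ ℤ), RedG f g → RedG g h → RedG f h

/-- **STEG** as `STE` (`Pool/Agent/Helper61/HG/STE.lean`), without the conditions on `a`, `b`. -/
def STEG : Prop := ∀ {σ : Type} (f₀ a b : MvPolynomial σ ℤ) (c : ℤ),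
  RedG (f₀ + C c * a * b)
    (rename (fun i => some (some i)) f₀ + rename (fun i => some (some i)) a * X (some none) -
      C c * X none * rename (fun i => some (some i)) b + X none * X (some none) :
      MvPolynomial (Option (Option σ)) ℤ)

/-- **WDG** (words to hypergraphs), takes `TRAG`, `STEG`, `ISOG`; as `WD`
(`Pool/Agent/Helper84/HG/WD.lean`), now for words of arbitrary length (including `0` and `1`) and
edges with one, two or three vertices.  New rules: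
* `-X_i` (word of length one, sign `-1`): step with `a = X_i`, `b = 1`, `c = -1`:
  `X_i l + w + w l`: the edges `{i,l}, {w}, {w,l}`.
* `X_i`: step with `a = X_i`, `b = 1`, `c = 1`: `X_i l - w + w l`, and then the previous rule for
  `-w`: `w l' + w' + w' l'`.
* the empty word with sign `-1`: `a = b = 1`, `c = -1`: `l + w + w l`: the edges `{l}, {w}, {w,l}`.
* the empty word with sign `1`: `a = b = 1`, `c = 1`: `l - w + w l`, and then the rule for `-w`.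
(All new edges contain a new variable.) -/
def WDG : Prop := ∀ (σ : Type) [Fintype σ] (H : Finset (Finset σ)) (L : List (ℤ × List σ)),
  Rk3 H → (∀ p ∈ L, p.1 = 1 ∨ p.1 = -1) →
  ∃ (τ : Type) (_ : Fintype τ) (H' : Finset (Finset τ)), Rk3 H' ∧
    RedG (hyp H + (L.map wp).sum) (hyp H')

/-- **LIG** as `LI` (`Pool/Agent/Helper59/HG/LI.lean`), for all polynomials. -/
def LIG : Prop := ∀ {σ : Type} (f : MvPolynomial σ ℤ),
  ∃ L : List (ℤ × List σ), (∀ p ∈ L, p.1 = 1 ∨ p.1 = -1) ∧ f = (L.map wp).sum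

/-- **DEGG** takes `TRAG`, `STEG`, `ISOG`; as `DEG` (`Pool/Agent/Helper91/HG/DEG.lean`) for
hypergraphs with edges with one, two or three vertices (the same two steps; `b` may have a constant
term now; an edge `{x}` in `B` becomes `{w'}`). -/
def DEGG : Prop := ∀ (σ : Type) [Fintype σ] (H : Finset (Finset σ)), Rk3 H →
  ∃ (τ : Type) (_ : Fintype τ) (H' : Finset (Finset τ)), Rk3 H' ∧ Sub3 H' ∧
    RedG (hyp H) (hyp H')

/-- **MATG** takes `TRAG`, `STEG`, `ISOG`; as `MAT` (`Pool/Agent/Helper73/HG/MAT.lean`) for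
hypergraphs with edges with one, two or three vertices. -/
def MATG : Prop := ∀ (σ : Type) [Fintype σ] (H : Finset (Finset σ)), Rk3 H → Sub3 H →
  ∃ (τ : Type) (_ : Fintype τ) (H' : Finset (Finset τ)), Rk3 H' ∧ Sub3 H' ∧ Mat3 H' ∧
    RedG (hyp H) (hyp H')

/-! ### B. Counting arcs -/

/-- **LIKG** as `LIK` (`Pool/Agent/Helper66/HG/LIK.lean`) for all arcs (not only those at the
origin). -/
def LIKG : Prop := ∀ (K : Type) [Field K] [Finite K] (σ : Type) [Fintype σ],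
  (∀ m, Nat.card (σ → Tr K m) = Nat.card K ^ (Fintype.card σ * (m + 1))) ∧
  ∀ (f : MvPolynomial σ K) (m k : ℕ), k ≤ m →
    (JetGO K f m k).ncard = Nat.card K ^ (Fintype.card σ * (m - k)) * cntG K f k

/-- **CHW** (pairs with a given product in a finite chain ring).  Every element is a unit times a
power of `π`.  Let `c` have order `k < M` (`c ∈ (π^k)`, `c ∉ (π^(k+1))`).  For `w` of order `j < M`
(`q^(M-j) - q^(M-j-1)` elements) the map `l ↦ w l` has the image `(π^j)` and its fibres have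
`q^M / q^(M-j) = q^j` elements; so `w l = c` has `q^j` solutions if `j ≤ k` and none if `j > k`;
`w = 0` has none.  In total `∑_{j ≤ k} (q^(M-j) - q^(M-j-1)) q^j = (k+1)(q^M - q^(M-1))`.  For `c = 0`:
`∑_{j < M} (q^(M-j) - q^(M-j-1)) q^j + q^M`. -/
def CHW : Prop := ∀ (R : Type) [CommRing R] [Finite R] (π : R) (q M : ℕ), 1 ≤ M → 1 < q →
  (∀ k, k ≤ M → Nat.card (Ideal.span {π ^ k} : Ideal R) = q ^ (M - k)) →
  (∀ x : R, ∃ (u : Rˣ) (k : ℕ), k ≤ M ∧ x = u * π ^ k) →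
  (∀ k, k < M → ∀ c : R, c ∈ Ideal.span {π ^ k} → c ∉ Ideal.span {π ^ (k + 1)} →
    {p : R × R | p.1 * p.2 = c}.ncard = (k + 1) * (q ^ M - q ^ (M - 1))) ∧
  {p : R × R | p.1 * p.2 = 0}.ncard = M * (q ^ M - q ^ (M - 1)) + q ^ M

/-- **CNKG** takes `LIKG`, `CHW` (for `R = Tr K m`, `π = tt K m`, `M = m + 1`, `q = |K|`).  Compare
`CNK` (`Pool/Agent/Helper55/HG/CNK.lean`).  Count the `(x, w, l)` with `f(x) + w l = c` for some
`c ∈ (t^m) \ 0` (`q - 1` values).  For fixed `x`: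
* `f(x)` of order `k < m`: `c - f(x)` has order `k`; `(q-1)(k+1)(q^(m+1) - q^m)` triples;
* `f(x)` of order `m`: `c = f(x)` gives `(m+1)(q^(m+1) - q^m) + q^(m+1)`, the other `q - 2` values `c`
  give `(m+1)(q^(m+1) - q^m)` each; in total `((m+1)(q-1)² + q) q^m`;
* `f(x) = 0`: `(q-1)(m+1)(q^(m+1) - q^m)`.
The number of `x` with `f(x)` of order `k` is `q^(n(m-k)) cntG f k` (`LIKG`), and there are
`q^(n(m+1))` points `x`. -/
def CNKG : Prop := ∀ (K : Type) [Field K] [Finite K] (σ : Type) [Fintype σ]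
  (f : MvPolynomial σ K) (m : ℕ),
    (cntG K (stabK f) m : ℤ) = (Nat.card K : ℤ) ^ m *
      (((m : ℤ) + 1) * ((Nat.card K : ℤ) - 1) ^ 2 * (Nat.card K : ℤ) ^ (Fintype.card σ * (m + 1)) +
        (Nat.card K : ℤ) * cntG K f m -
        ∑ k ∈ Finset.range m, ((m : ℤ) - k) * ((Nat.card K : ℤ) - 1) ^ 2 *
          (Nat.card K : ℤ) ^ (Fintype.card σ * (m - k)) * cntG K f k)

/-- **SE2G** takes `CNKG`; as `SE2` (`Pool/Agent/Helper80/HG/SE2.lean`).  With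
`a_m = cntG f m / q^(n m)`, `Q = 1/q`, `z = ∑ a_m T^m`, `C = fac q (1,1)`:
`a'_m = Q^m (q^n (m+1)(q-1)² + q a_m - (q-1)² ∑_{k<m} (m-k) a_k)`, so
`z'(T) = q^n ((q-1) + C)² + (q - (q-1) C - C²) z(Q T)` (`(q-1) + C = (q-1)/(1 - Q T)`).  The new
strata are those of `SE2` and, instead of `(1, [(1,1),(1,1)])` with weight `1`:
`(0, [])` with the weight `q^n (q-1)²`, `(0, [(1,1)])` with the weight `2 q^n (q-1)`,
`(1, [(1,1),(1,1)])` with the weight `q^n`; `q = |K|^e`. -/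
def SE2G : Prop := ∀ {σ : Type} [Fintype σ] (f : MvPolynomial σ ℂ) (Z : RatFunc ℂ), IsZG f Z →
  IsZG (stabC f) (stabZ Z)

/-- **ZISG** as `ZIS` (`Pool/Agent/Helper43/HG/ZIS.lean`), all isomorphisms.  (For the numbers of
variables: compose with a translation to reduce to isomorphisms which preserve the origin, or count
the points over a finite field: the substitution is a bijection of `K^σ` and `K^τ`.) -/
def ZISG : Prop := ∀ {σ τ : Type} [Fintype σ] [Fintype τ]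
  (φ : MvPolynomial σ ℂ ≃ₐ[ℂ] MvPolynomial τ ℂ) (f : MvPolynomial σ ℂ)
  (Z : RatFunc ℂ), IsZG f Z → IsZG (φ f) Z

/-- **ZPKG** takes `LIKG`; as `ZPK` (`Pool/Agent/Helper71/HG/ZPK.lean`). -/
def ZPKG : Prop := ∀ (K : Type) [Field K] [Finite K] {σ τ : Type} [Fintype σ] [Fintype τ]
  (f : MvPolynomial σ K) (g : MvPolynomial τ K) (m : ℕ),
  (cntG K (rename Sum.inl f * rename Sum.inr g) m : ℂ) /
      (Nat.card K : ℂ) ^ (Fintype.card (σ ⊕ τ) * m) =
    ∑ p ∈ Finset.HasAntidiagonal.antidiagonal m,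
      ((cntG K f p.1 : ℂ) / (Nat.card K : ℂ) ^ (Fintype.card σ * p.1)) *
      ((cntG K g p.2 : ℂ) / (Nat.card K : ℂ) ^ (Fintype.card τ * p.2))

/-- **ZPRG** takes `ZPKG`; as `ZPR` (`Pool/Agent/Helper7/HG/ZPR.lean`). -/
def ZPRG : Prop := ∀ {σ τ : Type} [Fintype σ] [Fintype τ] (f : MvPolynomial σ ℂ)
  (g : MvPolynomial τ ℂ) (Z Z' : RatFunc ℂ), IsZG f Z → IsZG g Z' →
    IsZG (rename Sum.inl f * rename Sum.inr g) (Z * Z')

/-- **ZPIG** takes `ZPRG`, `ZISG`; as `ZPI` (`Pool/Agent/Helper58/HG/ZPI.lean`). -/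
def ZPIG : Prop := ∀ {σ : Type} [Fintype σ] (ι : Type) [Fintype ι] (f : ι → MvPolynomial σ ℂ)
  (Z : ι → RatFunc ℂ), (∀ i, IsZG (f i) (Z i)) →
    IsZG (∏ i, rename (fun x => (i, x)) (f i)) (∏ i, Z i)

/-- **ZSCG** as `ZSC` (`Pool/Agent/Helper74/HG/ZSCx.lean`). -/
def ZSCG : Prop := ∀ {σ : Type} [Fintype σ] (c : ℂ), c ≠ 0 → ∀ (f : MvPolynomial σ ℂ)
  (Z : RatFunc ℂ), IsZG f Z → IsZG (C c * f) Z

/-- **ZSPG** as `ZSP` (`Pool/Agent/Helper99/HG/ZSP.lean`). -/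
def ZSPG : Prop := ∀ {σ : Type} [Fintype σ] (f : MvPolynomial σ ℂ) (Z : RatFunc ℂ), IsZG f Z →
  ∃ s : Finset ℂ, ∀ s' : Finset ℂ, s ⊆ s' → ∀ (θ : Rg s' →+* ℂ)
    (g' : MvPolynomial σ (Rg s')), map (Rg s').subtype g' = f → IsZG (map θ g') Z

/-- **UNFG** as `UNF` (`Pool/Agent/Helper32/HG/UNF.lean`). -/
def UNFG : Prop := ∀ (K : Type) [Field K] [Finite K] {σ : Type} [Fintype σ]
  (f : MvPolynomial σ K) (L L' : List Str), PosD L → PosD L' → FormG K f L → FormG K f L' →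
    (L.map ratS).sum = (L'.map ratS).sum

/-- **POLE2** as `POLE` (`Pool/Agent/Helper97/HG/POLE.lean`) for all `s₀` except `0, 1, -1`. -/
def POLE2 : Prop := ∀ (Z : RatFunc ℂ) (s₀ : ℂ), s₀ ≠ 0 → s₀ ≠ 1 → s₀ ≠ -1 →
  (Z.denom.IsRoot s₀ ↔ (stabZ Z).denom.IsRoot (s₀ - 1))

/-- **NEG** (poles are negative rational numbers): the rational functions `p / q` with
`q(s₀) ≠ 0` form a ring, and it contains all `1 / (N s + ν)` with `N s₀ + ν ≠ 0`. -/
def NEG : Prop := ∀ (L : List Str), PosD L → ∀ s₀ : ℂ, ((L.map ratS).sum).denom.IsRoot s₀ →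
  ∃ N ν : ℕ, 0 < N ∧ 0 < ν ∧ (N : ℂ) * s₀ + ν = 0

/-! ### C. Bernstein-Sato polynomials -/

/-- **BISG** as `BIS` (`Pool/Agent/Helper46/HG/BIS.lean`; or DINV, helper50), `h = 1`, all
isomorphisms, `b ∈ ℂ[s]`. -/
def BISG : Prop := ∀ {σ τ : Type} [Fintype σ] [Fintype τ]
  (φ : MvPolynomial σ ℂ ≃ₐ[ℂ] MvPolynomial τ ℂ) (f : MvPolynomial σ ℂ)
  (b : Polynomial ℂ), IsG f b → IsG (φ f) b

/-- **BPIG** as `BPI` (`Pool/Agent/Helper41/HG/BPI.lean`), `h = 1`. -/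
def BPIG : Prop := ∀ {σ : Type} [Fintype σ] (ι : Type) [Fintype ι] (f : ι → MvPolynomial σ ℂ)
  (b : ι → Polynomial ℚ), (∀ i, IsBG ℂ (f i) (b i)) →
    IsBG ℂ (∏ i, rename (fun x => (i, x)) (f i)) (∏ i, b i)

/-- **BSCG** as `BSC` (`Pool/Agent/Helper74/HG/ZSCx.lean`), `h = 1` (replace `P` by `c⁻¹ P`). -/
def BSCG : Prop := ∀ {σ : Type} (c : ℂ), c ≠ 0 → ∀ (f : MvPolynomial σ ℂ) (b : Polynomial ℚ),
  IsBG ℂ f b → IsBG ℂ (C c * f) b

/-- **BIDG** as `BID` (`Pool/Agent/Helper73/HG/BID.lean`), `h = 1`. -/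
def BIDG : Prop := ∀ {σ : Type} (f : MvPolynomial σ ℂ), ∃ b₀ : Polynomial ℚ, IsBG ℂ f b₀ ∧
  ∀ b, IsBG ℂ f b → b₀ ∣ b

/-- **BSPG** as `BSP` (`Pool/Agent/Helper1/HG/BSP.lean`), `h = 1`. -/
def BSPG : Prop := ∀ {σ : Type} [Fintype σ] (f : MvPolynomial σ ℂ) (b : Polynomial ℚ),
  IsBG ℂ f b → ∃ s : Finset ℂ, ∀ s' : Finset ℂ, s ⊆ s' →
    ∀ (θ : Rg s' →+* ℂ) (g' : MvPolynomial σ (Rg s')), map (Rg s').subtype g' = f →
      IsBG ℂ (map θ g') b

/-- **BSTG** as `BST` (`Pool/Agent/Helper58/HG/BST.lean`), `h = 1`. -/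
def BSTG : Prop := ∀ {σ : Type} [Fintype σ] (f : MvPolynomial σ ℂ) (b : Polynomial ℂ), IsG f b →
  IsG (stabC f) ((Polynomial.X + 1) * b.comp (Polynomial.X + 1))

/-- **ROOTG** as `ROOT` (`Pool/Agent/Helper75/HG/ROOT.lean`): `f P(-1)(1) = b(-1)`, and if
`b(-1) ≠ 0`, then `f` is a unit, so constant. -/
def ROOTG : Prop := ∀ {σ : Type} [Fintype σ] (f : MvPolynomial σ ℂ) (b : Polynomial ℂ),
  (∀ c, f ≠ C c) → IsG f b → b.eval (-1) = 0

/-- **BST2** (the refined functional equation).  Let `P(N) f^(N+1) = (N+1) b(N) f^N`.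
(1) As in `ROOT` (`Pool/Agent/Helper75/HG/ROOT.lean`): `f P(-1)(1) = 0`, so `P(-1)(1) = 0`.
(2) Every `P ∈ DS σ` is `P(s) = (s+1) Q(s) + ∑ R_i(s) ∂_i + r` with `Q, R_i ∈ DS σ`, `r ∈ ℂ[x]`.  Let
`S` be the set of the `P` such that for every `g ∈ ℂ[x]` the product `P g` (first multiply by `g`)
is of this form; `S` is closed under sums and products
(`P₁ P₂ g = P₁ ((s+1) Q + ∑ R_i ∂_i + r)`, and `P₁ r` is of this form) and contains
`x_i`, `∂_i` (`∂_i g = g ∂_i + (∂_i g)`), `s` (`s g = (s+1) g - g`) and the constants.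
(3) `r = P(-1)(1) = 0`.  `∂_i f^(N+1) = (N+1) f_i f^N` (`f_i = ∂_i f`), so
`b(N) f^N = (Q(N) f + ∑ R_i(N) f_i) f^N`.
(4) Lift to `F = f + w l` as in (1), (2) of `BST` (`lift` in `Pool/Agent/Helper58/HG/BST.lean`: for
`P ∈ DS σ` there is `P'` with `P'(N) (ι g w^j l^i) = ι (P(N-j) g) w^j l^i`; `F^N = ∑ (N choose j)
f^(N-j) (w l)^j`): `b'(N) F^N = (Q'(N) ι f + ∑ R_i'(N) ι f_i) F^N` (for `j ≤ N`, from (3) with `N-j`),
`b'(s) = b(s + 1 - E) = b(s+1) + G(s) E`, `E = ∂_w w`; so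
`b(N+1) F^N = Q'(N) (ι f F^N) + ∑ R_i'(N) (ι f_i F^N) - G(N) ∂_w (w F^N)`.
(5) Multiply by `N+1`: `(N+1) ι f_i F^N = ∂_i F^(N+1)`, `(N+1) w F^N = ∂_l F^(N+1)`,
`(N+1) ι f F^N = (N+1 - l ∂_l) F^(N+1)`; `Q'`, `R'_i`, `G` are linear. -/
def BST2 : Prop := ∀ {σ : Type} [Fintype σ] (f : MvPolynomial σ ℂ) (b : Polynomial ℂ), f ≠ 0 →
  IsG f ((Polynomial.X + 1) * b) → IsG (stabC f) ((Polynomial.X + 1) * b.comp (Polynomial.X + 1))

/-! ### D. `p`-adic zeta functions -/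

/-- **PCN** takes `CHW` (for `R = ZMod (p^m)`, `π = p`, `M = m`, `q = p`, if `m ≥ 1`).  For a point
`x` with `f(x)` of order `k < m` (in `(p^k)`, not in `(p^(k+1))`) the equation `f(x) + w l = 0` has
`(k+1)(p^m - p^(m-1))` solutions, and if `f(x) = 0`, `m (p^m - p^(m-1)) + p^m`; in both cases it is
`(p^m - p^(m-1)) #{j < m | f(x) ∈ (p^j)} + p^m [f(x) = 0]`.  Sum over `x`: the number of `x` modulo `p^m`
with `f(x) ∈ (p^j)` is `p^(n(m-j)) sol f p j` (reduction modulo `p^j`). -/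
def PCN : Prop := ∀ {σ : Type} [Fintype σ] (f : MvPolynomial σ ℤ) (p : ℕ) [Fact p.Prime] (m : ℕ),
  (sol (stab1 f) p m : ℤ) = (p : ℤ) ^ m * sol f p m +
    ∑ k ∈ Finset.range m, ((p : ℤ) ^ m - (p : ℤ) ^ (m - 1)) *
      (p : ℤ) ^ (Fintype.card σ * (m - k)) * sol f p k

/-- **PSR** takes `PCN`.  With `a_m = sol f p m / p^(n m)`, `u = 1/p`:
`a'_m = u^m (a_m + (1 - u) ∑_{k<m} a_k)`, so the series is
`a(uT) (1 + (1-u) uT / (1 - uT)) = a(uT) (1 - u² T) / (1 - uT)`. -/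
def PSR : Prop := ∀ {σ : Type} [Fintype σ] (f : MvPolynomial σ ℤ) (p : ℕ) [Fact p.Prime],
  (1 - PowerSeries.C ((p : ℂ)⁻¹) * PowerSeries.X) * poin (stab1 f) p =
    (1 - PowerSeries.C (((p : ℂ)⁻¹) ^ 2) * PowerSeries.X) *
      PowerSeries.rescale ((p : ℂ)⁻¹) (poin f p)

/-- **PIS** (change of coordinates).  `x ↦ (j ↦ aeval x (φ.symm (X j)))` is a bijection of the
solutions of `f` and `φ f` modulo `p^m`, and of all points; so `p^(m |σ|) = p^(m |τ|)`. -/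
def PIS : Prop := ∀ {σ τ : Type} [Fintype σ] [Fintype τ]
  (φ : MvPolynomial σ ℤ ≃ₐ[ℤ] MvPolynomial τ ℤ) (f : MvPolynomial σ ℤ) (p : ℕ) [Fact p.Prime],
  poin (φ f) p = poin f p

/-- **PAZ** (the solutions have density zero).  Induction on the number of variables
(`Fin n`, `finSuccEquiv`; transport along `σ ≃ Fin n`).  Let `f = ∑_{j ≤ d} c_j(x') x₀^j`, `c_d ≠ 0`;
choose `k` such that the density of `c_d(x') ≡ 0` modulo `p^k` is small (induction).  For the other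
`x'`: if `x₀` runs over `d+1` zeros modulo `p^m` of the polynomial `g = f(·, x')` of degree `d` which
are pairwise different modulo `p^r`, then `p^(m - d r)` divides the leading coefficient (induction on
`d`: `g(x) = g(x_0) + (x - x_0) g₁(x)`, `g₁` of degree `d - 1` with the same leading coefficient;
`p^(m-r) ∣ g₁(x_i)`; work with integral representatives).  So for `m ≥ k + d r` the zeros lie in at
most `d` classes modulo `p^r`, their density is at most `d / p^r`.  (The density of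
`f ≡ 0` modulo `p^m` decreases with `m`.)  Any other proof is welcome. -/
def PAZ : Prop := ∀ {σ : Type} [Fintype σ] (f : MvPolynomial σ ℤ) (p : ℕ) [Fact p.Prime], f ≠ 0 →
  Filter.Tendsto (fun m => (sol f p m : ℝ) / (p : ℝ) ^ (Fintype.card σ * m)) Filter.atTop (nhds 0)

/-- **PDV** takes `PAZ` (poles have absolute value greater than one).  Let `B S = A`, `S = ∑ a_m T^m`,
`a_m ≥ 0`, `a_m → 0`, `B(T₀) = 0`, `A(T₀) ≠ 0`, `|T₀| ≤ 1`, `T₀ ≠ 0`.  For `0 < r < 1` the series converges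
at `r T₀`, `B(r T₀) S(r T₀) = A(r T₀)`; `|B(r T₀)| ≤ C (1 - r)` and `(1 - r) ∑ a_m r^m → 0` for
`r → 1`, so `A(T₀) = 0`, a contradiction.  (`T₀ = 0`: then `A(0) = 0` too.) -/
def PDV : Prop := ∀ (S : PowerSeries ℂ) (a : ℕ → ℝ), (∀ m, PowerSeries.coeff m S = a m) →
  Filter.Tendsto a Filter.atTop (nhds 0) → ∀ T₀ : ℂ, PoleO S T₀ 1 → 1 < ‖T₀‖

/-- **PPO** (poles of power series).  `B S = A` in lowest terms.  Then
`(1 - uT) B(uT) S' = (1 - u² T) A(uT)`; put this in lowest terms. -/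
def PPO : Prop := ∀ (S S' : PowerSeries ℂ) (u : ℂ), u ≠ 0 → u ≠ 1 →
  (1 - PowerSeries.C u * PowerSeries.X) * S' =
    (1 - PowerSeries.C (u ^ 2) * PowerSeries.X) * PowerSeries.rescale u S →
  ∀ (T₀ : ℂ) (m : ℕ), (T₀ ≠ u⁻¹ → PoleO S T₀ m → PoleO S' (u⁻¹ * T₀) m) ∧
    (PoleO S u⁻¹ (m + 1) → PoleO S' (u⁻¹ * u⁻¹) m)

/-- **PIG** (Poincare series and zeta function).  (1) `T igu = 1 - (1 - T) poin` (`sol f p 0 = 1`).
(2) If `T S' = 1 - (1 - T) S`, then `S'` and `S` have the same poles, except for `T₀ = 1`. -/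
def PIG : Prop :=
  (∀ {σ : Type} [Fintype σ] (f : MvPolynomial σ ℤ) (p : ℕ) [Fact p.Prime],
    PowerSeries.X * igu f p = 1 - (1 - PowerSeries.X) * poin f p) ∧
  ∀ (S S' : PowerSeries ℂ), PowerSeries.X * S' = 1 - (1 - PowerSeries.X) * S →
    ∀ (T₀ : ℂ) (m : ℕ), 1 ≤ m → (PoleO S' T₀ m → PoleO S T₀ m) ∧
      (T₀ ≠ 1 → PoleO S T₀ m → PoleO S' T₀ m)

end Pool.Agent.Helper74.HG
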