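import Pool.Agent.Helper74.HG.FinC
import Pool.Agent.Helper74.HG.GoalsG

/-!
# Project HG, part 3: assembly for the strong local conjecture
-/

namespace Pool.Agent.Helper74.HG

open MvPolynomial Pool.Agent.Helper50.HG.DINV

variable {σ τ : Type}

theorem neg_pole (hn : NEG) [Fintype σ] {f : MvPolynomial σ ℂ} {Z : RatFunc ℂ} (hZ : IsZ f Z)
    {s₀ : ℂ} (hs : Z.denom.IsRoot s₀) : s₀ ≠ 0 ∧ s₀ ≠ 1 := by
  obtain ⟨s, g, L, -, hL, -, rfl⟩ := hZ
  obtain ⟨N, ν, hN, hν, h⟩ := hn L hL s₀ hs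
  have h1 : ((N : ℝ) : ℂ) * s₀ + ((ν : ℝ) : ℂ) = 0 := by push_cast; exact h
  have h2 : (0 : ℝ) < N := by exact_mod_cast hN
  have h3 : (0 : ℝ) < ν := by exact_mod_cast hν
  constructor
  · rintro rfl
    rw [mul_zero, zero_add] at h1
    exact h3.ne' (Complex.ofReal_eq_zero.1 h1)
  · rintro rfl
    rw [mul_one, ← Complex.ofReal_add] at h1
    have := Complex.ofReal_eq_zero.1 h1
    linarith

theorem s_stab [Fintype σ] (hs : SE2) (hp : POLE2) (hn : NEG) (hb : BST) (hr : ROOT)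
    {f : MvPolynomial σ ℂ} (h0 : f ≠ 0) (hf : constantCoeff f = 0) (h : SL (stabC f)) :
    SL f := by
  intro Z hZ s hsr b hbf
  obtain ⟨n0, n1⟩ := neg_pole hn hZ hsr
  by_cases hi : s = -1
  · have := hr f _ h0 hf ((isBk_iff f b).1 hbf)
    rw [aeval_map_eq] at this
    rw [hi]
    exact this
  · have h1 := hb f _ ((isBk_iff f b).1 hbf)
    have h1' : IsBk ℂ (stabC f) ((Polynomial.X + 1) * b.comp (Polynomial.X + 1)) := by
      rw [isBk_iff]
      simpa [Polynomial.map_mul, Polynomial.map_comp] using h1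
    have h2 := h _ (hs f hf Z hZ) (s - 1) ((hp Z s n0 n1 hi).1 hsr) _ h1'
    rw [map_mul, Polynomial.aeval_comp] at h2
    simp only [map_add, Polynomial.aeval_X, map_one] at h2
    rw [sub_add_cancel] at h2
    exact (mul_eq_zero.1 h2).resolve_left n0

theorem s_iso [Fintype σ] [Fintype τ] (hz : ZIS) (hd : BIS)
    {φ : MvPolynomial σ ℂ ≃ₐ[ℂ] MvPolynomial τ ℂ} (hφ : PresC φ) {f : MvPolynomial σ ℂ}
    (h : SL (φ f)) : SL f := fun Z hZ s hs b hb =>
  h Z (hz φ hφ f Z hZ) s hs b (hd φ hφ f b hb)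

theorem s_scale [Fintype σ] (hz : ZSC) (hd : BSC) {c : ℂ} (hc : c ≠ 0) {f : MvPolynomial σ ℂ}
    (h : SL (C c * f)) : SL f := fun Z hZ s hs b hb =>
  h Z (hz c hc f Z hZ) s hs b (hd c hc f b hb)

/-- from the product to a factor -/
theorem s_prod [Fintype σ] (hz : ZPI) (hd : BPI) (ι : Type) [Fintype ι] [Nonempty ι]
    (f : ι → MvPolynomial σ ℂ) (f₀ : MvPolynomial σ ℂ)
    (h1 : ∀ i Z, IsZ f₀ Z → IsZ (f i) Z) (h2 : ∀ i b, IsBk ℂ f₀ b → IsBk ℂ (f i) b)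
    (h : SL (∏ i, rename (fun x => (i, x)) (f i))) : SL f₀ := by
  intro Z hZ s hs b hb
  have h3 := hz ι f (fun _ => Z) (fun i => h1 i Z hZ)
  rw [Finset.prod_const, Finset.card_univ] at h3
  have h4 := h _ h3 s (denom_pow Fintype.card_ne_zero hs) _ (hd ι f (fun _ => b)
    (fun i => h2 i b hb))
  rw [Finset.prod_const, map_pow] at h4
  exact (pow_eq_zero_iff (by rw [Finset.card_univ]; exact Fintype.card_ne_zero)).1 h4

theorem s_spec [Fintype σ] (hz : ZSP) (hb : BSP) (hn : NUL) (hi : BID) {f : MvPolynomial σ ℂ}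
    (h0 : f ≠ 0) (hf : constantCoeff f = 0) {Z : RatFunc ℂ} (hZ : IsZ f Z) :
    ∃ f₀ : MvPolynomial σ Qc, f₀ ≠ 0 ∧ constantCoeff f₀ = 0 ∧
      (SL (map inQ f₀) → ∀ s₀ : ℂ, Z.denom.IsRoot s₀ →
        ∀ b : Polynomial ℚ, IsBk ℂ f b → Polynomial.aeval s₀ b = 0) := by
  classical
  obtain ⟨s₁, hs₁⟩ := hz f Z hZ
  obtain ⟨b₀, hb₀, hdvd⟩ := hi f
  obtain ⟨s₂, hs₂⟩ := hb f b₀ hb₀
  obtain ⟨u₀, hu₀⟩ := MvPolynomial.ne_zero_iff.1 h0
  let s : Finset ℂ := s₁ ∪ s₂ ∪ f.support.image f.coeff ∪ {(f.coeff u₀)⁻¹}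
  have hsub : ∀ z ∈ s, z ∈ Rg s := fun z hz => Subring.subset_closure (Finset.mem_coe.2 hz)
  have hcoef : ∀ u, f.coeff u ∈ Rg s := by
    intro u
    by_cases hu : f.coeff u = 0
    · rw [hu]; exact Subring.zero_mem _
    · exact hsub _ (by
        simp only [s, Finset.mem_union, Finset.mem_image]
        exact Or.inl (Or.inr ⟨u, mem_support_iff.2 hu, rfl⟩))
  obtain ⟨g, hg⟩ := exists_model s f hcoef
  obtain ⟨θ, hθ⟩ := hn s
  have hgc : ∀ u, ((g.coeff u : Rg s) : ℂ) = f.coeff u := by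
    intro u
    rw [← hg, coeff_map]
    rfl
  have hne : map θ g ≠ 0 := by
    intro h1
    have h2 : θ (g.coeff u₀) = 0 := by
      rw [← coeff_map, h1, coeff_zero]
    have h3 : g.coeff u₀ * ⟨(f.coeff u₀)⁻¹, hsub _ (by simp [s])⟩ = 1 := by
      apply Subtype.ext
      show ((g.coeff u₀ : Rg s) : ℂ) * (f.coeff u₀)⁻¹ = 1
      rw [hgc, mul_inv_cancel₀ hu₀]
    have h4 := congrArg θ h3
    rw [map_mul, h2, zero_mul, map_one] at h4
    exact zero_ne_one h4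
  have hcc : constantCoeff (map θ g) = 0 := by
    rw [constantCoeff_map]
    have : constantCoeff g = 0 := by
      apply Subtype.ext
      have := hgc 0
      rw [← constantCoeff_eq, ← constantCoeff_eq, hf] at this
      exact this
    rw [this, map_zero]
  refine ⟨map θ g, hne, hcc, fun hQ s₀ hs₀ b hb' => ?_⟩
  rw [map_map] at hQ
  have hle1 : s₁ ⊆ s := fun z hz => by simp only [s, Finset.mem_union]; tauto
  have hle2 : s₂ ⊆ s := fun z hz => by simp only [s, Finset.mem_union]; tauto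
  have h5 := hQ Z (hs₁ s hle1 (inQ.comp θ) g hg) s₀ hs₀ b₀ (hs₂ s hle2 (inQ.comp θ) g hg)
  obtain ⟨c, rfl⟩ := hdvd b hb'
  rw [map_mul, h5, zero_mul]

/-- the reduction to singular integer polynomials -/
theorem s_norm [Fintype σ] (hzs : ZSP) (hbs : BSP) (hn : NUL) (hnr : NRM) (hzi : ZIS) (hbi : BIS)
    (hzp : ZPI) (hbp : BPI) (hzc : ZSC) (hbc : BSC) {f₀ : MvPolynomial σ Qc} (h0 : f₀ ≠ 0)
    (hf : constantCoeff f₀ = 0) :
    ∃ (τ : Type) (_ : Fintype τ) (F : MvPolynomial τ ℤ), F ≠ 0 ∧ constantCoeff F = 0 ∧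
      (SL (toC F) → SL (map inQ f₀)) := by
  obtain ⟨ι, _, _, ρ, F, c, φ, hc, hφ, hF⟩ := hnr f₀
  have h1 : ∀ i, map inQ (map (ρ i : Qc →+* Qc) f₀) ≠ 0 ∧
      constantCoeff (map inQ (map (ρ i : Qc →+* Qc) f₀)) = 0 := by
    intro i
    constructor
    · intro h2
      apply h0
      apply map_injective (ρ i : Qc →+* Qc) (ρ i).injective
      apply map_injective inQ inQ.injective
      rw [h2, map_zero, map_zero]
    · rw [constantCoeff_map, constantCoeff_map, hf, map_zero, map_zero]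
  have hFne : F ≠ 0 := by
    rintro rfl
    rw [show toC (0 : MvPolynomial (ι × σ) ℤ) = 0 from map_zero _] at hF
    have h2 := mul_eq_zero.1 hF.symm
    rcases h2 with h2 | h2
    · exact hc (C_eq_zero.1 h2)
    · have h3 := φ.injective (h2.trans (map_zero φ).symm)
      obtain ⟨i, -, hi⟩ := Finset.prod_eq_zero_iff.1 h3
      apply (h1 i).1
      apply rename_injective (fun x : σ => (i, x)) (fun x y hxy => (Prod.ext_iff.1 hxy).2)
      rw [hi, map_zero]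
  have hFcc : constantCoeff F = 0 := by
    have h2 : constantCoeff (toC F) = 0 := by
      rw [hF, map_mul, ccC hφ, map_prod]
      obtain ⟨i⟩ := ‹Nonempty ι›
      rw [Finset.prod_eq_zero (Finset.mem_univ i), mul_zero]
      rw [constantCoeff_rename]
      exact (h1 i).2
    rw [toC, constantCoeff_map] at h2
    simpa using h2
  refine ⟨ι × σ, inferInstance, F, hFne, hFcc, fun h3 => ?_⟩
  rw [hF] at h3
  have h4 := s_iso hzi hbi hφ (s_scale hzc hbc hc h3)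
  exact s_prod hzp hbp ι _ _ (fun i Z hZ => (c_conj hzs hbs hn f₀ (ρ i)).1 Z hZ)
    (fun i b hb => (c_conj hzs hbs hn f₀ (ρ i)).2 b hb) h4

/-- doubling -/
theorem s_double [Fintype τ] (hzp : ZPI) (hbp : BPI) {F : MvPolynomial τ ℤ}
    (h0 : F ≠ 0) (hF : constantCoeff F = 0) :
    ∃ (υ : Type) (_ : Fintype υ) (G : MvPolynomial υ ℤ), G ≠ 0 ∧ Sing G ∧
      (SL (toC G) → SL (toC F)) := by
  classical
  let G : MvPolynomial (Fin 2 × τ) ℤ := ∏ i : Fin 2, rename (fun x => (i, x)) F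
  have hG : toC G = ∏ i : Fin 2, rename (fun x => (i, x)) (toC F) := by
    simp only [G, toC, map_prod, map_rename]
  have hinj : ∀ i : Fin 2, Function.Injective (fun x : τ => (i, x)) :=
    fun i x y hxy => (Prod.ext_iff.1 hxy).2
  have hGne : G ≠ 0 := by
    intro h1
    obtain ⟨i, -, hi⟩ := Finset.prod_eq_zero_iff.1 h1
    apply h0
    apply rename_injective _ (hinj i)
    rw [hi, map_zero]
  have hsupp : ∀ i : Fin 2, ∀ u ∈ (rename (fun x => (i, x)) F).support, 1 ≤ u.degree := by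
    intro i u hu
    by_contra hlt
    have h1 : u.degree = 0 := by omega
    have h2 : u = 0 := (Finsupp.degree_eq_zero_iff u).1 h1
    rw [h2, mem_support_iff] at hu
    apply hu
    have := constantCoeff_rename (fun x => (i, x)) F
    rw [hF] at this
    exact this
  have hGs : Sing G := by
    intro u hu
    simp only [G, Fin.prod_univ_two] at hu
    obtain ⟨a, ha, b, hb, rfl⟩ := Finset.mem_add.1 (support_mul _ _ hu)
    have h1 := hsupp 0 a ha
    have h2 := hsupp 1 b hb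
    rw [map_add]
    omega
  refine ⟨Fin 2 × τ, inferInstance, G, hGne, hGs, fun h1 => ?_⟩
  rw [hG] at h1
  exact s_prod hzp hbp (Fin 2) (fun _ => toC F) (toC F) (fun _ _ hZ => hZ) (fun _ _ hb => hb) h1

theorem s_zstab [Fintype σ] (hs : SE2) (hp : POLE2) (hn : NEG) (hb : BST) (hr : ROOT)
    {f : MvPolynomial σ ℤ} (h0 : f ≠ 0) (hf : constantCoeff f = 0) (h : SL (toC (stab1 f))) :
    SL (toC f) := by
  rw [toC_stab1] at h
  exact s_stab hs hp hn hb hr (toC_ne h0) (toC_cc hf) h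

theorem s_ziso [Fintype σ] [Fintype τ] (hz : ZIS) (hd : BIS)
    {φ : MvPolynomial σ ℤ ≃ₐ[ℤ] MvPolynomial τ ℤ} (hφ : Pres φ) {f : MvPolynomial σ ℤ}
    (h : SL (toC (φ f))) : SL (toC f) := by
  rw [← be_toC] at h
  exact s_iso hz hd (presC_be hφ) h

theorem s_ziso' [Fintype σ] [Fintype τ] (hz : ZIS) (hd : BIS)
    {φ : MvPolynomial σ ℤ ≃ₐ[ℤ] MvPolynomial τ ℤ} (hφ : Pres φ) {f : MvPolynomial σ ℤ}
    (h : SL (toC f)) : SL (toC (φ f)) := by
  apply s_ziso hz hd (pres_symm hφ)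
  rwa [AlgEquiv.symm_apply_apply]

theorem s_stabS [Fintype σ] (hz : ZIS) (hd : BIS) (hs : SE2) (hp : POLE2) (hn : NEG) (hb : BST)
    (hr : ROOT) {f : MvPolynomial σ ℤ} (h0 : f ≠ 0) (hf : constantCoeff f = 0) (k : ℕ)
    (h : SL (toC (stabS (Fin k) f))) : SL (toC f) := by
  induction k with
  | zero =>
    have h1 := s_ziso' hz hd (pres_rename (eqv0 σ)) h
    rwa [eqv0_stab] at h1
  | succ k ih =>
    apply ih
    have h1 := s_ziso' hz hd (pres_rename (eqv σ k)) h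
    rw [eqv_stab] at h1
    exact s_zstab hs hp hn hb hr (stabS_facts h0 hf k).1 (stabS_facts h0 hf k).2 h1

theorem s_red [Fintype σ] [Fintype τ] (hz : ZIS) (hd : BIS) (hs : SE2) (hp : POLE2) (hn : NEG)
    (hb : BST) (hr : ROOT) {f : MvPolynomial σ ℤ} {g : MvPolynomial τ ℤ} (h0 : f ≠ 0)
    (hf : constantCoeff f = 0) (h : Red f g) (hg : SL (toC g)) : SL (toC f) := by
  obtain ⟨k, φ, hφ, rfl⟩ := h
  exact s_stabS hz hd hs hp hn hb hr h0 hf k (s_ziso hz hd hφ hg)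

/-- all the facts -/
structure FactsS : Prop where
  tra : TRA
  iso : ISO
  wd : WD
  li : LI
  deg : DEG
  mat : MAT
  pole : POLE2
  neg : NEG
  bst : BST
  root : ROOT
  se2 : SE2
  zis : ZIS
  zpi : ZPI
  zsc : ZSC
  zsp : ZSP
  bis : BIS
  bpi : BPI
  bsc : BSC
  bid : BID
  bsp : BSP
  nul : NUL
  fin : FIN
  nrm : NRM
  unf : UNF

variable (F : FactsS)

include F

/-- singular integer polynomials -/
theorem mainS_int {σ : Type} [Fintype σ] {f : MvPolynomial σ ℤ} (h0 : f ≠ 0) (hf : Sing f) :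
    ∃ (N : ℕ) (H : Finset (Finset (Fin N))), H.Nonempty ∧ Cub H ∧ Sub3 H ∧ Mat3 H ∧
      Red f (hyp H) ∧ (SL (hypC H) → SL (toC f)) := by
  obtain ⟨N, H, hC, hS, hM, hR⟩ := chain3 F.tra F.iso F.wd F.li F.deg F.mat hf
  refine ⟨N, H, ?_, hC, hS, hM, hR, fun h => ?_⟩
  · rw [Finset.nonempty_iff_ne_empty]
    rintro rfl
    obtain ⟨k, φ, -, h2⟩ := hR
    apply (stabS_facts h0 (sing_cc hf) k).1
    have h3 : φ (stabS (Fin k) f) = φ 0 := by
      rw [h2, map_zero]; simp [hyp]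
    exact φ.injective h3
  · rw [← toC_hyp] at h
    exact s_red F.zis F.bis F.se2 F.pole F.neg F.bst F.root h0 (sing_cc hf) hR h

/-- all complex polynomials -/
theorem mainS_one {σ : Type} [Fintype σ] {f : MvPolynomial σ ℂ} (h0 : f ≠ 0)
    (hf : constantCoeff f = 0) :
    ∃ (N : ℕ) (H : Finset (Finset (Fin N))), H.Nonempty ∧ Cub H ∧ Sub3 H ∧ Mat3 H ∧
      (SL (hypC H) → SL f) := by
  by_cases hE : ∃ Z, IsZ f Z
  · obtain ⟨Z, hZ⟩ := hE
    obtain ⟨f₀, a1, a2, a3⟩ := s_spec F.zsp F.bsp F.nul F.bid h0 hf hZ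
    obtain ⟨τ, _, G, b1, b2, b3⟩ := s_norm F.zsp F.bsp F.nul F.nrm F.zis F.bis F.zpi F.bpi F.zsc
      F.bsc a1 a2
    obtain ⟨υ, _, G', c1, c2, c3⟩ := s_double F.zpi F.bpi b1 b2
    obtain ⟨N, H, d1, d2, d3, d4, -, d5⟩ := mainS_int F c1 c2
    refine ⟨N, H, d1, d2, d3, d4, fun h => ?_⟩
    intro Z' hZ' s₀ hs₀
    have hZZ : Z' = Z := uniqC F.fin F.unf f Z' Z hZ' hZ
    rw [hZZ] at hs₀
    exact a3 (b3 (c3 (d5 h))) s₀ hs₀
  · refine ⟨2, {Finset.univ}, Finset.singleton_nonempty _, ?_, ?_, ?_,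
      fun _ Z hZ => absurd ⟨Z, hZ⟩ hE⟩
    · intro e he
      rw [Finset.mem_singleton.1 he]
      left
      simp
    · exact sub3_of_card (by rw [Finset.card_singleton]; norm_num)
    · intro a ha b hb _ _ hab
      exact absurd ((Finset.mem_singleton.1 ha).trans (Finset.mem_singleton.1 hb).symm) hab

/-- The main theorem (strong local conjecture). -/
theorem mainS :
    ((∀ (n : ℕ) (f : MvPolynomial (Fin n) ℂ), f ≠ 0 → constantCoeff f = 0 → SL f) ↔
      ∀ (N : ℕ) (H : Finset (Finset (Fin N))), H.Nonempty → Cub H → Sub3 H → Mat3 H →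
        SL (hypC H)) ∧
    (∀ (n : ℕ) (f : MvPolynomial (Fin n) ℂ), f ≠ 0 → constantCoeff f = 0 →
      ∃ (N : ℕ) (H : Finset (Finset (Fin N))), H.Nonempty ∧ Cub H ∧ Sub3 H ∧ Mat3 H ∧
        (SL (hypC H) → SL f)) ∧
    (∀ (n : ℕ) (f : MvPolynomial (Fin n) ℤ), f ≠ 0 → Sing f →
      ∃ (N : ℕ) (H : Finset (Finset (Fin N))), H.Nonempty ∧ Cub H ∧ Sub3 H ∧ Mat3 H ∧
        Red f (hyp H) ∧ (SL (hypC H) → SL (toC f))) ∧
    (∀ (n : ℕ) (f : MvPolynomial (Fin n) ℂ) (Z Z' : RatFunc ℂ), IsZ f Z → IsZ f Z' →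
      Z = Z') := by
  refine ⟨⟨fun h N H hN hC _ _ => ?_, fun h n f h0 hf => ?_⟩,
    fun n f h0 hf => mainS_one F h0 hf,
    fun n f h0 hf => mainS_int F h0 hf, fun n f => uniqC F.fin F.unf f⟩
  · rw [← toC_hyp]
    exact h N _ (toC_ne (hyp_ne hN)) (toC_cc (sing_cc (sing_hyp hC)))
  · obtain ⟨N, H, h1, h2, h3, h4, h5⟩ := mainS_one F h0 hf
    exact h5 (h N H h1 h2 h3 h4)

end Pool.Agent.Helper74.HG
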