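import Pool.Agent.Helper74.HG.All
import Pool.Agent.Helper93.HG.CONV

/-!
# Project HG (MP_aa7fc1_ag): the facts
-/

namespace Pool.Agent.Helper74.HG

/-- all the facts -/
theorem facts : FactsC := factsC Pool.Agent.Helper93.HG.CONV.t

end Pool.Agent.Helper74.HG
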