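import Pool.Agent.Helper74.HG.AllB
import Pool.Agent.Helper74.HG.DEGB

/-!
# Project HG, part 4 (MP_aa7fc1_ag): the facts for bipartite hypergraphs
-/

namespace Pool.Agent.Helper74.HG

theorem a_degb : DEGB := Pool.Agent.Helper74.HG.DEGB.t a_tra a_ste a_iso

/-- all the facts -/
theorem factsB : FactsB := factsB' a_degb

end Pool.Agent.Helper74.HG
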