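import Pool.Agent.Helper74.HG.GoalsG
import Pool.Agent.Helper74.HG.ZSCx
import Pool.Agent.Helper73.HG.BID

set_option autoImplicit false

namespace Pool.Agent.Helper74.HG.ZSCG

open MvPolynomial Pool.Agent.Helper74.HG

theorem jet_smul {σ : Type} (E : Type) [Field E] (v : E) (hv : v ≠ 0) (q : MvPolynomial σ E)
    (m : ℕ) : JetG E (C v * q) m = JetG E q m := by
  ext x
  simp only [JetG, Set.mem_ofPred_eq, map_mul, aeval_C]
  have h1 : ∀ a : Tr E m, algebraMap E (Tr E m) v * a = 0 ↔ a = 0 := by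
    intro a
    constructor
    · intro h
      have h2 : algebraMap E (Tr E m) v⁻¹ * (algebraMap E (Tr E m) v * a) = 0 := by
        rw [h, mul_zero]
      rwa [← mul_assoc, ← map_mul, inv_mul_cancel₀ hv, map_one, one_mul] at h2
    · intro h
      rw [h, mul_zero]
  rw [mul_left_comm, h1, Ne, h1]

theorem form_smul {σ : Type} [Fintype σ] (K : Type) [Field K] [Finite K] (u : K) (hu : u ≠ 0)
    (p : MvPolynomial σ K) (L : List Str) (h : FormG K p L) : FormG K (C u * p) L := by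
  obtain ⟨M, h1, h2, h3⟩ := h
  refine ⟨M, h1, h2, fun E _ _ _ m => ?_⟩
  rw [← h3 E m]
  have : cntG E (map (algebraMap K E) (C u * p)) m = cntG E (map (algebraMap K E) p) m := by
    unfold cntG
    rw [map_mul, map_C, jet_smul E _ ((map_ne_zero _).2 hu)]
  rw [this]

theorem aux {σ : Type} [Fintype σ] {A B : Subring ℂ} (hle : A ≤ B) (g : MvPolynomial σ A)
    (c d : B) (hcd : c * d = 1) (L : List Str)
    (hF : ∀ (K : Type) [Field K] [Finite K] (ψ : A →+* K), FormG K (map ψ g) L)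
    (K : Type) [Field K] [Finite K] (ψ : B →+* K) :
    FormG K (map ψ (C c * map (Subring.inclusion hle) g)) L := by
  rw [map_mul, map_C, map_map]
  apply form_smul
  · intro h
    have := congrArg ψ hcd
    rw [map_mul, h, zero_mul, map_one] at this
    exact zero_ne_one this
  · exact hF K _

theorem pack {σ : Type} [Fintype σ] {A B : Subring ℂ} (hle : A ≤ B) (g : MvPolynomial σ A)
    (c : ℂ) (hc0 : c ≠ 0) (hc : c ∈ B) (hc' : c⁻¹ ∈ B) (f : MvPolynomial σ ℂ)
    (hg : map A.subtype g = f) (L : List Str)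
    (hF : ∀ (K : Type) [Field K] [Finite K] (ψ : A →+* K), FormG K (map ψ g) L) :
    ∃ g' : MvPolynomial σ B, map B.subtype g' = C c * f ∧
      ∀ (K : Type) [Field K] [Finite K] (ψ : B →+* K), FormG K (map ψ g') L :=
  ⟨_, ZSCx.aux2 hle g c hc f hg, fun K _ _ ψ => aux hle g ⟨c, hc⟩ ⟨c⁻¹, hc'⟩
    (Subtype.ext (mul_inv_cancel₀ hc0)) L hF K ψ⟩

/-- **ZSCG** -/
theorem t : ZSCG := by
  intro σ _ c hc f Z hZ
  obtain ⟨s, g, L, hg, hL, hF, hZL⟩ := hZ
  obtain ⟨s', hle, h1, h2⟩ := ZSCx.ex s c c⁻¹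
  obtain ⟨g', h3, h4⟩ := pack hle g c hc h1 h2 f hg L hF
  exact ⟨s', g', L, h3, hL, h4, hZL⟩

/-- **BSCG** -/
theorem t2 : BSCG := by
  rintro σ c hc f b ⟨P, hP, h1⟩
  refine ⟨algebraMap ℂ _ c⁻¹ * P, Subalgebra.mul_mem _ (Subalgebra.algebraMap_mem _ _) hP,
    fun N => ?_⟩
  show (algebraMap ℂ (Module.End ℂ (MvPolynomial σ ℂ)) c⁻¹) (P (N : ℂ) ((C c * f) ^ (N + 1))) = _
  rw [mul_pow, mul_pow, ← C_pow, ← C_pow, C_mul', LinearMap.map_smul, h1 N,
    Module.algebraMap_end_apply, smul_smul, ← C_mul', pow_succ]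
  rw [show c⁻¹ * (c ^ N * c) = c ^ N by field_simp]
  ring

open Pool.Agent.Helper73.HG.BID in
/-- the ideal -/
def I {σ : Type} (f : MvPolynomial σ ℂ) : Ideal (Polynomial ℚ) where
  carrier := {b | IsBG ℂ f b}
  zero_mem' := by
    refine ⟨0, Subalgebra.zero_mem _, fun N => by simp⟩
  add_mem' := by
    rintro a b ⟨P, hP, hPe⟩ ⟨Q, hQ, hQe⟩
    refine ⟨P + Q, Subalgebra.add_mem _ hP hQ, fun N => ?_⟩
    show (P (N : ℂ)) (f ^ (N + 1)) + (Q (N : ℂ)) (f ^ (N + 1)) = _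
    rw [hPe, hQe, Polynomial.eval_add, map_add, map_add]
    ring
  smul_mem' := by
    rintro r b ⟨P, hP, hPe⟩
    refine ⟨(fun s : ℂ => ((r.map (algebraMap ℚ ℂ)).eval s) •
        (1 : Module.End ℂ (MvPolynomial σ ℂ))) * P,
      Subalgebra.mul_mem _ (poly_mem _) hP, fun N => ?_⟩
    show ((r.map (algebraMap ℚ ℂ)).eval (N : ℂ)) • (P (N : ℂ)) (f ^ (N + 1)) = _
    rw [hPe, smul_eq_mul, Polynomial.eval_mul, map_mul, map_mul, MvPolynomial.smul_eq_C_mul,
      Polynomial.eval_natCast_map]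
    ring

/-- **BIDG** -/
theorem t3 : BIDG := by
  intro σ f
  obtain ⟨b₀, hb⟩ := (IsPrincipalIdealRing.principal (I f)).principal
  refine ⟨b₀, ?_, fun b hbk => ?_⟩
  · have : b₀ ∈ I f := by
      rw [hb]
      exact Submodule.mem_span_singleton_self b₀
    exact this
  · have : b ∈ I f := hbk
    rw [hb] at this
    exact Ideal.mem_span_singleton.1 this

end Pool.Agent.Helper74.HG.ZSCG
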